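import Pool.Agent.Helper95.DG.Defs

set_option autoImplicit false

/-!
# DG-01: elementary facts on walks

* `cls_step`: diagonal steps keep the class. `diag_of_ps`, `diag_of_ds`: clear.
* `exists_between`: a sequence of integers with `φ (i+1) ≤ φ i + 1`, `φ 0 ≤ s ≤ t ≤ φ n`. Let `m2` be the
  least index with `t ≤ φ m2` (so `φ m2 = t`, because the steps up are at most one, and `φ i < t`
  before; if `m2 = 0` then `φ 0 = s = t`) and `m1` the largest index `≤ m2` with `φ m1 ≤ s` (so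
  `φ m1 = s`: otherwise `φ (m1+1) ≤ s` and `m1 + 1 ≤ m2`).
* `conn_of_walk`: restrict and shift the walk: `g i = f (m1 + i)`, length `m2 - m1`.
* `conn_trans`: concatenate: `h i = if i ≤ n then f i else g (i - n)`.
-/

namespace Pool.Agent.Helper95.DG

theorem diag_of_ps (ω : ℤ × ℤ → Bool) (u v : ℤ × ℤ) (h : PS ω u v) : Diag u v := h.1

theorem diag_of_ds (ω : ℤ × ℤ → Bool) (u v : ℤ × ℤ) (h : DS ω u v) : Diag u v := h.1

theorem cls_step (k : ℤ) (u v : ℤ × ℤ) (h : Diag u v) : Cls k u ↔ Cls k v := by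
  unfold Cls
  obtain ⟨h1, h2⟩ := h
  rw [Int.even_iff, Int.even_iff]
  rcases h1 with h1 | h1 <;> rcases h2 with h2 | h2 <;> omega

theorem cls_walk (k : ℤ) (r : ℤ × ℤ → ℤ × ℤ → Prop) (hr : ∀ u v, r u v → Diag u v)
    (R : Set (ℤ × ℤ)) (n : ℕ) (f : ℕ → ℤ × ℤ) (hf : IsWalk r R n f) (h0 : Cls k (f 0)) :
    ∀ i ≤ n, Cls k (f i) := by
  intro i
  induction i with
  | zero => intro _; exact h0
  | succ i ih =>
    intro hi
    exact (cls_step k _ _ (hr _ _ (hf.2 i hi))).1 (ih (by omega))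

theorem cls_conn (k : ℤ) (r : ℤ × ℤ → ℤ × ℤ → Prop) (hr : ∀ u v, r u v → Diag u v)
    (R : Set (ℤ × ℤ)) (u v : ℤ × ℤ) (h : Conn r R u v) : Cls k u ↔ Cls k v := by
  obtain ⟨n, f, hf, h0, hn⟩ := h
  have key : ∀ i ≤ n, (Cls k (f 0) ↔ Cls k (f i)) := by
    intro i
    induction i with
    | zero => intro _; exact Iff.rfl
    | succ i ih =>
      intro hi
      exact (ih (by omega)).trans (cls_step k _ _ (hr _ _ (hf.2 i hi)))
  have := key n le_rfl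
  rwa [h0, hn] at this

theorem conn_refl (r : ℤ × ℤ → ℤ × ℤ → Prop) (R : Set (ℤ × ℤ)) (u : ℤ × ℤ) (hu : u ∈ R) :
    Conn r R u u :=
  ⟨0, fun _ => u, ⟨fun _ _ => hu, fun i hi => absurd hi (Nat.not_lt_zero i)⟩, rfl, rfl⟩

theorem conn_step (r : ℤ × ℤ → ℤ × ℤ → Prop) (R : Set (ℤ × ℤ)) (u v : ℤ × ℤ) (hu : u ∈ R)
    (hv : v ∈ R) (h : r u v) : Conn r R u v := by
  refine ⟨1, fun i => if i = 0 then u else v, ⟨fun i _ => ?_, fun i hi => ?_⟩, by simp, by simp⟩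
  · by_cases h0 : i = 0 <;> simp [h0, hu, hv]
  · have : i = 0 := by omega
    subst this
    simpa using h

theorem conn_trans (r : ℤ × ℤ → ℤ × ℤ → Prop) (R : Set (ℤ × ℤ)) (u v w : ℤ × ℤ)
    (h1 : Conn r R u v) (h2 : Conn r R v w) : Conn r R u w := by
  obtain ⟨n, f, hf, hf0, hfn⟩ := h1
  obtain ⟨m, g, hg, hg0, hgm⟩ := h2
  refine ⟨n + m, fun i => if i ≤ n then f i else g (i - n), ⟨fun i hi => ?_, fun i hi => ?_⟩,
    by simp [hf0], ?_⟩
  · by_cases h : i ≤ n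
    · simp only [h, if_true]; exact hf.1 i h
    · simp only [h, if_false]; exact hg.1 _ (by omega)
  · by_cases h : i + 1 ≤ n
    · simp only [h, if_true, (by omega : i ≤ n)]; exact hf.2 i h
    · by_cases h' : i ≤ n
      · have : i = n := by omega
        subst this
        simp only [le_refl, if_true, (by omega : ¬ i + 1 ≤ i), if_false]
        rw [hfn, ← hg0]
        have e : i + 1 - i = 0 + 1 := by omega
        rw [e]
        exact hg.2 0 (by omega)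
      · simp only [h, h', if_false]
        have e : i + 1 - n = (i - n) + 1 := by omega
        rw [e]
        exact hg.2 _ (by omega)
  · by_cases h : n + m ≤ n
    · have : m = 0 := by omega
      subst this
      simp only [Nat.add_zero, le_refl, if_true]
      rw [hfn, ← hg0, hgm]
    · simp only [h, if_false]
      rw [Nat.add_sub_cancel_left, hgm]

theorem conn_mono (r r' : ℤ × ℤ → ℤ × ℤ → Prop) (R R' : Set (ℤ × ℤ)) (u v : ℤ × ℤ)
    (hr : ∀ x y, x ∈ R → y ∈ R → r x y → r' x y) (hR : R ⊆ R') (h : Conn r R u v) :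
    Conn r' R' u v := by
  obtain ⟨n, f, hf, h0, hn⟩ := h
  exact ⟨n, f, ⟨fun i hi => hR (hf.1 i hi),
    fun i hi => hr _ _ (hf.1 i hi.le) (hf.1 (i + 1) hi) (hf.2 i hi)⟩, h0, hn⟩

/-- The reversed walk. -/
theorem conn_reverse (r : ℤ × ℤ → ℤ × ℤ → Prop) (R : Set (ℤ × ℤ)) (u v : ℤ × ℤ)
    (h : Conn r R u v) : Conn (fun x y => r y x) R v u := by
  obtain ⟨n, f, hf, h0, hn⟩ := h
  refine ⟨n, fun i => f (n - i), ⟨fun i _ => hf.1 _ (Nat.sub_le n i), fun i hi => ?_⟩, ?_, ?_⟩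
  · have e : n - i = (n - (i + 1)) + 1 := by omega
    show r (f (n - (i + 1))) (f (n - i))
    rw [e]
    exact hf.2 _ (by omega)
  · simpa using hn
  · simpa using h0

/-- The walk `f m1, ..., f m2` as a walk. -/
theorem isWalk_shift (r : ℤ × ℤ → ℤ × ℤ → Prop) (R R' : Set (ℤ × ℤ)) (n : ℕ) (f : ℕ → ℤ × ℤ)
    (hf : IsWalk r R n f) (m1 m2 : ℕ) (h12 : m1 ≤ m2) (h2 : m2 ≤ n)
    (hR : ∀ i, m1 ≤ i → i ≤ m2 → f i ∈ R') : IsWalk r R' (m2 - m1) (fun i => f (m1 + i)) :=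
  ⟨fun i hi => hR _ (by omega) (by omega), fun i hi => hf.2 (m1 + i) (by omega)⟩

theorem conn_of_walk (r : ℤ × ℤ → ℤ × ℤ → Prop) (R R' : Set (ℤ × ℤ)) (n : ℕ) (f : ℕ → ℤ × ℤ)
    (hf : IsWalk r R n f) (m1 m2 : ℕ) (h12 : m1 ≤ m2) (h2 : m2 ≤ n)
    (hR : ∀ i, m1 ≤ i → i ≤ m2 → f i ∈ R') : Conn r R' (f m1) (f m2) :=
  ⟨m2 - m1, fun i => f (m1 + i), isWalk_shift r R R' n f hf m1 m2 h12 h2 hR, by simp,
    by simp [Nat.add_sub_cancel' h12]⟩

/-- First hit. -/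
theorem exists_first (φ : ℕ → ℤ) (n : ℕ) (t : ℤ)
    (hstep : ∀ i < n, φ (i + 1) ≤ φ i + 1) (h0 : φ 0 ≤ t) (hn : t ≤ φ n) :
    ∃ m ≤ n, φ m = t ∧ ∀ i < m, φ i < t := by
  classical
  have hex : ∃ m, t ≤ φ m := ⟨n, hn⟩
  refine ⟨Nat.find hex, Nat.find_min' hex hn, ?_, fun i hi => not_le.1 (Nat.find_min hex hi)⟩
  have h1 := Nat.find_spec hex
  have h2 : Nat.find hex ≤ n := Nat.find_min' hex hn
  rcases Nat.eq_zero_or_pos (Nat.find hex) with h | h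
  · rw [h] at h1 ⊢; omega
  · obtain ⟨m, hm⟩ : ∃ m, Nat.find hex = m + 1 := ⟨Nat.find hex - 1, by omega⟩
    have h3 : φ m < t := not_le.1 (Nat.find_min hex (by omega))
    have h4 := hstep m (by omega)
    rw [hm] at h1 ⊢
    omega

/-- Last visit. -/
theorem exists_last (φ : ℕ → ℤ) (n : ℕ) (t : ℤ)
    (hstep : ∀ i < n, φ (i + 1) ≤ φ i + 1) (h0 : φ 0 ≤ t) (hn : t ≤ φ n) :
    ∃ m ≤ n, φ m = t ∧ ∀ i, m < i → i ≤ n → t < φ i := by
  classical
  obtain ⟨m, hm, h1, h2⟩ := exists_first (fun i => t - φ (n - i)) n 0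
    (fun i hi => by
      have e : n - i = (n - (i + 1)) + 1 := by omega
      have := hstep (n - (i + 1)) (by omega)
      rw [← e] at this
      show t - φ (n - (i + 1)) ≤ t - φ (n - i) + 1
      omega)
    (by show t - φ (n - 0) ≤ 0; rw [Nat.sub_zero]; omega)
    (by show 0 ≤ t - φ (n - n); rw [Nat.sub_self]; omega)
  refine ⟨n - m, Nat.sub_le n m, ?_, fun i hi hin => ?_⟩
  · have h1' : t - φ (n - m) = 0 := h1
    omega
  · have h2' : t - φ (n - (n - i)) < 0 := h2 (n - i) (by omega)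
    have e : n - (n - i) = i := by omega
    rw [e] at h2'
    omega

theorem exists_between (φ : ℕ → ℤ) (n : ℕ) (s t : ℤ) (hst : s ≤ t)
    (hstep : ∀ i < n, φ (i + 1) ≤ φ i + 1) (h0 : φ 0 ≤ s) (hn : t ≤ φ n) :
    ∃ m1 m2 : ℕ, m1 ≤ m2 ∧ m2 ≤ n ∧ φ m1 = s ∧ φ m2 = t ∧
      ∀ i, m1 ≤ i → i ≤ m2 → s ≤ φ i ∧ φ i ≤ t := by
  obtain ⟨m2, hm2, e2, l2⟩ := exists_first φ n t hstep (h0.trans hst) hn
  obtain ⟨m1, hm1, e1, l1⟩ := exists_last φ m2 s (fun i hi => hstep i (by omega)) h0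
    (by rw [e2]; exact hst)
  refine ⟨m1, m2, hm1, hm2, e1, e2, fun i hi1 hi2 => ⟨?_, ?_⟩⟩
  · rcases Nat.eq_or_lt_of_le hi1 with h | h
    · rw [← h, e1]
    · exact (l1 i h hi2).le
  · rcases Nat.eq_or_lt_of_le hi2 with h | h
    · rw [h, e2]
    · exact (l2 i h).le

end Pool.Agent.Helper95.DG
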