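import Pool.Agent.Helper95.DG.Indep
import Pool.Agent.Helper95.DG.Walk

set_option autoImplicit false

/-!
# DG-10: measurability and supports of connection events

`meas_conn_PS`: `{ω | Conn (PS ω) R u v}` is the union over `n` of the events `∃` walk of length `n`; by
induction on `n` (with `v` variable) the event is measurable: for `n = 0` it is `∅` or `univ`; for `n + 1`
it is the countable union over `w : ℤ × ℤ` of (walk of length `n` from `u` to `w`) ∩ `{PS ω w v}` ∩ `{v ∈ R}`,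
and `{ω | PS ω w v}` is measurable (a condition on the coordinate `cell w v`). Relate
`∃ f, IsWalk r R (n+1) f ∧ ..` to the recursion by cutting off the last step / by extending `f` with
`Function.update`. The same for `DS`.
`meas_exists`: a countable union.
`dep_conn_*`: if `ω, ω'` agree on the cells of all pairs of neighbouring points of `R` then the walks are the
same; `cell u v` for neighbours `u, v` in a rectangle is in `RCells`, in a strip in `SCells`.
-/

namespace Pool.Agent.Helper95.DG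

open MeasureTheory
open scoped ENNReal NNReal

/-- The general measurability statement. -/
theorem meas_conn_gen (r : (ℤ × ℤ → Bool) → ℤ × ℤ → ℤ × ℤ → Prop)
    (hr : ∀ x y, MeasurableSet {ω | r ω x y}) (R : Set (ℤ × ℤ)) (u v : ℤ × ℤ) :
    MeasurableSet {ω : ℤ × ℤ → Bool | Conn (r ω) R u v} := by
  have key : ∀ (n : ℕ) (v : ℤ × ℤ), MeasurableSet {ω : ℤ × ℤ → Bool |
      ∃ f : ℕ → ℤ × ℤ, IsWalk (r ω) R n f ∧ f 0 = u ∧ f n = v} := by
    intro n
    induction n with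
    | zero =>
      intro v
      by_cases h : u = v ∧ u ∈ R
      · have e : {ω : ℤ × ℤ → Bool | ∃ f : ℕ → ℤ × ℤ, IsWalk (r ω) R 0 f ∧ f 0 = u ∧ f 0 = v} =
            Set.univ := by
          refine Set.eq_univ_of_forall fun ω => ⟨fun _ => u, ⟨fun _ _ => h.2,
            fun i hi => absurd hi (Nat.not_lt_zero i)⟩, rfl, h.1⟩
        rw [e]; exact MeasurableSet.univ
      · have e : {ω : ℤ × ℤ → Bool | ∃ f : ℕ → ℤ × ℤ, IsWalk (r ω) R 0 f ∧ f 0 = u ∧ f 0 = v} =
            ∅ := by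
          refine Set.eq_empty_of_forall_notMem ?_
          rintro ω ⟨f, hf, h0, h1⟩
          exact h ⟨h0.symm.trans h1, h0 ▸ hf.1 0 le_rfl⟩
        rw [e]; exact MeasurableSet.empty
    | succ n ih =>
      intro v
      have e : {ω : ℤ × ℤ → Bool | ∃ f : ℕ → ℤ × ℤ, IsWalk (r ω) R (n + 1) f ∧ f 0 = u ∧
            f (n + 1) = v} =
          ⋃ w : ℤ × ℤ, ({ω | ∃ f : ℕ → ℤ × ℤ, IsWalk (r ω) R n f ∧ f 0 = u ∧ f n = w} ∩
            ({ω | r ω w v} ∩ {_ω | v ∈ R})) := by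
        ext ω
        constructor
        · rintro ⟨f, hf, h0, h1⟩
          refine Set.mem_iUnion.2 ⟨f n, ⟨f, ⟨fun i hi => hf.1 i (by omega),
            fun i hi => hf.2 i (by omega)⟩, h0, rfl⟩, ?_, ?_⟩
          · have := hf.2 n (by omega)
            rw [h1] at this
            exact this
          · have := hf.1 (n + 1) le_rfl
            rw [h1] at this
            exact this
        · intro h
          obtain ⟨w, ⟨f, hf, h0, h1⟩, h2, h3⟩ := Set.mem_iUnion.1 h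
          refine ⟨fun i => if i ≤ n then f i else v, ⟨fun i hi => ?_, fun i hi => ?_⟩,
            by simp [h0], by simp⟩
          · by_cases hin : i ≤ n
            · simp only [hin, if_true]; exact hf.1 i hin
            · simp only [hin, if_false]; exact h3
          · by_cases hin : i + 1 ≤ n
            · simp only [hin, if_true, (by omega : i ≤ n)]; exact hf.2 i hin
            · have hi' : i = n := by omega
              subst hi'
              simp only [le_refl, if_true, hin, if_false]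
              rw [h1]; exact h2
      rw [e]
      refine MeasurableSet.iUnion fun w => (ih w).inter ((hr w v).inter ?_)
      exact MeasurableSet.const _
  have e : {ω : ℤ × ℤ → Bool | Conn (r ω) R u v} =
      ⋃ n : ℕ, {ω | ∃ f : ℕ → ℤ × ℤ, IsWalk (r ω) R n f ∧ f 0 = u ∧ f n = v} := by
    ext ω
    simp only [Set.mem_iUnion]
    exact Iff.rfl
  rw [e]
  exact MeasurableSet.iUnion fun n => key n v

theorem meas_bit (c : ℤ × ℤ) (P : Bool → Prop) :
    MeasurableSet {ω : ℤ × ℤ → Bool | P (ω c)} := by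
  have : {ω : ℤ × ℤ → Bool | P (ω c)} = (fun ω : ℤ × ℤ → Bool => ω c) ⁻¹' {b | P b} := rfl
  rw [this]
  exact measurable_pi_apply c (MeasurableSet.of_discrete)

theorem meas_PS (x y : ℤ × ℤ) : MeasurableSet {ω : ℤ × ℤ → Bool | PS ω x y} := by
  unfold PS
  exact (MeasurableSet.const _).inter (meas_bit (cell x y) (fun b => b = true ↔ y.1 = x.1 + 1))

theorem meas_DS (x y : ℤ × ℤ) : MeasurableSet {ω : ℤ × ℤ → Bool | DS ω x y} := by
  unfold DS
  exact (MeasurableSet.const _).inter (meas_bit (cell x y) (fun b => b = true ↔ y.2 = x.2 + 1))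

theorem meas_conn_PS (R : Set (ℤ × ℤ)) (u v : ℤ × ℤ) :
    MeasurableSet {ω : ℤ × ℤ → Bool | Conn (PS ω) R u v} :=
  meas_conn_gen PS meas_PS R u v

theorem meas_conn_DS (R : Set (ℤ × ℤ)) (u v : ℤ × ℤ) :
    MeasurableSet {ω : ℤ × ℤ → Bool | Conn (DS ω) R u v} :=
  meas_conn_gen DS meas_DS R u v

theorem meas_ex_gen (r : (ℤ × ℤ → Bool) → ℤ × ℤ → ℤ × ℤ → Prop)
    (hr : ∀ x y, MeasurableSet {ω | r ω x y}) (R : Set (ℤ × ℤ)) (P : ℤ × ℤ → ℤ × ℤ → Prop) :
    MeasurableSet {ω : ℤ × ℤ → Bool | ∃ u v : ℤ × ℤ, P u v ∧ Conn (r ω) R u v} := by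
  have e : {ω : ℤ × ℤ → Bool | ∃ u v : ℤ × ℤ, P u v ∧ Conn (r ω) R u v} =
      ⋃ u : ℤ × ℤ, ⋃ v : ℤ × ℤ, ({_ω | P u v} ∩ {ω | Conn (r ω) R u v}) := by
    ext ω
    simp only [Set.mem_iUnion]
    exact Iff.rfl
  rw [e]
  exact MeasurableSet.iUnion fun u => MeasurableSet.iUnion fun v =>
    (MeasurableSet.const _).inter (meas_conn_gen r hr R u v)

theorem meas_exists_PS (R : Set (ℤ × ℤ)) (P : ℤ × ℤ → ℤ × ℤ → Prop) :
    MeasurableSet {ω : ℤ × ℤ → Bool | ∃ u v : ℤ × ℤ, P u v ∧ Conn (PS ω) R u v} :=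
  meas_ex_gen PS meas_PS R P

theorem meas_cross_gen (r : (ℤ × ℤ → Bool) → ℤ × ℤ → ℤ × ℤ → Prop)
    (hr : ∀ x y, MeasurableSet {ω | r ω x y}) (R : Set (ℤ × ℤ)) (A B C : ℤ × ℤ → Prop) :
    MeasurableSet {ω : ℤ × ℤ → Bool | ∃ u v : ℤ × ℤ, A u ∧ B u ∧ C v ∧ Conn (r ω) R u v} := by
  have := meas_ex_gen r hr R (fun u v => A u ∧ B u ∧ C v)
  simpa only [and_assoc] using this

theorem meas_LR (k a b c d : ℤ) : MeasurableSet {ω : ℤ × ℤ → Bool | LR (PS ω) k a b c d} :=
  meas_cross_gen PS meas_PS (Rect a b c d) (Cls k) (fun u => u.2 = c) (fun v => v.2 = d)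

theorem meas_RL (k a b c d : ℤ) : MeasurableSet {ω : ℤ × ℤ → Bool | RL (PS ω) k a b c d} :=
  meas_cross_gen PS meas_PS (Rect a b c d) (Cls k) (fun u => u.2 = d) (fun v => v.2 = c)

theorem meas_UP (k a b c d : ℤ) : MeasurableSet {ω : ℤ × ℤ → Bool | UP (PS ω) k a b c d} :=
  meas_cross_gen PS meas_PS (Rect a b c d) (Cls k) (fun u => u.1 = a) (fun v => v.1 = b)

theorem meas_DN (k a b c d : ℤ) : MeasurableSet {ω : ℤ × ℤ → Bool | DN (PS ω) k a b c d} :=
  meas_cross_gen PS meas_PS (Rect a b c d) (Cls k) (fun u => u.1 = b) (fun v => v.1 = a)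

theorem meas_UPD (k a b c d : ℤ) : MeasurableSet {ω : ℤ × ℤ → Bool | UP (DS ω) k a b c d} :=
  meas_cross_gen DS meas_DS (Rect a b c d) (Cls k) (fun u => u.1 = a) (fun v => v.1 = b)

theorem meas_RLD (k a b c d : ℤ) : MeasurableSet {ω : ℤ × ℤ → Bool | RL (DS ω) k a b c d} :=
  meas_cross_gen DS meas_DS (Rect a b c d) (Cls k) (fun u => u.2 = d) (fun v => v.2 = c)

theorem conn_congr (R : Set (ℤ × ℤ)) (S : Set (ℤ × ℤ))
    (hS : ∀ x ∈ R, ∀ y ∈ R, Diag x y → cell x y ∈ S) (ω ω' : ℤ × ℤ → Bool)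
    (h : ∀ c ∈ S, ω c = ω' c) (u v : ℤ × ℤ) (hc : Conn (PS ω) R u v) : Conn (PS ω') R u v := by
  refine conn_mono (PS ω) (PS ω') R R u v (fun x y hx hy hxy => ?_) (fun _ hz => hz) hc
  refine ⟨hxy.1, ?_⟩
  rw [← h _ (hS x hx y hy hxy.1)]
  exact hxy.2

/-- Support of connection events: `S` contains the cells of all diagonal steps inside `R`. -/
theorem dep_exists (R : Set (ℤ × ℤ)) (S : Set (ℤ × ℤ))
    (hS : ∀ x ∈ R, ∀ y ∈ R, Diag x y → cell x y ∈ S) (P : ℤ × ℤ → ℤ × ℤ → Prop) :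
    Dep {ω : ℤ × ℤ → Bool | ∃ u v : ℤ × ℤ, P u v ∧ Conn (PS ω) R u v} S := by
  intro ω ω' h
  constructor
  · rintro ⟨u, v, h1, h2⟩
    exact ⟨u, v, h1, conn_congr R S hS ω ω' h u v h2⟩
  · rintro ⟨u, v, h1, h2⟩
    exact ⟨u, v, h1, conn_congr R S hS ω' ω (fun c hc => (h c hc).symm) u v h2⟩

theorem cell_mem_RCells (a b c d : ℤ) (x y : ℤ × ℤ) (hx : x ∈ Rect a b c d)
    (hy : y ∈ Rect a b c d) (h : Diag x y) : cell x y ∈ RCells a b c d := by
  obtain ⟨h1, h2⟩ := h
  obtain ⟨x1, x2, x3, x4⟩ := hx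
  obtain ⟨y1, y2, y3, y4⟩ := hy
  refine ⟨?_, ?_, ?_, ?_⟩
  · exact le_min x1 y1
  · show min x.1 y.1 < b
    rcases h1 with h1 | h1 <;> omega
  · exact le_min x3 y3
  · show min x.2 y.2 < d
    rcases h2 with h2 | h2 <;> omega

theorem cell_mem_SCells (a b : ℤ) (x y : ℤ × ℤ) (hx : x ∈ Strip a b) (hy : y ∈ Strip a b)
    (h : Diag x y) : cell x y ∈ SCells a b := by
  obtain ⟨h1, -⟩ := h
  obtain ⟨x1, x2⟩ := hx
  obtain ⟨y1, y2⟩ := hy
  refine ⟨le_min x1 y1, ?_⟩
  show min x.1 y.1 < b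
  rcases h1 with h1 | h1 <;> omega

theorem dep_LR (k a b c d : ℤ) :
    Dep {ω : ℤ × ℤ → Bool | LR (PS ω) k a b c d} (RCells a b c d) := by
  have := dep_exists (Rect a b c d) (RCells a b c d)
    (fun x hx y hy h => cell_mem_RCells a b c d x y hx hy h)
    (fun u v => Cls k u ∧ u.2 = c ∧ v.2 = d)
  simp only [and_assoc] at this
  exact this

theorem dep_RL (k a b c d : ℤ) :
    Dep {ω : ℤ × ℤ → Bool | RL (PS ω) k a b c d} (RCells a b c d) := by
  have := dep_exists (Rect a b c d) (RCells a b c d)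
    (fun x hx y hy h => cell_mem_RCells a b c d x y hx hy h)
    (fun u v => Cls k u ∧ u.2 = d ∧ v.2 = c)
  simp only [and_assoc] at this
  exact this

end Pool.Agent.Helper95.DG
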