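import Pool.Agent.Helper95.DG.Walk

set_option autoImplicit false

/-!
# DG-02: the signed crossing lemma

`δ` is a walk of class `k + 1` from level `h = a - 1` to level `h = b + 1` with all `g`-coordinates in
`[c, d]`; `γ` is a walk of class `k` with all `h`-coordinates in `[a, b]` from `g ≤ c` to `g ≥ d`. Then
some step of `γ` and some step of `δ` have the same cell, and the step of `δ` is the step of `γ` turned by
+90 degrees (in the `(g, h)` plane, `h` upwards).

Proof. For integers `i, x` let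
`U i x = ∑ j ∈ range n, if min (δ j).1 (δ (j+1)).1 = i ∧ 2 * x < (δ j).2 + (δ (j+1)).2 then`
`(δ (j+1)).1 - (δ j).1 else 0` (net number of upward crossings of the level `i + 1/2` right of `x`), and
`φ u = U u.1 u.2`.
(1) If `a - 1 ≤ i ≤ b` and `x ≤ c` then `U i x = 1`: the second condition always holds (the sum of the two
`g`-coordinates is odd and at least `2c + 1`), and the sum telescopes with
`f z = if i + 1 ≤ z.1 then 1 else 0` : `f (δ (j+1)) - f (δ j)` is the summand; `f (δ n) - f (δ 0) = 1`.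
(2) If `d ≤ x` then `U i x = 0` (the sum of the coordinates is at most `2d - 1`).
(3) For `i + 1` in `[a, b]` and every integer `y`: let `s z = if z.1 = i + 1 ∧ y < z.2 then 1 else 0`. Then
`0 = s (δ n) - s (δ 0) = ∑ (s (δ (j+1)) - s (δ j))` and every summand is (the signed step
`(δ (j+1)).1 - (δ j).1` if the upper endpoint satisfies `s = 1`) minus (the signed step if the lower
endpoint satisfies `s = 1`). So: net upward crossings of level `i + 1/2` with upper endpoint right of `y`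
equal net upward crossings of level `i + 3/2` with lower endpoint right of `y`.
(4) Let `u = (h, g)` be of class `k`, `a ≤ h`, `h + 1 ≤ b`. The points of `δ` on level `h + 1` have
`g`-coordinate congruent to `g` mod 2. Taking `y = g + 1` in (3):
`φ (h+1, g+1) - φ (h, g) = - (net number of uses of (h, g+1) → (h+1, g))`; taking `y = g - 1`:
`φ (h+1, g-1) - φ (h, g) = net number of uses of (h, g-1) → (h+1, g)` (uses of the reversed step count
with the opposite sign). Compare summand by summand: for every step `(δ j, δ (j+1))` with lower endpoint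
`z` and upper endpoint `z'` (`z'.1 = z.1 + 1`, `z'.2 = z.2 ± 1`) evaluate the three indicator functions.
(5) `φ (γ 0) = 1`, `φ (γ m) = 0`, so there is `i < m` with `φ (γ (i+1)) < φ (γ i)`. In each of the four cases
for the step `γ i → γ (i+1)` (up-right, up-left and the reversed ones) (4) gives a step of `δ` in the
claimed direction in the same cell: if a sum of signed uses is positive, some use is positive.
-/

namespace Pool.Agent.Helper95.DG

/-- the identity of (4) for one step upwards -/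
theorem step_up (k h g ε z1 z2 w2 : ℤ) (hε : ε = 1 ∨ ε = -1) (hpar : (h + g + k) % 2 = 0)
    (hz : (z1 + z2 + (k + 1)) % 2 = 0) (e2 : w2 = z2 + 1 ∨ w2 = z2 - 1) :
    (if z1 = h + 1 ∧ 2 * (g + ε) < z2 + w2 then (1 : ℤ) else 0) -
      (if z1 = h ∧ 2 * g < z2 + w2 then 1 else 0) +
      ((if z1 = h ∧ g + ε < w2 then (1 : ℤ) else 0) -
          (if z1 = h + 1 ∧ g + ε < z2 then (1 : ℤ) else 0)) =
      -ε * (if z1 = h ∧ z2 = g + ε ∧ w2 = g then 1 else 0) := by
  by_cases h1 : z1 = h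
  · subst h1
    have n2 : ¬ (z1 = z1 + 1 ∧ 2 * (g + ε) < z2 + w2) := by omega
    have n3 : ¬ (z1 = z1 + 1 ∧ g + ε < z2) := by omega
    rw [if_neg n2, if_neg n3]
    rcases hε with rfl | rfl
    · by_cases h3 : g + 1 < w2
      · rw [if_pos ⟨rfl, by omega⟩, if_pos ⟨rfl, h3⟩, if_neg (by omega)]
        ring
      · by_cases h4 : w2 = g ∧ z2 = g + 1
        · rw [if_pos ⟨rfl, by omega⟩, if_neg (by omega), if_pos ⟨rfl, h4.2, h4.1⟩]
          ring
        · rw [if_neg (by omega), if_neg (by omega), if_neg (by omega)]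
          ring
    · by_cases h3 : g + -1 < w2
      · by_cases h4 : w2 = g ∧ z2 = g + -1
        · rw [if_neg (by omega), if_pos ⟨rfl, h3⟩, if_pos ⟨rfl, h4.2, h4.1⟩]
          ring
        · rw [if_pos ⟨rfl, by omega⟩, if_pos ⟨rfl, h3⟩, if_neg (by omega)]
          ring
      · rw [if_neg (by omega), if_neg (by omega), if_neg (by omega)]
        ring
  · have n2 : ¬ (z1 = h ∧ 2 * g < z2 + w2) := fun hh => h1 hh.1
    have n3 : ¬ (z1 = h ∧ g + ε < w2) := fun hh => h1 hh.1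
    have n4 : ¬ (z1 = h ∧ z2 = g + ε ∧ w2 = g) := fun hh => h1 hh.1
    rw [if_neg n2, if_neg n3, if_neg n4]
    by_cases h2 : z1 = h + 1 ∧ g + ε < z2
    · rw [if_pos h2, if_pos ⟨h2.1, by rcases hε with rfl | rfl <;> omega⟩]
      ring
    · rw [if_neg h2, if_neg (by rcases hε with rfl | rfl <;> omega)]
      ring

/-- the identity of (4) for one step -/
theorem step_id (k h g ε z1 z2 w1 w2 : ℤ) (hε : ε = 1 ∨ ε = -1) (hpar : (h + g + k) % 2 = 0)
    (hz : (z1 + z2 + (k + 1)) % 2 = 0) (e1 : w1 = z1 + 1 ∨ w1 = z1 - 1)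
    (e2 : w2 = z2 + 1 ∨ w2 = z2 - 1) :
    (if min z1 w1 = h + 1 ∧ 2 * (g + ε) < z2 + w2 then w1 - z1 else 0) -
      (if min z1 w1 = h ∧ 2 * g < z2 + w2 then w1 - z1 else 0) +
      ((if w1 = h + 1 ∧ g + ε < w2 then (1 : ℤ) else 0) -
          (if z1 = h + 1 ∧ g + ε < z2 then (1 : ℤ) else 0)) =
      -ε * ((if z1 = h ∧ z2 = g + ε ∧ w1 = h + 1 ∧ w2 = g then 1 else 0) -
        (if z1 = h + 1 ∧ z2 = g ∧ w1 = h ∧ w2 = g + ε then 1 else 0)) := by
  rcases e1 with rfl | rfl
  · have hm : min z1 (z1 + 1) = z1 := min_eq_left (by omega)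
    have n1 : ¬ (z1 = h + 1 ∧ z2 = g ∧ z1 + 1 = h ∧ w2 = g + ε) := fun hh => by
      have := hh.1
      have := hh.2.2.1
      omega
    have key := step_up k h g ε z1 z2 w2 hε hpar hz e2
    have c1 : (z1 + 1 = h + 1 ∧ g + ε < w2) ↔ (z1 = h ∧ g + ε < w2) := by
      rw [add_left_inj]
    have c2 : (z1 = h ∧ z2 = g + ε ∧ z1 + 1 = h + 1 ∧ w2 = g) ↔
        (z1 = h ∧ z2 = g + ε ∧ w2 = g) := by
      rw [add_left_inj]
      tauto
    rw [hm, if_neg n1, add_sub_cancel_left, sub_zero]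
    simp only [c1, c2]
    exact key
  · have hm : min z1 (z1 - 1) = z1 - 1 := min_eq_right (by omega)
    have n1 : ¬ (z1 = h ∧ z2 = g + ε ∧ z1 - 1 = h + 1 ∧ w2 = g) := fun hh => by
      have := hh.1
      have := hh.2.2.1
      omega
    have key := step_up k h g ε (z1 - 1) w2 z2 hε hpar (by omega) (by omega)
    have c1 : (z1 = h + 1 ∧ g + ε < z2) ↔ (z1 - 1 = h ∧ g + ε < z2) := by
      rw [sub_eq_iff_eq_add]
    have c2 : (z1 = h + 1 ∧ z2 = g ∧ z1 - 1 = h ∧ w2 = g + ε) ↔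
        (z1 - 1 = h ∧ w2 = g + ε ∧ z2 = g) := by
      rw [sub_eq_iff_eq_add]
      tauto
    have c3 : z1 - 1 - z1 = -1 := by ring
    rw [hm, if_neg n1, zero_sub, c3]
    simp only [c1, c2, add_comm z2 w2]
    have d1 : ∀ P : Prop, ∀ _ : Decidable P, (if P then (-1 : ℤ) else 0) = -(if P then 1 else 0) := by
      intro P _
      split_ifs <;> rfl
    rw [d1, d1]
    linear_combination -key

theorem cross (k a b c d : ℤ) (hab : a ≤ b) (n m : ℕ) (δ γ : ℕ → ℤ × ℤ)
    (hδ : ∀ j < n, Diag (δ j) (δ (j + 1))) (hδc : ∀ j ≤ n, c ≤ (δ j).2 ∧ (δ j).2 ≤ d)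
    (hδ0 : (δ 0).1 = a - 1) (hδn : (δ n).1 = b + 1) (hδk : Cls (k + 1) (δ 0))
    (hγ : ∀ i < m, Diag (γ i) (γ (i + 1))) (hγr : ∀ i ≤ m, a ≤ (γ i).1 ∧ (γ i).1 ≤ b)
    (hγ0 : (γ 0).2 ≤ c) (hγm : d ≤ (γ m).2) (hγk : Cls k (γ 0)) :
    ∃ i < m, ∃ j < n, cell (γ i) (γ (i + 1)) = cell (δ j) (δ (j + 1)) ∧
      (δ (j + 1)).1 - (δ j).1 = (γ (i + 1)).2 - (γ i).2 ∧
      (δ (j + 1)).2 - (δ j).2 = -((γ (i + 1)).1 - (γ i).1) := by
  classical
  have hδe : ∀ j ≤ n, ((δ j).1 + (δ j).2 + (k + 1)) % 2 = 0 := by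
    intro j
    induction j with
    | zero =>
      intro _
      exact Int.even_iff.1 hδk
    | succ j ih =>
      intro hj
      have h1 := ih (by omega)
      have h2 := hδ j (by omega)
      unfold Diag at h2
      omega
  have hγe : ∀ i ≤ m, ((γ i).1 + (γ i).2 + k) % 2 = 0 := by
    intro j
    induction j with
    | zero =>
      intro _
      exact Int.even_iff.1 hγk
    | succ j ih =>
      intro hj
      have h1 := ih (by omega)
      have h2 := hγ j (by omega)
      unfold Diag at h2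
      omega
  obtain ⟨U, hU⟩ : ∃ U : ℤ → ℤ → ℤ, ∀ i x, U i x = ∑ j ∈ Finset.range n,
      if min (δ j).1 (δ (j + 1)).1 = i ∧ 2 * x < (δ j).2 + (δ (j + 1)).2 then
        (δ (j + 1)).1 - (δ j).1 else 0 := ⟨_, fun _ _ => rfl⟩
  -- the change of `U` along a diagonal
  have key : ∀ h g ε : ℤ, (ε = 1 ∨ ε = -1) → (h + g + k) % 2 = 0 → a ≤ h + 1 → h + 1 ≤ b →
      U (h + 1) (g + ε) - U h g = ∑ j ∈ Finset.range n, -ε *
        ((if (δ j).1 = h ∧ (δ j).2 = g + ε ∧ (δ (j + 1)).1 = h + 1 ∧ (δ (j + 1)).2 = g then 1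
          else 0) -
        (if (δ j).1 = h + 1 ∧ (δ j).2 = g ∧ (δ (j + 1)).1 = h ∧ (δ (j + 1)).2 = g + ε then 1
          else 0)) := by
    intro h g ε hε hpar h1 h2
    have htel : ∑ j ∈ Finset.range n,
        ((if (δ (j + 1)).1 = h + 1 ∧ g + ε < (δ (j + 1)).2 then (1 : ℤ) else 0) -
          (if (δ j).1 = h + 1 ∧ g + ε < (δ j).2 then (1 : ℤ) else 0)) = 0 := by
      rw [Finset.sum_range_sub (fun j => if (δ j).1 = h + 1 ∧ g + ε < (δ j).2 then (1 : ℤ) else 0),
        if_neg (by omega), if_neg (by omega), sub_zero]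
    have h3 : U (h + 1) (g + ε) - U h g = U (h + 1) (g + ε) - U h g +
        ∑ j ∈ Finset.range n,
        ((if (δ (j + 1)).1 = h + 1 ∧ g + ε < (δ (j + 1)).2 then (1 : ℤ) else 0) -
          (if (δ j).1 = h + 1 ∧ g + ε < (δ j).2 then (1 : ℤ) else 0)) := by
      rw [htel, add_zero]
    rw [h3, hU, hU, ← Finset.sum_sub_distrib, ← Finset.sum_add_distrib]
    refine Finset.sum_congr rfl fun j hj => ?_
    rw [Finset.mem_range] at hj
    have e1 := hδe j hj.le
    have e3 := hδ j hj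
    exact step_id k h g ε _ _ _ _ hε hpar e1 e3.1 e3.2
  -- the end values
  have hstart : U (γ 0).1 (γ 0).2 = 1 := by
    have hr := hγr 0 (by omega)
    rw [hU]
    have h1 : ∑ j ∈ Finset.range n,
        ((if (γ 0).1 + 1 ≤ (δ (j + 1)).1 then (1 : ℤ) else 0) -
          (if (γ 0).1 + 1 ≤ (δ j).1 then (1 : ℤ) else 0)) = 1 := by
      rw [Finset.sum_range_sub (fun j => if (γ 0).1 + 1 ≤ (δ j).1 then (1 : ℤ) else 0),
        if_pos (by omega), if_neg (by omega), sub_zero]
    rw [← h1]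
    refine Finset.sum_congr rfl fun j hj => ?_
    rw [Finset.mem_range] at hj
    have e1 := hδc j (by omega)
    have e2 := hδc (j + 1) (by omega)
    have e3 := hδ j hj
    unfold Diag at e3
    obtain ⟨e3, e4⟩ := e3
    split_ifs <;> omega
  have hend : U (γ m).1 (γ m).2 = 0 := by
    rw [hU]
    refine Finset.sum_eq_zero fun j hj => ?_
    rw [Finset.mem_range] at hj
    have e1 := hδc j (by omega)
    have e2 := hδc (j + 1) (by omega)
    have e3 := hδ j hj
    unfold Diag at e3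
    rw [if_neg (by omega)]
  -- a step down
  obtain ⟨i, him, hi⟩ : ∃ i < m, U (γ (i + 1)).1 (γ (i + 1)).2 < U (γ i).1 (γ i).2 := by
    by_contra hcon
    push Not at hcon
    have hmono : ∀ i ≤ m, 1 ≤ U (γ i).1 (γ i).2 := by
      intro i
      induction i with
      | zero => intro _; rw [hstart]
      | succ i ih =>
        intro hi
        exact le_trans (ih (by omega)) (hcon i (by omega))
    have := hmono m le_rfl
    rw [hend] at this
    omega
  have hcell : ∀ u v : ℤ × ℤ, ∀ u' v' : ℤ × ℤ, min u.1 v.1 = min u'.1 v'.1 →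
      min u.2 v.2 = min u'.2 v'.2 → cell u v = cell u' v' := by
    intro u v u' v' h1 h2
    unfold cell
    rw [h1, h2]
  have hD := hγ i him
  have hpar := hγe i (by omega)
  have hpar' := hγe (i + 1) (by omega)
  have hr1 := hγr i (by omega)
  have hr2 := hγr (i + 1) (by omega)
  refine ⟨i, him, ?_⟩
  unfold Diag at hD
  obtain ⟨hD1, hD2⟩ := hD
  have neg : ∀ (h g ε : ℤ), (ε = 1 ∨ ε = -1) → ∑ j ∈ Finset.range n, -ε *
        ((if (δ j).1 = h ∧ (δ j).2 = g + ε ∧ (δ (j + 1)).1 = h + 1 ∧ (δ (j + 1)).2 = g then (1 : ℤ)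
          else 0) -
        (if (δ j).1 = h + 1 ∧ (δ j).2 = g ∧ (δ (j + 1)).1 = h ∧ (δ (j + 1)).2 = g + ε then 1
          else 0)) < 0 → ∃ j < n,
        if ε = 1 then ((δ j).1 = h ∧ (δ j).2 = g + ε ∧ (δ (j + 1)).1 = h + 1 ∧ (δ (j + 1)).2 = g)
        else ((δ j).1 = h + 1 ∧ (δ j).2 = g ∧ (δ (j + 1)).1 = h ∧ (δ (j + 1)).2 = g + ε) := by
    intro h g ε hε hneg
    by_contra hcon
    push Not at hcon
    refine absurd hneg (not_lt.2 (Finset.sum_nonneg fun j hj => ?_))
    have h1 := hcon j (Finset.mem_range.1 hj)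
    rcases hε with rfl | rfl
    · rw [if_pos rfl] at h1
      rw [if_neg h1]
      split_ifs <;> omega
    · rw [if_neg (by norm_num)] at h1
      rw [if_neg h1]
      split_ifs <;> omega
  have pos : ∀ (h g ε : ℤ), (ε = 1 ∨ ε = -1) → 0 < ∑ j ∈ Finset.range n, -ε *
        ((if (δ j).1 = h ∧ (δ j).2 = g + ε ∧ (δ (j + 1)).1 = h + 1 ∧ (δ (j + 1)).2 = g then (1 : ℤ)
          else 0) -
        (if (δ j).1 = h + 1 ∧ (δ j).2 = g ∧ (δ (j + 1)).1 = h ∧ (δ (j + 1)).2 = g + ε then 1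
          else 0)) → ∃ j < n,
        if ε = 1 then
          ((δ j).1 = h + 1 ∧ (δ j).2 = g ∧ (δ (j + 1)).1 = h ∧ (δ (j + 1)).2 = g + ε)
        else ((δ j).1 = h ∧ (δ j).2 = g + ε ∧ (δ (j + 1)).1 = h + 1 ∧ (δ (j + 1)).2 = g) := by
    intro h g ε hε hneg
    by_contra hcon
    push Not at hcon
    refine absurd hneg (not_lt.2 (Finset.sum_nonpos fun j hj => ?_))
    have h1 := hcon j (Finset.mem_range.1 hj)
    rcases hε with rfl | rfl
    · rw [if_pos rfl] at h1
      rw [if_neg h1]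
      split_ifs <;> omega
    · rw [if_neg (by norm_num)] at h1
      rw [if_neg h1]
      split_ifs <;> omega
  rcases hD1 with hD1 | hD1 <;> rcases hD2 with hD2 | hD2
  · -- up right
    have hk := key (γ i).1 (γ i).2 1 (Or.inl rfl) hpar (by omega) (by omega)
    rw [← hD1, ← hD2] at hk
    have h2 := neg (γ i).1 (γ i).2 1 (Or.inl rfl) (by
      rw [← hD1, ← hD2, ← hk]; omega)
    obtain ⟨j, hj, h3⟩ := h2
    rw [if_pos rfl] at h3
    refine ⟨j, hj, hcell _ _ _ _ ?_ ?_, ?_, ?_⟩ <;> omega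
  · -- up left
    have hk := key (γ i).1 (γ i).2 (-1) (Or.inr rfl) hpar (by omega) (by omega)
    have hD2' : (γ (i + 1)).2 = (γ i).2 + -1 := by omega
    rw [← hD1, ← hD2'] at hk
    have h2 := neg (γ i).1 (γ i).2 (-1) (Or.inr rfl) (by
      rw [← hD1, ← hD2', ← hk]; omega)
    obtain ⟨j, hj, h3⟩ := h2
    rw [if_neg (by norm_num)] at h3
    refine ⟨j, hj, hcell _ _ _ _ ?_ ?_, ?_, ?_⟩ <;> omega
  · -- down right
    have hk := key (γ (i + 1)).1 (γ (i + 1)).2 (-1) (Or.inr rfl) hpar' (by omega) (by omega)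
    have hD1' : (γ (i + 1)).1 + 1 = (γ i).1 := by omega
    have hD2' : (γ (i + 1)).2 + -1 = (γ i).2 := by omega
    have h2 := pos (γ (i + 1)).1 (γ (i + 1)).2 (-1) (Or.inr rfl) (by
      rw [← hk, hD1', hD2']; omega)
    obtain ⟨j, hj, h3⟩ := h2
    rw [if_neg (by norm_num)] at h3
    refine ⟨j, hj, hcell _ _ _ _ ?_ ?_, ?_, ?_⟩ <;> omega
  · -- down left
    have hk := key (γ (i + 1)).1 (γ (i + 1)).2 1 (Or.inl rfl) hpar' (by omega) (by omega)
    have hD1' : (γ (i + 1)).1 + 1 = (γ i).1 := by omega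
    have hD2' : (γ (i + 1)).2 + 1 = (γ i).2 := by omega
    have h2 := pos (γ (i + 1)).1 (γ (i + 1)).2 1 (Or.inl rfl) (by
      rw [← hk, hD1', hD2']; omega)
    obtain ⟨j, hj, h3⟩ := h2
    rw [if_pos rfl] at h3
    refine ⟨j, hj, hcell _ _ _ _ ?_ ?_, ?_, ?_⟩ <;> omega

end Pool.Agent.Helper95.DG
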