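import Pool.Agent.Helper95.DG.Link

set_option autoImplicit false

/-!
# DG-17: gluing (deterministic)

`r` is a relation with diagonal steps; `T m` is the rectangle `[h m, h (m+2)] × [0, w m]`, `w` nondecreasing,
`h 0 = h 1 = 0`, `h (m+1) < h (m+2)`. Assume for all `m`: `T m` has an upward crossing (class 0), and
`[h (m+1), h (m+2)] × [0, w (m+1)]` has left-right and right-left crossings. Then for all `m` some point of
level `h (m+2)` is joined (in the whole plane) to a point of level `0` with `0 ≤ g ≤ w 0`.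
Induction with the statement S m: there are a start point `u` (class 0, `u.1 = 0`, `0 ≤ u.2 ≤ w 0`), a point `x`
with `x.1 = h (m+1)`, `Conn r univ u x`, and a point `y` with `y.1 = h (m+2)`,
`Conn r (Rect (h (m+1)) (h (m+2)) 0 (w m)) x y`.
m = 0: the upward crossing of `T 0` (`h 1 = h 0 = 0`), `x = u`.
Step: let `f` be the walk from `x` to `y` (in `Rect (h (m+1)) (h (m+2)) 0 (w (m+1))` because `w m ≤ w (m+1)`; class 0 by
`cls_conn`), `γ` an upward crossing of `T (m+1)` (from level `h (m+1)` to `h (m+3)`), cut at its first hit of level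
`h (m+2)` (`exists_first`): `g`. `link` gives `f i → g j`. Then `g j` is reached from `u`; continue along `γ` from the
index `j` on to level `h (m+3)`; take the last visit `x'` of level `h (m+2)` after (or at) `j` (`exists_last` for
the shifted walk; `(g j).1 ≤ h (m+2)`); the rest lies in `Rect (h (m+2)) (h (m+3)) 0 (w (m+1))`.
-/

namespace Pool.Agent.Helper95.DG

theorem chain (r : ℤ × ℤ → ℤ × ℤ → Prop) (hr : ∀ u v, r u v → Diag u v) (h w : ℕ → ℤ)
    (h0 : h 0 = 0) (h1 : h 1 = 0) (hh : ∀ m, h (m + 1) < h (m + 2)) (hw0 : 0 < w 0)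
    (hw : ∀ m, w m ≤ w (m + 1))
    (hup : ∀ m, UP r 0 (h m) (h (m + 2)) 0 (w m))
    (hlr : ∀ m, LR r 0 (h (m + 1)) (h (m + 2)) 0 (w (m + 1)))
    (hrl : ∀ m, RL r 0 (h (m + 1)) (h (m + 2)) 0 (w (m + 1))) (m : ℕ) :
    ∃ u y : ℤ × ℤ, Cls 0 u ∧ u.1 = 0 ∧ 0 ≤ u.2 ∧ u.2 ≤ w 0 ∧ y.1 = h (m + 2) ∧
      Conn r Set.univ u y := by
  have hwpos : ∀ m, 0 < w m := by
    intro m
    induction m with
    | zero => exact hw0
    | succ m ih => exact lt_of_lt_of_le ih (hw m)
  have huniv : ∀ (R : Set (ℤ × ℤ)) (u v : ℤ × ℤ), Conn r R u v → Conn r Set.univ u v :=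
    fun R u v h => conn_mono r r R Set.univ u v (fun _ _ _ _ h => h) (Set.subset_univ _) h
  have key : ∀ m, ∃ u x y : ℤ × ℤ, Cls 0 u ∧ u.1 = 0 ∧ 0 ≤ u.2 ∧ u.2 ≤ w 0 ∧ x.1 = h (m + 1) ∧
      Conn r Set.univ u x ∧ y.1 = h (m + 2) ∧ Conn r (Rect (h (m + 1)) (h (m + 2)) 0 (w m)) x y := by
    intro m
    induction m with
    | zero =>
      obtain ⟨u, v, hu, hu1, hv1, hc⟩ := hup 0
      have hmem : u ∈ Rect (h 0) (h (0 + 2)) 0 (w 0) := by
        obtain ⟨n, f, hf, hf0, -⟩ := hc
        rw [← hf0]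
        exact hf.1 0 (Nat.zero_le _)
      obtain ⟨-, -, h3, h4⟩ := hmem
      refine ⟨u, u, v, hu, by rw [hu1, h0], h3, h4, ?_, conn_refl r _ u (Set.mem_univ u), hv1, ?_⟩
      · rw [hu1, h0, zero_add, h1]
      · have e : h (0 + 1) = h 0 := by rw [zero_add, h1, h0]
        rw [e]
        exact hc
    | succ m ih =>
      obtain ⟨u, x, y, hu, hu1, hu2, hu3, hx1, hux, hy1, n, f, hf, hf0, hfn⟩ := ih
      obtain ⟨u', v', hu', hu1', hv1', N, g, hg, hg0, hgN⟩ := hup (m + 1)
      have hab : h (m + 1) < h (m + 2) := hh m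
      have hbc : h (m + 2) < h (m + 3) := hh (m + 1)
      have hdiag : ∀ i < N, (g (i + 1)).1 ≤ (g i).1 + 1 := by
        intro i hi
        have h2 := hr _ _ (hg.2 i hi)
        obtain ⟨h3 | h3, -⟩ := h2
        · rw [h3]
        · rw [h3]
          omega
      have hg01 : (g 0).1 = h (m + 1) := by rw [hg0, hu1']
      have hgN1 : (g N).1 = h (m + 3) := by rw [hgN, hv1']
      obtain ⟨M, hMN, hM1, hM2⟩ := exists_first (fun i => (g i).1) N (h (m + 2)) hdiag
        (by rw [hg01]; exact hab.le) (by rw [hgN1]; exact hbc.le)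
      have hgM : IsWalk r (Rect (h (m + 1)) (h (m + 2)) 0 (w (m + 1))) M g := by
        refine ⟨fun i hi => ?_, fun i hi => hg.2 i (by omega)⟩
        obtain ⟨h2, -, h4, h5⟩ := hg.1 i (by omega)
        refine ⟨h2, ?_, h4, h5⟩
        rcases Nat.eq_or_lt_of_le hi with h6 | h6
        · rw [h6, hM1]
        · exact (hM2 i h6).le
      have hfW : IsWalk r (Rect (h (m + 1)) (h (m + 2)) 0 (w (m + 1))) n f := by
        refine ⟨fun i hi => ?_, hf.2⟩
        obtain ⟨h2, h3, h4, h5⟩ := hf.1 i hi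
        exact ⟨h2, h3, h4, h5.trans (hw m)⟩
      have hfk : Cls 0 (f 0) := by
        rw [hf0]
        exact (cls_conn 0 r hr Set.univ u x hux).1 hu
      obtain ⟨i, hi, j, hj, hij⟩ := link r hr 0 (h (m + 1)) (h (m + 2)) 0 (w (m + 1)) hab
        (hwpos (m + 1)) n M f g hfW (by rw [hf0, hx1]) (by rw [hfn, hy1]) hfk hgM hg01 hM1
        (by rw [hg0]; exact hu') (hlr m) (hrl m)
      have hfi : Conn r Set.univ (f 0) (f i) :=
        conn_of_walk r _ Set.univ n f hfW 0 i (Nat.zero_le _) hi fun _ _ _ => Set.mem_univ _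
      have hugj : Conn r Set.univ u (g j) := by
        refine conn_trans r _ u (f 0) (g j) (by rw [hf0]; exact hux) ?_
        exact conn_trans r _ (f 0) (f i) (g j) hfi (huniv _ _ _ hij)
      have hjb : (g j).1 ≤ h (m + 2) := by
        rcases Nat.eq_or_lt_of_le hj with h6 | h6
        · rw [h6, hM1]
        · exact (hM2 j h6).le
      obtain ⟨K, hK1, hK2, hK3⟩ := exists_last (fun i => (g (j + i)).1) (N - j) (h (m + 2))
        (fun i hi => hdiag (j + i) (by omega)) hjb (by
          rw [show j + (N - j) = N by omega, hgN1]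
          exact hbc.le)
      have hxx : Conn r Set.univ (g j) (g (j + K)) :=
        conn_of_walk r _ Set.univ N g hg j (j + K) (by omega) (by omega) fun _ _ _ => Set.mem_univ _
      refine ⟨u, g (j + K), g N, hu, hu1, hu2, hu3, hK2,
        conn_trans r _ u (g j) _ hugj hxx, hgN1, ?_⟩
      refine conn_of_walk r _ _ N g hg (j + K) N (by omega) le_rfl fun i hi1 hi2 => ?_
      obtain ⟨-, h3, h4, h5⟩ := hg.1 i hi2
      refine ⟨?_, h3, h4, h5⟩
      rcases Nat.eq_or_lt_of_le hi1 with h6 | h6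
      · rw [← h6]
        exact hK2.ge
      · have h7 := hK3 (i - j) (by omega) (by omega)
        rw [show j + (i - j) = i by omega] at h7
        exact h7.le
  obtain ⟨u, x, y, hu, hu1, hu2, hu3, -, hux, hy, hxy⟩ := key m
  exact ⟨u, y, hu, hu1, hu2, hu3, hy, conn_trans r _ u x y hux (huniv _ _ _ hxy)⟩

end Pool.Agent.Helper95.DG
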