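import Pool.Agent.Helper95.DG.Walk

set_option autoImplicit false

/-!
# DG-04: one of the two crossings exists

Suppose there is no primal left-right crossing. Let `A` be the set of points of class `k` of the rectangle
which are reachable (`Conn (PS o) (Rect a b c d)`) from a point of class `k` with `g = c`; it contains the
left side and not the right side. Let `α : ℤ × ℤ → ℤ` be `1` if `z.2 ≤ c`, else `0` if `d ≤ z.2`, else the
indicator of `A` (classical).
For a dual step `x → y` (`Diag x y`, class `k + 1`) let `fl x y = α (left) - α (right)`, where (in the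
`(g, h)` plane, `h` up) left and right are the two other corners of the cell:
up-right `x → (h+1, g+1)`: left `(h+1, g)`, right `(h, g+1)`;
up-left `x → (h+1, g-1)`: left `(h, g-1)`, right `(h+1, g)`;
down-left `x → (h-1, g-1)`: left `(h-1, g)`, right `(h, g-1)`;
down-right `x → (h-1, g+1)`: left `(h, g+1)`, right `(h-1, g)`.
(1) `fl y x = - fl x y`, and the sum of `fl x y` over the four neighbours `y` of `x` is `0` (identity).
(2) If `x, y` are in the rectangle and `fl x y = 1` then `DS o x y`: the left corner `l` is in `A` and the right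
corner `r` is not in `A`, both are of class `k` and in the rectangle; so `¬ PS o l r` (else `r ∈ A`; this is
also right on the sides: `α l = 1`, `α r = 0`), i.e. the cell is oriented from `r` to `l`, and this is
`DS o x y` (check the four cases).
(3) If `x` is in the rectangle and `y` is not, with `a ≤ y.1 ≤ b` (so `y.2 < c` or `d < y.2`), then
`fl x y = 0` (both corners have the same `α`).
(4) Suppose the dual upward crossing does not exist, and let `B` be the (finite) set of points of class
`k + 1` of the rectangle reachable by `DS o` in the rectangle from a point of class `k+1` with `h = a`; `B`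
contains all these bottom points and no point with `h = b`. Sum (1) over `x ∈ B` and all four
neighbours: pairs inside `B` cancel; for `x ∈ B`, `y ∉ B` in the rectangle `fl x y ≤ 0` by (2) (values are
in `{-1, 0, 1}`); lateral exits vanish by (3); exits through `h = b` do not occur; the exits through the
bottom `x = (a, g) → (a-1, g±1)` contribute
`∑ (fl x (a-1, g-1) + fl x (a-1, g+1)) = ∑ (α (a, g+1) - α (a, g-1))` over the `g ∈ [c, d]` with `(a, g)` of
class `k + 1`, which telescopes to `0 - 1 = -1` (the first of the points `(a, g - 1)` has `g - 1 ≤ c`, the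
last `(a, g + 1)` has `d ≤ g + 1`). The total is `0`, so `0 ≤ 0 - 1 + (nonpositive)`: contradiction.
(`B` is not empty because `c < d`.)
-/

namespace Pool.Agent.Helper95.DG

/-- the discrete Green identity for two functions on a rectangle which live on different classes -/
theorem green (N M : ℕ) (e : ℤ) (al be : ℕ → ℕ → ℤ)
    (hal0 : ∀ s : ℕ, s ≤ N → (e + s) % 2 = 0 → al s 0 = 1) (halM : ∀ s ≤ N, al s M = 0)
    (halP : ∀ s t : ℕ, (e + s + t) % 2 ≠ 0 → al s t = 0)
    (hbe0 : ∀ t : ℕ, t ≤ M → (e + t) % 2 ≠ 0 → be 0 t = 1) (hbeN : ∀ t ≤ M, be N t = 0)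
    (hbeP : ∀ s t : ℕ, (e + s + t) % 2 = 0 → be s t = 0)
    (hC : ∀ s < N, ∀ t < M, (be s t - be (s + 1) (t + 1)) * (al (s + 1) t - al s (t + 1)) +
      (be s (t + 1) - be (s + 1) t) * (al s t - al (s + 1) (t + 1)) ≤ 0) : False := by
  obtain ⟨V, hV⟩ : ∃ V : ℕ → ℕ → ℤ, ∀ s t, V s t = be s t * al (s + 1) t - be (s + 1) t * al s t :=
    ⟨_, fun _ _ => rfl⟩
  obtain ⟨W, hW⟩ : ∃ W : ℕ → ℕ → ℤ, ∀ s t, W s t = be s (t + 1) * al s t - be s t * al s (t + 1) :=
    ⟨_, fun _ _ => rfl⟩
  have h1 : ∑ s ∈ Finset.range N, ∑ t ∈ Finset.range M,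
      ((V s t - V s (t + 1)) + (W s t - W (s + 1) t)) ≤ 0 := by
    refine Finset.sum_nonpos fun s hs => Finset.sum_nonpos fun t ht => ?_
    have h := hC s (Finset.mem_range.1 hs) t (Finset.mem_range.1 ht)
    rw [hV, hV, hW, hW]
    refine le_trans (le_of_eq ?_) h
    ring
  have h2 : ∑ s ∈ Finset.range N, ∑ t ∈ Finset.range M,
      ((V s t - V s (t + 1)) + (W s t - W (s + 1) t)) =
      ∑ s ∈ Finset.range N, (V s 0 - V s M) + ∑ t ∈ Finset.range M, (W 0 t - W N t) := by
    simp only [Finset.sum_add_distrib]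
    congr 1
    · refine Finset.sum_congr rfl fun s _ => ?_
      exact Finset.sum_range_sub' (fun t => V s t) M
    · rw [Finset.sum_comm]
      refine Finset.sum_congr rfl fun t _ => ?_
      exact Finset.sum_range_sub' (fun s => W s t) N
  have h3 : ∑ s ∈ Finset.range N, (V s 0 - V s M) = be 0 0 - be N 0 := by
    rw [← Finset.sum_range_sub' (fun s => be s 0) N]
    refine Finset.sum_congr rfl fun s hs => ?_
    have hs' := Finset.mem_range.1 hs
    rw [hV, hV, halM s hs'.le, halM (s + 1) hs', mul_zero, mul_zero, sub_zero, sub_zero]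
    by_cases hp : (e + s) % 2 = 0
    · rw [hal0 s hs'.le hp, halP (s + 1) 0 (by push_cast; omega), hbeP s 0 (by push_cast; omega)]
      ring
    · rw [halP s 0 (by push_cast; omega), hal0 (s + 1) hs' (by push_cast; omega),
        hbeP (s + 1) 0 (by push_cast; omega)]
      ring
  have h4 : ∑ t ∈ Finset.range M, (W 0 t - W N t) = al 0 0 - al 0 M := by
    rw [← Finset.sum_range_sub' (fun t => al 0 t) M]
    refine Finset.sum_congr rfl fun t ht => ?_
    have ht' := Finset.mem_range.1 ht
    rw [hW, hW, hbeN t ht'.le, hbeN (t + 1) ht', zero_mul, zero_mul, sub_zero, sub_zero]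
    by_cases hp : (e + t) % 2 = 0
    · rw [hbeP 0 t (by push_cast; omega), hbe0 (t + 1) ht' (by push_cast; omega),
        halP 0 (t + 1) (by push_cast; omega)]
      ring
    · rw [halP 0 t (by push_cast; omega), hbe0 t ht'.le (by push_cast; omega),
        hbeP 0 (t + 1) (by push_cast; omega)]
      ring
  rw [h2, h3, h4, hbeN 0 (Nat.zero_le _), halM 0 (Nat.zero_le _)] at h1
  by_cases hp : e % 2 = 0
  · rw [hal0 0 (Nat.zero_le _) (by push_cast; omega), hbeP 0 0 (by push_cast; omega)] at h1
    omega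
  · rw [halP 0 0 (by push_cast; omega), hbe0 0 (Nat.zero_le _) (by push_cast; omega)] at h1
    omega

theorem one_of (o : ℤ × ℤ → Bool) (k a b c d : ℤ) (hab : a < b) (hcd : c < d) :
    LR (PS o) k a b c d ∨ UP (DS o) (k + 1) a b c d := by
  classical
  by_contra hcon
  push Not at hcon
  obtain ⟨hL, hU⟩ := hcon
  set R := Rect a b c d with hR
  obtain ⟨N, hN⟩ : ∃ N : ℕ, b = a + N := ⟨(b - a).toNat, by omega⟩
  obtain ⟨M, hM⟩ : ∃ M : ℕ, d = c + M := ⟨(d - c).toNat, by omega⟩
  let A : Set (ℤ × ℤ) := {z | Cls k z ∧ ∃ u, Cls k u ∧ u.2 = c ∧ Conn (PS o) R u z}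
  let Bs : Set (ℤ × ℤ) := {z | Cls (k + 1) z ∧ ∃ u, Cls (k + 1) u ∧ u.1 = a ∧ Conn (DS o) R u z}
  have hmem : ∀ s ≤ N, ∀ t ≤ M, ((a + s, c + t) : ℤ × ℤ) ∈ R := by
    intro s hs t ht
    refine ⟨?_, ?_, ?_, ?_⟩ <;> simp only <;> omega
  have hAcl : ∀ l r : ℤ × ℤ, l ∈ R → r ∈ R → PS o l r → l ∈ A → r ∈ A := by
    rintro l r hl hr hs ⟨h1, u, hu, huc, hc⟩
    exact ⟨(cls_step k l r hs.1).1 h1, u, hu, huc, conn_trans _ _ _ _ _ hc
      (conn_step _ _ _ _ hl hr hs)⟩
  have hBcl : ∀ l r : ℤ × ℤ, l ∈ R → r ∈ R → DS o l r → l ∈ Bs → r ∈ Bs := by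
    rintro l r hl hr hs ⟨h1, u, hu, huc, hc⟩
    exact ⟨(cls_step (k + 1) l r hs.1).1 h1, u, hu, huc, conn_trans _ _ _ _ _ hc
      (conn_step _ _ _ _ hl hr hs)⟩
  have hAle : ∀ l r : ℤ × ℤ, l ∈ R → r ∈ R → PS o l r →
      (if l ∈ A then (1 : ℤ) else 0) ≤ if r ∈ A then 1 else 0 := by
    intro l r hl hr hs
    by_cases h : l ∈ A
    · rw [if_pos h, if_pos (hAcl l r hl hr hs h)]
    · rw [if_neg h]
      split_ifs <;> norm_num
  have hBle : ∀ l r : ℤ × ℤ, l ∈ R → r ∈ R → DS o l r →
      (if l ∈ Bs then (1 : ℤ) else 0) ≤ if r ∈ Bs then 1 else 0 := by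
    intro l r hl hr hs
    by_cases h : l ∈ Bs
    · rw [if_pos h, if_pos (hBcl l r hl hr hs h)]
    · rw [if_neg h]
      split_ifs <;> norm_num
  refine green N M (a + c + k) (fun s t => if ((a + s, c + t) : ℤ × ℤ) ∈ A then 1 else 0)
    (fun s t => if ((a + s, c + t) : ℤ × ℤ) ∈ Bs then 1 else 0) ?_ ?_ ?_ ?_ ?_ ?_ ?_
  · intro s hs hp
    refine if_pos ⟨?_, _, ?_, ?_, conn_refl _ _ _ (hmem s hs 0 (Nat.zero_le _))⟩
    · unfold Cls
      rw [Int.even_iff]
      push_cast
      omega
    · unfold Cls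
      rw [Int.even_iff]
      push_cast
      omega
    · push_cast
      omega
  · intro s hs
    refine if_neg ?_
    rintro ⟨h1, u, hu, huc, hc⟩
    exact hL ⟨u, _, hu, huc, by rw [hM], hc⟩
  · intro s t hp
    refine if_neg ?_
    rintro ⟨h1, -⟩
    unfold Cls at h1
    rw [Int.even_iff] at h1
    simp only at h1
    omega
  · intro t ht hp
    refine if_pos ⟨?_, _, ?_, ?_, conn_refl _ _ _ (hmem 0 (Nat.zero_le _) t ht)⟩
    · unfold Cls
      rw [Int.even_iff]
      push_cast
      omega
    · unfold Cls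
      rw [Int.even_iff]
      push_cast
      omega
    · push_cast
      omega
  · intro t ht
    refine if_neg ?_
    rintro ⟨h1, u, hu, huc, hc⟩
    exact hU ⟨u, _, hu, huc, by rw [hN], hc⟩
  · intro s t hp
    refine if_neg ?_
    rintro ⟨h1, -⟩
    unfold Cls at h1
    rw [Int.even_iff] at h1
    simp only at h1
    omega
  · intro s hs t ht
    have m00 := hmem s hs.le t ht.le
    have m10 := hmem (s + 1) hs t ht.le
    have m01 := hmem s hs.le (t + 1) ht
    have m11 := hmem (s + 1) hs (t + 1) ht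
    have c1 : cell (a + s, c + t) (a + (s + 1 : ℕ), c + (t + 1 : ℕ)) = (a + s, c + t) := by
      unfold cell
      push_cast
      ext <;> simp only <;> omega
    have c2 : cell (a + (s + 1 : ℕ), c + (t + 1 : ℕ)) (a + s, c + t) = (a + s, c + t) := by
      unfold cell
      push_cast
      ext <;> simp only <;> omega
    have c3 : cell (a + (s + 1 : ℕ), c + t) (a + s, c + (t + 1 : ℕ)) = (a + s, c + t) := by
      unfold cell
      push_cast
      ext <;> simp only <;> omega
    have c4 : cell (a + s, c + (t + 1 : ℕ)) (a + (s + 1 : ℕ), c + t) = (a + s, c + t) := by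
      unfold cell
      push_cast
      ext <;> simp only <;> omega
    have d1 : Diag (a + s, c + t) (a + (s + 1 : ℕ), c + (t + 1 : ℕ)) := by
      unfold Diag
      push_cast
      omega
    have d2 : Diag (a + (s + 1 : ℕ), c + (t + 1 : ℕ)) (a + s, c + t) := by
      unfold Diag
      push_cast
      omega
    have d3 : Diag (a + (s + 1 : ℕ), c + t) (a + s, c + (t + 1 : ℕ)) := by
      unfold Diag
      push_cast
      omega
    have d4 : Diag (a + s, c + (t + 1 : ℕ)) (a + (s + 1 : ℕ), c + t) := by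
      unfold Diag
      push_cast
      omega
    by_cases ho : o (a + s, c + t) = true
    · have a1 := hAle _ _ m00 m11 ⟨d1, by
        rw [c1]; push_cast; simp only [ho, true_iff]; omega⟩
      have a2 := hAle _ _ m01 m10 ⟨d4, by
        rw [c4]; push_cast; simp only [ho, true_iff]; omega⟩
      have b1 := hBle _ _ m00 m11 ⟨d1, by
        rw [c1]; push_cast; simp only [ho, true_iff]; omega⟩
      have b2 := hBle _ _ m10 m01 ⟨d3, by
        rw [c3]; push_cast; simp only [ho, true_iff]; omega⟩
      exact add_nonpos (mul_nonpos_of_nonpos_of_nonneg (by linarith) (by linarith))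
        (mul_nonpos_of_nonneg_of_nonpos (by linarith) (by linarith))
    · have a1 := hAle _ _ m11 m00 ⟨d2, by
        rw [c2]; push_cast; exact ⟨fun h => absurd h ho, fun h => by omega⟩⟩
      have a2 := hAle _ _ m10 m01 ⟨d3, by
        rw [c3]; push_cast; exact ⟨fun h => absurd h ho, fun h => by omega⟩⟩
      have b1 := hBle _ _ m11 m00 ⟨d2, by
        rw [c2]; push_cast; exact ⟨fun h => absurd h ho, fun h => by omega⟩⟩
      have b2 := hBle _ _ m01 m10 ⟨d4, by
        rw [c4]; push_cast; exact ⟨fun h => absurd h ho, fun h => by omega⟩⟩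
      exact add_nonpos (mul_nonpos_of_nonneg_of_nonpos (by linarith) (by linarith))
        (mul_nonpos_of_nonpos_of_nonneg (by linarith) (by linarith))

end Pool.Agent.Helper95.DG
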