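import Pool.Agent.Helper95.DG.NotBoth
import Pool.Agent.Helper95.DG.OneOf

set_option autoImplicit false

/-!
# DG-05: the four forms of planar duality

`lr_iff` is `not_both` and `one_of`.
`dn_iff`: let `o' c = xor (o c) (decide (Even (c.1 + c.2 + k)))`. For points `u, v` of class `k + 1`:
`PS o' u v ↔ DS o u v`; for points `u, v` of class `k`: `DS o' u v ↔ PS o v u`. (In the cell `c` the points
of class `k` are `(c.1, c.2)`, `(c.1+1, c.2+1)` if `Even (c.1 + c.2 + k)`, and `(c.1+1, c.2)`,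
`(c.1, c.2+1)` otherwise; check the cases.) Apply `lr_iff` to `o'` and the class `k + 1`:
`LR (PS o') (k+1) ↔ ¬ UP (DS o') (k+2)`, and `Cls (k+2) = Cls k`; the left side is `LR (DS o) (k+1)`, and
`UP (DS o') k` is `DN (PS o) k` with reversed walks (`conn_reverse`).
`up_iff`, `rl_iff`: apply `dn_iff`, `lr_iff` to `fun c => !(o c)`: `PS (!o) u v ↔ PS o v u` and
`DS (!o) u v ↔ DS o v u`, so all crossings are reversed.
-/

namespace Pool.Agent.Helper95.DG

theorem conn_imp_cls (k : ℤ) (r r' : ℤ × ℤ → ℤ × ℤ → Prop) (hr : ∀ u v, r u v → Diag u v)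
    (h : ∀ x y, Cls k x → r x y → r' x y) (R : Set (ℤ × ℤ)) (u v : ℤ × ℤ) (hu : Cls k u)
    (hc : Conn r R u v) : Conn r' R u v := by
  obtain ⟨n, f, hf, h0, hn⟩ := hc
  have hk := cls_walk k r hr R n f hf (by rw [h0]; exact hu)
  exact ⟨n, f, ⟨hf.1, fun i hi => h _ _ (hk i hi.le) (hf.2 i hi)⟩, h0, hn⟩

theorem cls_add_two (k : ℤ) (u : ℤ × ℤ) : Cls (k + 1 + 1) u ↔ Cls k u := by
  unfold Cls
  rw [Int.even_iff, Int.even_iff]
  omega

/-- The relabelled configuration. -/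
def tw (o : ℤ × ℤ → Bool) (k : ℤ) (c : ℤ × ℤ) : Bool :=
  xor (o c) (decide (Even (c.1 + c.2 + k)))

theorem tw_even (o : ℤ × ℤ → Bool) (k : ℤ) (c : ℤ × ℤ) (h : Even (c.1 + c.2 + k)) :
    tw o k c = !(o c) := by
  simp [tw, h]

theorem tw_odd (o : ℤ × ℤ → Bool) (k : ℤ) (c : ℤ × ℤ) (h : ¬ Even (c.1 + c.2 + k)) :
    tw o k c = o c := by
  simp [tw, h]

theorem ps_tw (o : ℤ × ℤ → Bool) (k : ℤ) (u v : ℤ × ℤ) (hu : Cls (k + 1) u) :
    PS (tw o k) u v ↔ DS o u v := by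
  unfold PS DS
  refine and_congr_right (fun hd => ?_)
  unfold Cls at hu
  rw [Int.even_iff] at hu
  have key : (tw o k (cell u v) = o (cell u v) ∧ (v.1 = u.1 + 1 ↔ v.2 = u.2 + 1)) ∨
      (tw o k (cell u v) = !(o (cell u v)) ∧ (v.1 = u.1 + 1 ↔ ¬ v.2 = u.2 + 1)) := by
    obtain ⟨h1, h2⟩ := hd
    rcases h1 with h1 | h1 <;> rcases h2 with h2 | h2
    · refine Or.inl ⟨tw_odd _ _ _ ?_, by omega⟩
      rw [Int.even_iff]; simp only [cell]; omega
    · refine Or.inr ⟨tw_even _ _ _ ?_, by omega⟩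
      rw [Int.even_iff]; simp only [cell]; omega
    · refine Or.inr ⟨tw_even _ _ _ ?_, by omega⟩
      rw [Int.even_iff]; simp only [cell]; omega
    · refine Or.inl ⟨tw_odd _ _ _ ?_, by omega⟩
      rw [Int.even_iff]; simp only [cell]; omega
  rcases key with ⟨h1, h2⟩ | ⟨h1, h2⟩
  · rw [h1, h2]
  · rw [h1, h2]
    cases o (cell u v) <;> simp

theorem ds_tw (o : ℤ × ℤ → Bool) (k : ℤ) (u v : ℤ × ℤ) (hu : Cls k u) :
    DS (tw o k) u v ↔ PS o v u := by
  unfold PS DS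
  have hdd : Diag u v ↔ Diag v u := by
    unfold Diag
    constructor <;> rintro ⟨h1, h2⟩ <;> constructor <;> omega
  rw [← hdd]
  refine and_congr_right (fun hd => ?_)
  have hce : cell v u = cell u v := by
    simp only [cell, min_comm]
  rw [hce]
  unfold Cls at hu
  rw [Int.even_iff] at hu
  have key : (tw o k (cell u v) = o (cell u v) ∧ (v.2 = u.2 + 1 ↔ u.1 = v.1 + 1)) ∨
      (tw o k (cell u v) = !(o (cell u v)) ∧ (v.2 = u.2 + 1 ↔ ¬ u.1 = v.1 + 1)) := by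
    obtain ⟨h1, h2⟩ := hd
    rcases h1 with h1 | h1 <;> rcases h2 with h2 | h2
    · refine Or.inr ⟨tw_even _ _ _ ?_, by omega⟩
      rw [Int.even_iff]; simp only [cell]; omega
    · refine Or.inl ⟨tw_odd _ _ _ ?_, by omega⟩
      rw [Int.even_iff]; simp only [cell]; omega
    · refine Or.inl ⟨tw_odd _ _ _ ?_, by omega⟩
      rw [Int.even_iff]; simp only [cell]; omega
    · refine Or.inr ⟨tw_even _ _ _ ?_, by omega⟩
      rw [Int.even_iff]; simp only [cell]; omega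
  rcases key with ⟨h1, h2⟩ | ⟨h1, h2⟩
  · rw [h1, h2]
  · rw [h1, h2]
    cases o (cell u v) <;> simp

theorem ps_not (o : ℤ × ℤ → Bool) (u v : ℤ × ℤ) : PS (fun c => !(o c)) u v ↔ PS o v u := by
  unfold PS
  have hdd : Diag u v ↔ Diag v u := by
    unfold Diag
    constructor <;> rintro ⟨h1, h2⟩ <;> constructor <;> omega
  rw [← hdd]
  refine and_congr_right (fun hd => ?_)
  have hce : cell v u = cell u v := by
    simp only [cell, min_comm]
  rw [hce]
  have h2 : (u.1 = v.1 + 1 ↔ ¬ v.1 = u.1 + 1) := by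
    obtain ⟨h1, h2⟩ := hd
    rcases h1 with h1 | h1 <;> omega
  rw [h2]
  cases hh : o (cell u v) <;> simp [hh]

theorem ds_not (o : ℤ × ℤ → Bool) (u v : ℤ × ℤ) : DS (fun c => !(o c)) u v ↔ DS o v u := by
  unfold DS
  have hdd : Diag u v ↔ Diag v u := by
    unfold Diag
    constructor <;> rintro ⟨h1, h2⟩ <;> constructor <;> omega
  rw [← hdd]
  refine and_congr_right (fun hd => ?_)
  have hce : cell v u = cell u v := by
    simp only [cell, min_comm]
  rw [hce]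
  have h2 : (u.2 = v.2 + 1 ↔ ¬ v.2 = u.2 + 1) := by
    obtain ⟨h1, h2⟩ := hd
    rcases h2 with h2 | h2 <;> omega
  rw [h2]
  cases hh : o (cell u v) <;> simp [hh]

theorem lr_iff (o : ℤ × ℤ → Bool) (k a b c d : ℤ) (hab : a < b) (hcd : c < d) :
    LR (PS o) k a b c d ↔ ¬ UP (DS o) (k + 1) a b c d := by
  constructor
  · intro h1 h2
    exact not_both o k a b c d hab hcd ⟨h1, h2⟩
  · intro h
    exact (one_of o k a b c d hab hcd).resolve_right h

theorem diag_symm (u v : ℤ × ℤ) (h : Diag u v) : Diag v u := by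
  unfold Diag at *
  obtain ⟨h1, h2⟩ := h
  constructor <;> omega

theorem dn_iff (o : ℤ × ℤ → Bool) (k a b c d : ℤ) (hab : a < b) (hcd : c < d) :
    DN (PS o) k a b c d ↔ ¬ LR (DS o) (k + 1) a b c d := by
  have h1 := lr_iff (tw o k) (k + 1) a b c d hab hcd
  have h2 : LR (PS (tw o k)) (k + 1) a b c d ↔ LR (DS o) (k + 1) a b c d := by
    constructor
    · rintro ⟨u, v, hu, hc, hd, hw⟩
      exact ⟨u, v, hu, hc, hd, conn_imp_cls (k + 1) _ _ (diag_of_ps _)
        (fun x y hx h => (ps_tw o k x y hx).1 h) _ u v hu hw⟩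
    · rintro ⟨u, v, hu, hc, hd, hw⟩
      exact ⟨u, v, hu, hc, hd, conn_imp_cls (k + 1) _ _ (diag_of_ds _)
        (fun x y hx h => (ps_tw o k x y hx).2 h) _ u v hu hw⟩
  have h3 : UP (DS (tw o k)) (k + 1 + 1) a b c d ↔ DN (PS o) k a b c d := by
    constructor
    · rintro ⟨u, v, hu, hc, hd, hw⟩
      rw [cls_add_two] at hu
      have hv : Cls k v := (cls_conn k _ (diag_of_ds _) _ u v hw).1 hu
      refine ⟨v, u, hv, hd, hc, ?_⟩
      exact conn_reverse _ _ u v (conn_imp_cls k _ (fun x y => PS o y x) (diag_of_ds _)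
        (fun x y hx h => (ds_tw o k x y hx).1 h) _ u v hu hw)
    · rintro ⟨u, v, hu, hc, hd, hw⟩
      have hv : Cls k v := (cls_conn k _ (diag_of_ps _) _ u v hw).1 hu
      refine ⟨v, u, ?_, hd, hc, ?_⟩
      · rw [cls_add_two]; exact hv
      · exact conn_imp_cls k (fun x y => PS o y x) _
          (fun x y h => diag_symm _ _ (diag_of_ps _ _ _ h))
          (fun x y hx h => (ds_tw o k x y hx).2 h) _ v u hv (conn_reverse _ _ u v hw)
  rw [h2, h3] at h1
  tauto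

theorem conn_ps_not (o : ℤ × ℤ → Bool) (R : Set (ℤ × ℤ)) (u v : ℤ × ℤ) :
    Conn (PS (fun c => !(o c))) R u v ↔ Conn (PS o) R v u := by
  constructor
  · intro h
    exact conn_mono _ _ _ _ _ _ (fun x y _ _ h => (ps_not o y x).1 h) le_rfl
      (conn_reverse _ _ _ _ h)
  · intro h
    exact conn_mono _ _ _ _ _ _ (fun x y _ _ h => (ps_not o x y).2 h) le_rfl
      (conn_reverse _ _ _ _ h)

theorem conn_ds_not (o : ℤ × ℤ → Bool) (R : Set (ℤ × ℤ)) (u v : ℤ × ℤ) :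
    Conn (DS (fun c => !(o c))) R u v ↔ Conn (DS o) R v u := by
  constructor
  · intro h
    exact conn_mono _ _ _ _ _ _ (fun x y _ _ h => (ds_not o y x).1 h) le_rfl
      (conn_reverse _ _ _ _ h)
  · intro h
    exact conn_mono _ _ _ _ _ _ (fun x y _ _ h => (ds_not o x y).2 h) le_rfl
      (conn_reverse _ _ _ _ h)

theorem up_iff (o : ℤ × ℤ → Bool) (k a b c d : ℤ) (hab : a < b) (hcd : c < d) :
    UP (PS o) k a b c d ↔ ¬ RL (DS o) (k + 1) a b c d := by
  have h1 := dn_iff (fun c => !(o c)) k a b c d hab hcd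
  have h2 : DN (PS (fun c => !(o c))) k a b c d ↔ UP (PS o) k a b c d := by
    constructor
    · rintro ⟨u, v, hu, hc, hd, hw⟩
      exact ⟨v, u, (cls_conn k _ (diag_of_ps _) _ u v hw).1 hu, hd, hc, (conn_ps_not o _ u v).1 hw⟩
    · rintro ⟨u, v, hu, hc, hd, hw⟩
      exact ⟨v, u, (cls_conn k _ (diag_of_ps _) _ u v hw).1 hu, hd, hc, (conn_ps_not o _ v u).2 hw⟩
  have h3 : LR (DS (fun c => !(o c))) (k + 1) a b c d ↔ RL (DS o) (k + 1) a b c d := by
    constructor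
    · rintro ⟨u, v, hu, hc, hd, hw⟩
      exact ⟨v, u, (cls_conn (k + 1) _ (diag_of_ds _) _ u v hw).1 hu, hd, hc,
        (conn_ds_not o _ u v).1 hw⟩
    · rintro ⟨u, v, hu, hc, hd, hw⟩
      exact ⟨v, u, (cls_conn (k + 1) _ (diag_of_ds _) _ u v hw).1 hu, hd, hc,
        (conn_ds_not o _ v u).2 hw⟩
  rw [h2, h3] at h1
  exact h1

theorem rl_iff (o : ℤ × ℤ → Bool) (k a b c d : ℤ) (hab : a < b) (hcd : c < d) :
    RL (PS o) k a b c d ↔ ¬ DN (DS o) (k + 1) a b c d := by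
  have h1 := lr_iff (fun c => !(o c)) k a b c d hab hcd
  have h2 : LR (PS (fun c => !(o c))) k a b c d ↔ RL (PS o) k a b c d := by
    constructor
    · rintro ⟨u, v, hu, hc, hd, hw⟩
      exact ⟨v, u, (cls_conn k _ (diag_of_ps _) _ u v hw).1 hu, hd, hc, (conn_ps_not o _ u v).1 hw⟩
    · rintro ⟨u, v, hu, hc, hd, hw⟩
      exact ⟨v, u, (cls_conn k _ (diag_of_ps _) _ u v hw).1 hu, hd, hc, (conn_ps_not o _ v u).2 hw⟩
  have h3 : UP (DS (fun c => !(o c))) (k + 1) a b c d ↔ DN (DS o) (k + 1) a b c d := by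
    constructor
    · rintro ⟨u, v, hu, hc, hd, hw⟩
      exact ⟨v, u, (cls_conn (k + 1) _ (diag_of_ds _) _ u v hw).1 hu, hd, hc,
        (conn_ds_not o _ u v).1 hw⟩
    · rintro ⟨u, v, hu, hc, hd, hw⟩
      exact ⟨v, u, (cls_conn (k + 1) _ (diag_of_ds _) _ u v hw).1 hu, hd, hc,
        (conn_ds_not o _ v u).2 hw⟩
  rw [h2, h3] at h1
  exact h1

end Pool.Agent.Helper95.DG
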