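import Pool.Agent.Helper95.DG.Win
import Pool.Agent.Helper95.DG.Dual

set_option autoImplicit false

/-!
# DG-16: upward crossings of tubes

`w ≥ 2` even, `h0 < h1`, `h1 - h0 + 1 ≤ j (2w+1)`. By `up_iff` the event is
`RL (DS ω) (k+1) h0 h1 0 w`. Transposition (`PS_transp`, `conn_map`): with `ω' c = ω (c.2, c.1)` it is
`DN`-like: some point `(w, x)` of class `k + 1`, `h0 ≤ x ≤ h1`, is joined by `PS ω'` to a point `(0, y)` inside
`Rect 0 w h0 h1 ⊆ Strip (w - w) w`. By `Pr_comp` (with `Equiv.prodComm`) and `interval_le` with `t = w`, `x = h0`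
the probability is at most `j * bq w`.
-/

namespace Pool.Agent.Helper95.DG

open MeasureTheory
open scoped ENNReal NNReal

theorem no_up (p : ℝ≥0) (hp : p ≤ 1) (w : ℤ) (hw : 2 ≤ w) (hwe : Even w) (k h0 h1 : ℤ)
    (h01 : h0 < h1) (j : ℕ) (hj : h1 - h0 + 1 ≤ j * (2 * w + 1)) :
    Pr p hp {ω | ¬ UP (PS ω) k h0 h1 0 w} ≤ j * bq p hp w := by
  have hmeas : MeasurableSet {ω : ℤ × ℤ → Bool | ∃ u v : ℤ × ℤ, (Cls (k + 1) u ∧ u.1 = w ∧
      h0 ≤ u.2 ∧ u.2 < h0 + j * (2 * w + 1) ∧ v.1 = w - w) ∧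
      Conn (PS ω) (Strip (w - w) w) u v} :=
    meas_exists_PS (Strip (w - w) w) (fun u v => Cls (k + 1) u ∧ u.1 = w ∧
      h0 ≤ u.2 ∧ u.2 < h0 + j * (2 * w + 1) ∧ v.1 = w - w)
  have h2 := interval_le p hp w (by omega) hwe (k + 1) w h0 j
  rw [← Pr_comp p hp (Equiv.prodComm ℤ ℤ) hmeas] at h2
  refine le_trans (Pr_mono p hp ?_) h2
  intro ω hω
  have h3 : RL (DS ω) (k + 1) h0 h1 0 w := by
    by_contra hcon
    exact hω ((up_iff ω k h0 h1 0 w h01 (by omega)).2 hcon)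
  obtain ⟨u, v, hu, huw, hv, hconn⟩ := h3
  have hur : u ∈ Rect h0 h1 0 w := by
    obtain ⟨n, f, hf, hf0, hfn⟩ := hconn
    rw [← hf0]
    exact hf.1 0 (Nat.zero_le n)
  have h4 := conn_map (DS ω) (PS (fun c => ω (c.2, c.1))) (Rect h0 h1 0 w) (Strip (w - w) w)
    (fun z => (z.2, z.1)) (fun x y hxy => (PS_transp ω (x.2, x.1) (y.2, y.1)).2 hxy)
    (fun x hx => by
      obtain ⟨h5, h6, h7, h8⟩ := hx
      constructor
      · show w - w ≤ x.2
        omega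
      · show x.2 ≤ w
        exact h8) u v hconn
  obtain ⟨h5, h6, h7, h8⟩ := hur
  refine ⟨(u.2, u.1), (v.2, v.1), ⟨?_, huw, h5, ?_, ?_⟩, h4⟩
  · unfold Cls at hu ⊢
    have h9 : u.2 + u.1 + (k + 1) = u.1 + u.2 + (k + 1) := by ring
    show Even (u.2 + u.1 + (k + 1))
    rw [h9]
    exact hu
  · show u.1 < h0 + j * (2 * w + 1)
    linarith
  · show v.2 = w - w
    rw [hv]
    ring

end Pool.Agent.Helper95.DG
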