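import Pool.Agent.Helper95.DG.Geo
import Pool.Agent.Helper95.DG.Tube
import Pool.Agent.Helper95.DG.Chain

set_option autoImplicit false

/-!
# DG-18: the finite size criterion

Let `bq a ≤ (1/2)^9` for an even `a ≥ 2`. Put `w m = 2^m a`, `o m = (m + 6) (w (m+1) + 1)`, `h 0 = h 1 = 0`,
`h (m+2) = h (m+1) + o m`. For every `m` the upward crossing (class 0) of `[h m, h (m+2)] × [0, w m]` fails
with probability at most `(2m + 13) (1/2)^(m+9)`: `no_up` with `j = 2m + 13`, because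
`h (m+2) - h m + 1 ≤ (m+5)(w m + 1) + (m+6)(2 w m + 1) + 1 = (3m+17) w m + 2m + 12 ≤ (2m+13)(2 w m + 1)`
(`h (m+1) - h m = o (m-1) = (m+5)(w m + 1)` for `m ≥ 1` and `0` for `m = 0`), and `bq_geo`.
The left-right and the right-left crossing of `[h (m+1), h (m+2)] × [0, w (m+1)]` fail with probability at
most `(1/2)^(m+6)` each (`no_lr`, `no_rl` with `G = w (m+1)`, `j = m + 6`).
The sum of all failure probabilities is smaller than 1, so with positive
probability `chain` applies for all `m`: for every `m` some `u` in the finite set `{(0, g) : 0 ≤ g ≤ a}` is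
joined to level `h (m+2)`, and `h (m+2) ≥ m + 1`: one of the finitely many clusters is infinite.
-/

namespace Pool.Agent.Helper95.DG

open MeasureTheory
open scoped ENNReal NNReal

/-- widths -/
def wd (a : ℤ) (m : ℕ) : ℤ := 2 ^ m * a

/-- overlaps -/
def ov (a : ℤ) (m : ℕ) : ℤ := (m + 6) * (wd a (m + 1) + 1)

/-- heights -/
def hts (a : ℤ) : ℕ → ℤ
  | 0 => 0
  | 1 => 0
  | (m + 2) => hts a (m + 1) + ov a m

theorem wd_succ (a : ℤ) (m : ℕ) : wd a (m + 1) = 2 * wd a m := by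
  unfold wd; ring

theorem wd_ge (a : ℤ) (ha : 2 ≤ a) (m : ℕ) : 2 ≤ wd a m := by
  induction m with
  | zero => simpa [wd] using ha
  | succ m ih => rw [wd_succ]; omega

theorem wd_even (a : ℤ) (hae : Even a) (m : ℕ) : Even (wd a m) := by
  unfold wd; exact hae.mul_left _

theorem ov_ge (a : ℤ) (ha : 2 ≤ a) (m : ℕ) : 1 ≤ ov a m := by
  unfold ov
  have h := wd_ge a ha (m + 1)
  have hm : (0 : ℤ) ≤ m := Int.natCast_nonneg m
  nlinarith

theorem hts_succ (a : ℤ) (m : ℕ) : hts a (m + 2) = hts a (m + 1) + ov a m := rfl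

theorem hts_ge (a : ℤ) (ha : 2 ≤ a) (m : ℕ) : (m : ℤ) + 1 ≤ hts a (m + 2) := by
  induction m with
  | zero =>
    rw [hts_succ]
    have := ov_ge a ha 0
    simp only [hts]
    push_cast
    omega
  | succ m ih =>
    have e : hts a (m + 1 + 2) = hts a (m + 2) + ov a (m + 1) := rfl
    rw [e]
    have := ov_ge a ha (m + 1)
    push_cast
    omega

theorem hts_bound (a : ℤ) (ha : 2 ≤ a) (m : ℕ) :
    hts a (m + 2) - hts a m + 1 ≤ ((2 * m + 13 : ℕ) : ℤ) * (2 * wd a m + 1) := by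
  have h1 : hts a (m + 1) - hts a m ≤ (m + 5) * (wd a m + 1) := by
    cases m with
    | zero =>
      have := wd_ge a ha 0
      simp only [hts]
      push_cast
      omega
    | succ m =>
      rw [hts_succ]
      unfold ov
      push_cast
      have := wd_ge a ha (m + 1)
      nlinarith
  have h2 := wd_ge a ha m
  have hm : (0 : ℤ) ≤ m := Int.natCast_nonneg m
  rw [hts_succ]
  unfold ov
  rw [wd_succ]
  push_cast
  nlinarith [mul_nonneg hm (by omega : (0 : ℤ) ≤ wd a m)]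

/-- Measurability of the infinite cluster event. -/
theorem meas_inf (z : ℤ × ℤ) :
    MeasurableSet {ω : ℤ × ℤ → Bool | {v : ℤ × ℤ | Conn (PS ω) Set.univ z v}.Infinite} := by
  have : {ω : ℤ × ℤ → Bool | {v : ℤ × ℤ | Conn (PS ω) Set.univ z v}.Infinite} =
      ⋂ s : Finset (ℤ × ℤ), ⋃ v : ℤ × ℤ, {ω | v ∉ s ∧ Conn (PS ω) Set.univ z v} := by
    ext ω
    simp only [Set.mem_ofPred_eq, Set.mem_iInter, Set.mem_iUnion]
    constructor
    · intro h s
      obtain ⟨v, hv, hvs⟩ := h.exists_notMem_finset s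
      exact ⟨v, hvs, hv⟩
    · intro h hfin
      obtain ⟨v, hvs, hv⟩ := h hfin.toFinset
      apply hvs
      simpa using hv
  rw [this]
  refine MeasurableSet.iInter fun s => MeasurableSet.iUnion fun v => ?_
  by_cases hv : v ∈ s
  · have : {ω : ℤ × ℤ → Bool | v ∉ s ∧ Conn (PS ω) Set.univ z v} = ∅ := by
      ext ω; simp [hv]
    rw [this]; exact MeasurableSet.empty
  · have : {ω : ℤ × ℤ → Bool | v ∉ s ∧ Conn (PS ω) Set.univ z v} =
        {ω | Conn (PS ω) Set.univ z v} := by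
      ext ω; simp [hv]
    rw [this]; exact meas_conn_PS _ _ _

theorem inf_shift (p : ℝ≥0) (hp : p ≤ 1) (z : ℤ × ℤ) :
    Pr p hp {ω | {v : ℤ × ℤ | Conn (PS ω) Set.univ z v}.Infinite} =
      Pr p hp {ω | {v : ℤ × ℤ | Conn (PS ω) Set.univ (0, 0) v}.Infinite} := by
  rw [← Pr_comp p hp (Equiv.addRight z) (meas_inf (0, 0))]
  congr 1
  ext ω
  simp only [Set.mem_ofPred_eq, Equiv.coe_addRight]
  have key : {v : ℤ × ℤ | Conn (PS ω) Set.univ z v} =
      (fun v => v + z) '' {v : ℤ × ℤ | Conn (PS (fun c => ω (c + z))) Set.univ (0, 0) v} := by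
    ext v
    simp only [Set.mem_ofPred_eq, Set.mem_image]
    constructor
    · intro h
      refine ⟨v - z, ?_, by simp⟩
      have := conn_map (PS ω) (PS (fun c => ω (c + z))) Set.univ Set.univ (fun x => x - z)
        (fun x y hxy => (PS_shift ω z (x - z) (y - z)).2 (by simpa using hxy))
        (fun x _ => Set.mem_univ _) z v h
      simp only [sub_self] at this
      exact this
    · rintro ⟨w, hw, rfl⟩
      have := conn_map (PS (fun c => ω (c + z))) (PS ω) Set.univ Set.univ (fun x => x + z)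
        (fun x y hxy => (PS_shift ω z x y).1 hxy) (fun x _ => Set.mem_univ _) (0, 0) w hw
      have e : ((0, 0) : ℤ × ℤ) + z = z := zero_add z
      simp only [e] at this
      exact this
  rw [key, Set.infinite_image_iff (add_left_injective z).injOn]

theorem fsc (p : ℝ≥0) (hp : p ≤ 1) (a : ℤ) (ha : 2 ≤ a) (hae : Even a)
    (h : bq p hp a ≤ (1 / 2) ^ 9) :
    0 < Pr p hp {ω | {v : ℤ × ℤ | Conn (PS ω) Set.univ (0, 0) v}.Infinite} := by
  by_contra hcon
  have hz : Pr p hp {ω | {v : ℤ × ℤ | Conn (PS ω) Set.univ (0, 0) v}.Infinite} = 0 :=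
    le_antisymm (not_lt.1 hcon) (Pr_nonneg p hp _)
  have := isProb_mu p hp
  set B : ℕ → Set (ℤ × ℤ → Bool) := fun m =>
    {ω | ¬ UP (PS ω) 0 (hts a m) (hts a (m + 2)) 0 (wd a m)} ∪
    ({ω | ¬ LR (PS ω) 0 (hts a (m + 1)) (hts a (m + 2)) 0 (wd a (m + 1))} ∪
    {ω | ¬ RL (PS ω) 0 (hts a (m + 1)) (hts a (m + 2)) 0 (wd a (m + 1))}) with hB
  have hlt : ∀ m, hts a (m + 1) < hts a (m + 2) := fun m => by
    rw [hts_succ]; have := ov_ge a ha m; omega
  have hle : ∀ m, hts a m ≤ hts a (m + 1) := fun m => by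
    cases m with
    | zero => simp [hts]
    | succ m => exact (hlt m).le
  have hBm : ∀ m, Pr p hp (B m) ≤ 29 / 512 * (3 / 4) ^ m := by
    intro m
    have h1 : Pr p hp {ω | ¬ UP (PS ω) 0 (hts a m) (hts a (m + 2)) 0 (wd a m)} ≤
        ((2 * m + 13 : ℕ) : ℝ) * (1 / 2) ^ (m + 9) := by
      refine (no_up p hp (wd a m) (wd_ge a ha m) (wd_even a hae m) 0 (hts a m) (hts a (m + 2))
        ((hle m).trans_lt (hlt m)) (2 * m + 13) (hts_bound a ha m)).trans ?_
      exact mul_le_mul_of_nonneg_left (bq_geo p hp a ha hae h m) (Nat.cast_nonneg _)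
    have e1 : hts a (m + 2) = hts a (m + 1) + ((m + 6 : ℕ) : ℤ) * (wd a (m + 1) + 1) := by
      rw [hts_succ]; unfold ov; push_cast; ring
    have hw1 : 1 ≤ wd a (m + 1) := by have := wd_ge a ha (m + 1); omega
    have h2 : Pr p hp {ω | ¬ LR (PS ω) 0 (hts a (m + 1)) (hts a (m + 2)) 0 (wd a (m + 1))} ≤
        (1 / 2) ^ (m + 6) := by
      have := no_lr p hp 0 (hts a (m + 1)) 0 (wd a (m + 1)) hw1 (m + 6)
      rw [zero_add, ← e1] at this
      exact this
    have h3 : Pr p hp {ω | ¬ RL (PS ω) 0 (hts a (m + 1)) (hts a (m + 2)) 0 (wd a (m + 1))} ≤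
        (1 / 2) ^ (m + 6) := by
      have := no_rl p hp 0 (hts a (m + 1)) 0 (wd a (m + 1)) hw1 (m + 6)
      rw [zero_add, ← e1] at this
      exact this
    have h4 : Pr p hp (B m) ≤ ((2 * m + 13 : ℕ) : ℝ) * (1 / 2) ^ (m + 9) +
        ((1 / 2) ^ (m + 6) + (1 / 2) ^ (m + 6)) := by
      refine (Pr_union_le p hp _ _).trans (add_le_add h1 ?_)
      exact (Pr_union_le p hp _ _).trans (add_le_add h2 h3)
    refine h4.trans ?_
    have h5 : (1 : ℝ) + m * (1 / 2) ≤ (1 + 1 / 2) ^ m :=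
      one_add_mul_le_pow (by norm_num) m
    have h6 : ((1 : ℝ) / 2) ^ (m + 9) = (1 / 2) ^ m * (1 / 512) := by
      rw [pow_add]; norm_num
    have h7 : ((1 : ℝ) / 2) ^ (m + 6) = (1 / 2) ^ m * (1 / 64) := by
      rw [pow_add]; norm_num
    have h8 : ((3 : ℝ) / 4) ^ m = (1 / 2) ^ m * (1 + 1 / 2) ^ m := by
      rw [← mul_pow]; norm_num
    rw [h6, h7, h8]
    have h9 : (0 : ℝ) < (1 / 2) ^ m := by positivity
    have h10 : ((2 * m + 13 : ℕ) : ℝ) / 512 + 1 / 32 ≤ 29 / 512 * (1 + 1 / 2) ^ m := by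
      push_cast
      have hm : (0 : ℝ) ≤ m := Nat.cast_nonneg m
      nlinarith
    calc ((2 * m + 13 : ℕ) : ℝ) * ((1 / 2) ^ m * (1 / 512)) +
          ((1 / 2) ^ m * (1 / 64) + (1 / 2) ^ m * (1 / 64))
        = (1 / 2) ^ m * (((2 * m + 13 : ℕ) : ℝ) / 512 + 1 / 32) := by ring
      _ ≤ (1 / 2) ^ m * (29 / 512 * (1 + 1 / 2) ^ m) := mul_le_mul_of_nonneg_left h10 h9.le
      _ = _ := by ring
  -- the union of the bad events
  have hmuB : ∀ m, mu p hp (B m) ≤ ENNReal.ofReal (29 / 512 * (3 / 4) ^ m) := by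
    intro m
    have := hBm m
    unfold Pr at this
    rw [measureReal_def] at this
    rw [← ENNReal.ofReal_toReal (measure_ne_top (mu p hp) (B m))]
    exact ENNReal.ofReal_le_ofReal this
  have hsum : Summable (fun m : ℕ => (29 : ℝ) / 512 * (3 / 4) ^ m) :=
    (summable_geometric_of_lt_one (by norm_num) (by norm_num)).mul_left _
  have hU : mu p hp (⋃ m, B m) ≤ ENNReal.ofReal (29 / 128) := by
    refine (measure_iUnion_le _).trans ((ENNReal.tsum_le_tsum hmuB).trans ?_)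
    rw [← ENNReal.ofReal_tsum_of_nonneg (fun m => by positivity) hsum, tsum_mul_left,
      tsum_geometric_of_lt_one (by norm_num) (by norm_num)]
    norm_num
  -- the good event is contained in a null set
  have hG : (⋃ m, B m)ᶜ ⊆ ⋃ g ∈ Finset.Icc (0 : ℤ) a,
      {ω | {v : ℤ × ℤ | Conn (PS ω) Set.univ (0, g) v}.Infinite} := by
    intro ω hω
    simp only [Set.mem_compl_iff, Set.mem_iUnion, not_exists] at hω
    have hω' : ∀ m, UP (PS ω) 0 (hts a m) (hts a (m + 2)) 0 (wd a m) ∧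
        LR (PS ω) 0 (hts a (m + 1)) (hts a (m + 2)) 0 (wd a (m + 1)) ∧
        RL (PS ω) 0 (hts a (m + 1)) (hts a (m + 2)) 0 (wd a (m + 1)) := by
      intro m
      have := hω m
      simp only [hB, Set.mem_union, Set.mem_ofPred_eq, not_or, not_not] at this
      exact this
    have hch := chain (PS ω) (fun u v => diag_of_ps ω u v) (hts a) (wd a) rfl rfl hlt
      (by have := wd_ge a ha 0; omega)
      (fun m => by rw [wd_succ]; have := wd_ge a ha m; omega)
      (fun m => (hω' m).1) (fun m => (hω' m).2.1) (fun m => (hω' m).2.2)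
    by_contra hno
    simp only [Set.mem_iUnion, Set.mem_ofPred_eq, not_exists, Set.not_infinite] at hno
    have hfin : (⋃ g ∈ Finset.Icc (0 : ℤ) a,
        {v : ℤ × ℤ | Conn (PS ω) Set.univ (0, g) v}).Finite :=
      Set.Finite.biUnion (Finset.finite_toSet _) (fun g hg => hno g hg)
    obtain ⟨M, hM⟩ := (hfin.image Prod.fst).bddAbove
    obtain ⟨u, y, -, hu1, hu2, hu3, hy, hc⟩ := hch M.toNat
    have hu : u = (0, u.2) := by rw [← hu1]
    have hmem : y.1 ∈ Prod.fst '' (⋃ g ∈ Finset.Icc (0 : ℤ) a,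
        {v : ℤ × ℤ | Conn (PS ω) Set.univ (0, g) v}) := by
      refine ⟨y, ?_, rfl⟩
      simp only [Set.mem_iUnion, Set.mem_ofPred_eq]
      refine ⟨u.2, ?_, ?_⟩
      · rw [Finset.mem_Icc]
        exact ⟨hu2, by simpa [wd] using hu3⟩
      · rw [hu] at hc; exact hc
    have h1 := hM hmem
    have h2 := hts_ge a ha M.toNat
    rw [hy] at h1
    have h3 : M ≤ (M.toNat : ℤ) := Int.self_le_toNat M
    omega
  have hG0 : mu p hp (⋃ m, B m)ᶜ = 0 := by
    refine measure_mono_null hG ?_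
    refine (measure_biUnion_null_iff (Finset.countable_toSet (Finset.Icc (0 : ℤ) a))).2 ?_
    intro g _
    have := (inf_shift p hp (0, g)).trans hz
    unfold Pr at this
    rwa [measureReal_def, ENNReal.toReal_eq_zero_iff, or_iff_left (measure_ne_top _ _)] at this
  have h1 : (1 : ℝ≥0∞) ≤ ENNReal.ofReal (29 / 128) := by
    calc (1 : ℝ≥0∞) = mu p hp Set.univ := measure_univ.symm
      _ ≤ mu p hp ((⋃ m, B m) ∪ (⋃ m, B m)ᶜ) := by rw [Set.union_compl_self]
      _ ≤ mu p hp (⋃ m, B m) + mu p hp (⋃ m, B m)ᶜ := measure_union_le _ _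
      _ ≤ ENNReal.ofReal (29 / 128) + 0 := add_le_add hU hG0.le
      _ = _ := add_zero _
  rw [ENNReal.one_le_ofReal] at h1
  norm_num at h1

end Pool.Agent.Helper95.DG
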