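import Pool.Agent.Helper95.DG.Inv
import Pool.Agent.Helper95.DG.MeasC
import Pool.Agent.Helper96.PK.Koenig

set_option autoImplicit false

/-!
# DG-21: transfer to the coordinates of the problem

`Arrow η x y` is the relation of the problem for `η : ℤ × ℤ × Bool → Bool`. The point `(x, y)` of the square
lattice corresponds to `(x + y, x - y)`. The edge `(x, y, false)` (from `(x, y)` to `(x+1, y)`) corresponds to the
step `(h, g) → (h+1, g+1)` with cell `(x + y, x - y)`, the edge `(x, y, true)` to `(h, g) → (h+1, g-1)` with cell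
`(x + y, x - y - 1)`. `τ` is the inverse bijection: a cell `(i, j)` with `i + j` even goes to
`((i+j)/2, (i-j)/2, false)`, with `i + j` odd to `((i+j+1)/2, (i-j-1)/2, true)`. With
`ω c = η (τ c)`: `Arrow η (x, y) (x', y') ↔ PS ω (x+y, x-y) (x'+y', x'-y')`, and every point of class 0 is of
this form.
`map_law`: the image of the law of `η` under `η ↦ η ∘ τ` is `mu p hp` (as in `Pr_comp`, for the equivalence
`τ`). With the flip (`fl = true`): `ω c = !(η (τ' c))` with `τ'` = `τ` after the rotation of the cells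
`c ↦ (-c.1-1, -c.2-1)`; then steps of `η` from `(x,y)` to `(x',y')` correspond to steps of `PS ω` between
`-(x+y, x-y)` and `-(x'+y', x'-y')` in the same direction (`PS_rot` and `PS_not`), and the law of `ω` is
`mu (1-p)`.
`infinite_iff`: an injective infinite path from `(0,0)` exists iff the cluster is infinite: (→) clear;
(←) `Pool.Agent.Helper96.PK.koenig`.
`transfer_inf`, `transfer_arm` put this together for both values of the flip.
-/

namespace Pool.Agent.Helper95.DG

open MeasureTheory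
open scoped ENNReal NNReal

/-- The relation of the problem. -/
def Arrow (η : ℤ × ℤ × Bool → Bool) (x y : ℤ × ℤ) : Prop :=
  (y = (x.1 + 1, x.2) ∧ η (x.1, x.2, false) = true) ∨
  (y = (x.1 - 1, x.2) ∧ η (x.1 - 1, x.2, false) = false) ∨
  (y = (x.1, x.2 + 1) ∧ η (x.1, x.2, true) = true) ∨
  (y = (x.1, x.2 - 1) ∧ η (x.1, x.2 - 1, true) = false)

/-- The law of the problem. -/
noncomputable def nu (p : ℝ≥0) (hp : p ≤ 1) : Measure (ℤ × ℤ × Bool → Bool) :=
  Measure.infinitePi (fun _ : ℤ × ℤ × Bool => (PMF.bernoulli p hp).toMeasure)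

/-- The edge of a cell. -/
private def tau (c : ℤ × ℤ) : ℤ × ℤ × Bool :=
  if (c.1 + c.2) % 2 = 0 then ((c.1 + c.2) / 2, (c.1 - c.2) / 2, false)
  else ((c.1 + c.2 + 1) / 2, (c.1 - c.2 - 1) / 2, true)

private lemma tau_inj : Function.Injective tau := by
  rintro ⟨a, b⟩ ⟨c, d⟩ h
  unfold tau at h
  simp only at h
  split_ifs at h with h1 h2 h2
  · simp only [Prod.mk.injEq, and_true] at h
    ext <;> simp only <;> omega
  · simp only [Prod.mk.injEq] at h
    exact absurd h.2.2 (by decide)
  · simp only [Prod.mk.injEq] at h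
    exact absurd h.2.2 (by decide)
  · simp only [Prod.mk.injEq, and_true] at h
    ext <;> simp only <;> omega

private lemma tau_even (x y : ℤ) : tau (x + y, x - y) = (x, y, false) := by
  unfold tau
  simp only
  rw [if_pos (by omega)]
  ext <;> simp only <;> omega

private lemma tau_odd (x y : ℤ) : tau (x + y, x - y - 1) = (x, y, true) := by
  unfold tau
  simp only
  rw [if_neg (by omega)]
  ext <;> simp only <;> omega

/-- The point of the rotated lattice. -/
private def TT (z : ℤ × ℤ) : ℤ × ℤ := (z.1 + z.2, z.1 - z.2)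

private lemma arrow_iff (η : ℤ × ℤ × Bool → Bool) (u v : ℤ × ℤ) :
    Arrow η u v ↔ PS (fun c => η (tau c)) (TT u) (TT v) := by
  obtain ⟨x, y⟩ := u
  obtain ⟨x', y'⟩ := v
  unfold Arrow PS Diag cell TT
  simp only [Prod.mk.injEq]
  constructor
  · rintro (⟨⟨h1, h2⟩, h3⟩ | ⟨⟨h1, h2⟩, h3⟩ | ⟨⟨h1, h2⟩, h3⟩ | ⟨⟨h1, h2⟩, h3⟩)
    · subst h1 h2
      refine ⟨⟨Or.inl (by ring), Or.inl (by ring)⟩, ?_⟩
      have e : (min (x + y') (x + 1 + y'), min (x - y') (x + 1 - y')) = (x + y', x - y') := by
        ext <;> simp only <;> omega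
      rw [e, tau_even, h3]
      simp only [true_iff]
      ring
    · subst h1 h2
      refine ⟨⟨Or.inr (by ring), Or.inr (by ring)⟩, ?_⟩
      have e : (min (x + y') (x - 1 + y'), min (x - y') (x - 1 - y')) =
          ((x - 1) + y', (x - 1) - y') := by
        ext <;> simp only <;> omega
      rw [e, tau_even, h3]
      simp only [Bool.false_eq_true, false_iff]
      omega
    · subst h1 h2
      refine ⟨⟨Or.inl (by ring), Or.inr (by ring)⟩, ?_⟩
      have e : (min (x' + y) (x' + (y + 1)), min (x' - y) (x' - (y + 1))) =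
          (x' + y, x' - y - 1) := by
        ext <;> simp only <;> omega
      rw [e, tau_odd, h3]
      simp only [true_iff]
      ring
    · subst h1 h2
      refine ⟨⟨Or.inr (by ring), Or.inl (by ring)⟩, ?_⟩
      have e : (min (x' + y) (x' + (y - 1)), min (x' - y) (x' - (y - 1))) =
          (x' + (y - 1), x' - (y - 1) - 1) := by
        ext <;> simp only <;> omega
      rw [e, tau_odd, h3]
      simp only [Bool.false_eq_true, false_iff]
      omega
  · rintro ⟨⟨h1 | h1, h2 | h2⟩, h3⟩
    · left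
      have hx : x' = x + 1 := by omega
      have hy : y' = y := by omega
      subst hx hy
      refine ⟨⟨rfl, rfl⟩, ?_⟩
      have e : (min (x + y') (x + 1 + y'), min (x - y') (x + 1 - y')) = (x + y', x - y') := by
        ext <;> simp only <;> omega
      rw [e, tau_even] at h3
      exact h3.mpr h1
    · right; right; left
      have hx : x' = x := by omega
      have hy : y' = y + 1 := by omega
      subst hx hy
      refine ⟨⟨rfl, rfl⟩, ?_⟩
      have e : (min (x' + y) (x' + (y + 1)), min (x' - y) (x' - (y + 1))) =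
          (x' + y, x' - y - 1) := by
        ext <;> simp only <;> omega
      rw [e, tau_odd] at h3
      exact h3.mpr h1
    · right; right; right
      have hx : x' = x := by omega
      have hy : y' = y - 1 := by omega
      subst hx hy
      refine ⟨⟨rfl, rfl⟩, ?_⟩
      have e : (min (x' + y) (x' + (y - 1)), min (x' - y) (x' - (y - 1))) =
          (x' + (y - 1), x' - (y - 1) - 1) := by
        ext <;> simp only <;> omega
      rw [e, tau_odd] at h3
      rw [← Bool.not_eq_true]
      intro h4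
      have := h3.mp h4
      omega
    · right; left
      have hx : x' = x - 1 := by omega
      have hy : y' = y := by omega
      subst hx hy
      refine ⟨⟨rfl, rfl⟩, ?_⟩
      have e : (min (x + y') (x - 1 + y'), min (x - y') (x - 1 - y')) =
          ((x - 1) + y', (x - 1) - y') := by
        ext <;> simp only <;> omega
      rw [e, tau_even] at h3
      rw [← Bool.not_eq_true]
      intro h4
      have := h3.mp h4
      omega

private lemma TT_inj : Function.Injective TT := by
  rintro ⟨a, b⟩ ⟨c, d⟩ h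
  unfold TT at h
  simp only [Prod.mk.injEq] at h
  ext <;> simp only <;> omega

/-- The inverse of `TT`. -/
private def TI (z : ℤ × ℤ) : ℤ × ℤ := ((z.1 + z.2) / 2, (z.1 - z.2) / 2)

private lemma TT_TI (z : ℤ × ℤ) (hz : (z.1 + z.2) % 2 = 0) : TT (TI z) = z := by
  obtain ⟨a, b⟩ := z
  unfold TT TI
  simp only at hz ⊢
  ext <;> simp only <;> omega

/-- Connections in the rotated lattice are the paths of the problem. -/
private lemma conn_iff (η : ℤ × ℤ × Bool → Bool) (v : ℤ × ℤ) :
    Conn (PS (fun c => η (tau c))) Set.univ (0, 0) v ↔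
      ∃ (m : ℕ) (f : ℕ → ℤ × ℤ), f 0 = (0, 0) ∧ TT (f m) = v ∧
        ∀ k < m, Arrow η (f k) (f (k + 1)) := by
  constructor
  · rintro ⟨m, g, ⟨_, hg⟩, h0, hm⟩
    have hpar : ∀ k ≤ m, ((g k).1 + (g k).2) % 2 = 0 := by
      intro k
      induction k with
      | zero =>
        intro _
        rw [h0]
        rfl
      | succ k ih =>
        intro hk
        have h1 := ih (by omega)
        have h2 := (hg k (by omega)).1
        unfold Diag at h2
        omega
    refine ⟨m, fun k => TI (g k), ?_, ?_, ?_⟩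
    · simp only [h0]
      rfl
    · simp only
      rw [TT_TI _ (hpar m le_rfl), hm]
    · intro k hk
      rw [arrow_iff]
      simp only
      rw [TT_TI _ (hpar k (by omega)), TT_TI _ (hpar (k + 1) (by omega))]
      exact hg k hk
  · rintro ⟨m, f, h0, hm, hf⟩
    refine ⟨m, fun k => TT (f k), ⟨fun i _ => Set.mem_univ _, ?_⟩, ?_, ?_⟩
    · intro i hi
      exact (arrow_iff η _ _).mp (hf i hi)
    · simp only [h0]
      rfl
    · exact hm

private lemma isProb_bern (p : ℝ≥0) (hp : p ≤ 1) :
    IsProbabilityMeasure ((PMF.bernoulli p hp).toMeasure) := inferInstance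

/-- The law of the cells. -/
private lemma map_law (p : ℝ≥0) (hp : p ≤ 1) :
    (nu p hp).map (fun η c => η (tau c)) = mu p hp := by
  unfold nu mu
  exact Measure.map_infinitePi_infinitePi_of_inj
    (P := fun _ : ℤ × ℤ × Bool => (PMF.bernoulli p hp).toMeasure) tau_inj

private lemma bern_not (p : ℝ≥0) (hp : p ≤ 1) :
    ((PMF.bernoulli p hp).toMeasure).map (fun b => !b) =
      (PMF.bernoulli (1 - p) tsub_le_self).toMeasure := by
  refine Measure.ext_of_singleton ?_
  intro b
  rw [Measure.map_apply (by fun_prop) (measurableSet_singleton b)]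
  have e : (fun b : Bool => !b) ⁻¹' {b} = {!b} := by
    ext x
    simp only [Set.mem_preimage, Set.mem_singleton_iff]
    cases x <;> cases b <;> decide
  rw [e, PMF.toMeasure_apply_singleton _ _ (measurableSet_singleton _),
    PMF.toMeasure_apply_singleton _ _ (measurableSet_singleton _), PMF.bernoulli_apply,
    PMF.bernoulli_apply]
  have h1 : ((1 - (1 - p) : ℝ≥0) : ℝ≥0) = p := tsub_tsub_cancel_of_le hp
  cases b
  · simp only [Bool.not_false, cond_true, cond_false, h1]
  · simp only [Bool.not_true, cond_true, cond_false]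

private lemma not_law (p : ℝ≥0) (hp : p ≤ 1) :
    (mu p hp).map (fun ω c => !(ω c)) = mu (1 - p) tsub_le_self := by
  unfold mu
  have h := Measure.infinitePi_map_pi
    (μ := fun _ : ℤ × ℤ => (PMF.bernoulli p hp).toMeasure) (f := fun _ (b : Bool) => !b)
    (fun _ => by fun_prop)
  rw [h]
  simp only [bern_not]

private def tauR (c : ℤ × ℤ) : ℤ × ℤ × Bool := tau (-c.1 - 1, -c.2 - 1)

private lemma tauR_inj : Function.Injective tauR := by
  intro a b h
  have h1 := tau_inj h
  simp only [Prod.mk.injEq] at h1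
  ext
  · omega
  · omega

private lemma map_lawR (p : ℝ≥0) (hp : p ≤ 1) :
    (nu p hp).map (fun η c => !(η (tauR c))) = mu (1 - p) tsub_le_self := by
  rw [← not_law p hp]
  have h : (nu p hp).map (fun η c => η (tauR c)) = mu p hp := by
    unfold nu mu
    exact Measure.map_infinitePi_infinitePi_of_inj
      (P := fun _ : ℤ × ℤ × Bool => (PMF.bernoulli p hp).toMeasure) tauR_inj
  rw [← h, Measure.map_map (by fun_prop) (by fun_prop)]
  rfl

private lemma flip_step (ω : ℤ × ℤ → Bool) (u w : ℤ × ℤ) :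
    PS (fun c => !(ω (-c.1 - 1, -c.2 - 1))) u w ↔ PS ω (-u) (-w) :=
  (PS_not (fun c => ω (-c.1 - 1, -c.2 - 1)) u w).trans (PS_rot ω w u)

private lemma flip_conn (ω : ℤ × ℤ → Bool) (v : ℤ × ℤ) :
    Conn (PS (fun c => !(ω (-c.1 - 1, -c.2 - 1)))) Set.univ (0, 0) v ↔
      Conn (PS ω) Set.univ (0, 0) (-v) := by
  have h0 : -((0, 0) : ℤ × ℤ) = (0, 0) := by
    ext <;> simp
  constructor
  · intro h
    have h1 := conn_map _ (PS ω) Set.univ Set.univ (fun z => -z)
      (fun x y hxy => (flip_step ω x y).mp hxy) (fun x _ => Set.mem_univ _) _ _ h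
    simp only [h0] at h1
    exact h1
  · intro h
    have h1 := conn_map _ (PS (fun c => !(ω (-c.1 - 1, -c.2 - 1)))) Set.univ Set.univ (fun z => -z)
      (fun x y hxy => (flip_step ω (-x) (-y)).mpr (by rw [neg_neg, neg_neg]; exact hxy))
      (fun x _ => Set.mem_univ _) _ _ h
    simp only [h0, neg_neg] at h1
    exact h1

private lemma arrow_fin (η : ℤ × ℤ × Bool → Bool) (x : ℤ × ℤ) : {y | Arrow η x y}.Finite := by
  refine (Set.toFinite ({(x.1 + 1, x.2), (x.1 - 1, x.2), (x.1, x.2 + 1), (x.1, x.2 - 1)} :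
    Set (ℤ × ℤ))).subset ?_
  rintro y (h | h | h | h)
  · exact Or.inl h.1
  · exact Or.inr (Or.inl h.1)
  · exact Or.inr (Or.inr (Or.inl h.1))
  · exact Or.inr (Or.inr (Or.inr h.1))

private lemma koenig_path (η : ℤ × ℤ × Bool → Bool)
    (h : {v : ℤ × ℤ | Conn (PS (fun c => η (tau c))) Set.univ (0, 0) v}.Infinite) :
    ∃ f : ℕ → ℤ × ℤ, f 0 = (0, 0) ∧ Function.Injective f ∧ ∀ n : ℕ, Arrow η (f n) (f (n + 1)) := by
  apply Pool.Agent.Helper96.PK.koenig (Arrow η) (arrow_fin η) (0, 0)
  intro hfin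
  apply h
  refine (hfin.image TT).subset ?_
  intro v hv
  obtain ⟨m, f, h0, hm, hf⟩ := (conn_iff η v).mp hv
  refine ⟨f m, ?_, hm⟩
  have hk : ∀ k ≤ m, Relation.ReflTransGen (Arrow η) (0, 0) (f k) := by
    intro k
    induction k with
    | zero =>
      intro _
      rw [h0]
    | succ k ih =>
      intro hk
      exact (ih (by omega)).tail (hf k (by omega))
  exact hk m le_rfl

private lemma meas_inf : MeasurableSet
    {ω : ℤ × ℤ → Bool | {v : ℤ × ℤ | Conn (PS ω) Set.univ (0, 0) v}.Infinite} := by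
  have e : {ω : ℤ × ℤ → Bool | {v : ℤ × ℤ | Conn (PS ω) Set.univ (0, 0) v}.Infinite} =
      ⋂ F : Finset (ℤ × ℤ), ⋃ v : ℤ × ℤ, ⋃ _ : v ∉ F,
        {ω : ℤ × ℤ → Bool | Conn (PS ω) Set.univ (0, 0) v} := by
    ext ω
    simp only [Set.mem_iInter, Set.mem_iUnion, exists_prop]
    constructor
    · intro h F
      obtain ⟨v, hv, hF⟩ := Set.Infinite.exists_notMem_finset h F
      exact ⟨v, hF, hv⟩
    · intro h hfin
      obtain ⟨v, hv, hc⟩ := h hfin.toFinset
      exact hv (hfin.mem_toFinset.mpr hc)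
  rw [e]
  exact MeasurableSet.iInter fun F => MeasurableSet.iUnion fun v => MeasurableSet.iUnion
    fun _ => meas_conn_PS _ _ _

private lemma meas_arm (n : ℤ) : MeasurableSet
    {ω : ℤ × ℤ → Bool | ∃ v : ℤ × ℤ, v.1 ≤ -n ∧ Conn (PS ω) Set.univ (0, 0) v} := by
  have e : {ω : ℤ × ℤ → Bool | ∃ v : ℤ × ℤ, v.1 ≤ -n ∧ Conn (PS ω) Set.univ (0, 0) v} =
      ⋃ v : ℤ × ℤ, ⋃ _ : v.1 ≤ -n, {ω : ℤ × ℤ → Bool | Conn (PS ω) Set.univ (0, 0) v} := by
    ext ω
    simp only [Set.mem_iUnion, exists_prop]
    rfl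
  rw [e]
  exact MeasurableSet.iUnion fun v => MeasurableSet.iUnion fun _ => meas_conn_PS _ _ _

/-- If almost surely there is no infinite self-avoiding path then almost surely the cluster is finite,
for `p` and for `1 - p`. -/
theorem transfer_inf (p : ℝ≥0) (hp : p ≤ 1)
    (h : nu p hp {η | ∃ f : ℕ → ℤ × ℤ, f 0 = (0, 0) ∧ Function.Injective f ∧
      ∀ n : ℕ, Arrow η (f n) (f (n + 1))} = 0) :
    Pr p hp {ω | {v : ℤ × ℤ | Conn (PS ω) Set.univ (0, 0) v}.Infinite} = 0 ∧
    Pr (1 - p) tsub_le_self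
      {ω | {v : ℤ × ℤ | Conn (PS ω) Set.univ (0, 0) v}.Infinite} = 0 := by
  constructor
  · unfold Pr Measure.real
    rw [← map_law p hp, Measure.map_apply (by fun_prop) meas_inf]
    have h1 := measure_mono_null (μ := nu p hp) (s := (fun (η : ℤ × ℤ × Bool → Bool) c => η (tau c)) ⁻¹'
      {ω | {v : ℤ × ℤ | Conn (PS ω) Set.univ (0, 0) v}.Infinite}) (fun η hη => koenig_path η hη) h
    rw [h1]
    rfl
  · unfold Pr Measure.real
    rw [← map_lawR p hp, Measure.map_apply (by fun_prop) meas_inf]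
    have h1 := measure_mono_null (μ := nu p hp) (s := (fun (η : ℤ × ℤ × Bool → Bool) c => !(η (tauR c))) ⁻¹'
      {ω | {v : ℤ × ℤ | Conn (PS ω) Set.univ (0, 0) v}.Infinite}) (fun η hη => by
        apply koenig_path η
        intro hfin
        have h2 : {v : ℤ × ℤ | Conn (PS (fun c => !(η (tauR c)))) Set.univ (0, 0) v}.Infinite := hη
        apply h2
        refine (hfin.image (fun z => -z)).subset ?_
        intro v hv
        refine ⟨-v, ?_, neg_neg v⟩
        exact (flip_conn (fun c => η (tau c)) v).mp hv) h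
    rw [h1]
    rfl

theorem transfer_arm (p : ℝ≥0) (hp : p ≤ 1) (n : ℤ) :
    arm p hp n = (nu p hp).real {η | ∃ (m : ℕ) (f : ℕ → ℤ × ℤ), f 0 = (0, 0) ∧
      (f m).1 + (f m).2 ≤ -n ∧ ∀ k < m, Arrow η (f k) (f (k + 1))} ∧
    arm (1 - p) tsub_le_self n = (nu p hp).real {η | ∃ (m : ℕ) (f : ℕ → ℤ × ℤ), f 0 = (0, 0) ∧
      n ≤ (f m).1 + (f m).2 ∧ ∀ k < m, Arrow η (f k) (f (k + 1))} := by
  constructor
  · unfold arm Pr
    rw [← map_law p hp, map_measureReal_apply (by fun_prop) (meas_arm n)]
    congr 1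
    ext η
    constructor
    · rintro ⟨v, hv, hc⟩
      obtain ⟨m, f, h0, hm, hf⟩ := (conn_iff η v).mp hc
      refine ⟨m, f, h0, ?_, hf⟩
      have h1 : (f m).1 + (f m).2 = v.1 := by rw [← hm]; rfl
      omega
    · rintro ⟨m, f, h0, hm, hf⟩
      exact ⟨TT (f m), hm, (conn_iff η _).mpr ⟨m, f, h0, rfl, hf⟩⟩
  · unfold arm Pr
    rw [← map_lawR p hp, map_measureReal_apply (by fun_prop) (meas_arm n)]
    congr 1
    ext η
    constructor
    · rintro ⟨v, hv, hc⟩
      have hc' := (flip_conn (fun c => η (tau c)) v).mp hc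
      obtain ⟨m, f, h0, hm, hf⟩ := (conn_iff η (-v)).mp hc'
      refine ⟨m, f, h0, ?_, hf⟩
      have h1 : (f m).1 + (f m).2 = -v.1 := by
        have h2 : (TT (f m)).1 = (-v).1 := by rw [hm]
        exact h2
      omega
    · rintro ⟨m, f, h0, hm, hf⟩
      refine ⟨-TT (f m), ?_, ?_⟩
      · have h1 : (-TT (f m)).1 = -((f m).1 + (f m).2) := rfl
        omega
      · apply (flip_conn (fun c => η (tau c)) (-TT (f m))).mpr
        rw [neg_neg]
        exact (conn_iff η _).mpr ⟨m, f, h0, rfl, hf⟩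

end Pool.Agent.Helper95.DG
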