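import Pool.Agent.Helper95.DG.Half

set_option autoImplicit false

/-!
# DG-12: lateral motion in a strip, lateral crossings of tall rectangles

`lat_right`: a walk in the strip `t - H ≤ h ≤ t` from `g ≤ x` to `g ≥ x + j (H+1)` crosses, for every
`i < j`, the rectangle `[t-H, t] × [x + i (H+1), x + (i+1) (H+1)]` from left to right (`exists_between` for
`φ l = (f l).2` and `conn_of_walk`; the class of the point is `k` by `cls_walk`). These events are determined
by disjoint sets of cells (`dep_LR`), each has probability at most `1/2` (`lr_le_half`), so `indep_range`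
gives `(1/2)^j`. `lat_left` the same (`rl_le_half`, apply `exists_between` to `-(f l).2`).
`no_lr`: the rectangle `[a, a + j (G+1)] × [c, c + G]` contains the `j` rectangles
`[a + i (G+1), a + (i+1) (G+1)] × [c, c+G]`; if none of them has a left-right crossing (independent events,
each of probability at most `1 - 1/2`, `half_le_lr`, `dep_compl`), ...; a crossing of one of them is a
crossing of the big one (`conn_mono`).
-/

namespace Pool.Agent.Helper95.DG

open MeasureTheory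
open scoped ENNReal NNReal

theorem disj_cols (a b c G : ℤ) (hG : 0 ≤ G) (i j : ℕ) (hij : i ≠ j) :
    Disjoint (RCells a b (c + i * (G + 1)) (c + (i + 1) * (G + 1)))
      (RCells a b (c + j * (G + 1)) (c + (j + 1) * (G + 1))) := by
  rw [Set.disjoint_left]
  rintro z ⟨-, -, z1, z2⟩ ⟨-, -, z3, z4⟩
  rcases Nat.lt_or_gt_of_ne hij with h | h
  · have h' : (i : ℤ) + 1 ≤ j := by exact_mod_cast h
    have : ((i : ℤ) + 1) * (G + 1) ≤ j * (G + 1) := mul_le_mul_of_nonneg_right h' (by omega)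
    linarith
  · have h' : (j : ℤ) + 1 ≤ i := by exact_mod_cast h
    have : ((j : ℤ) + 1) * (G + 1) ≤ i * (G + 1) := mul_le_mul_of_nonneg_right h' (by omega)
    linarith

theorem disj_rows (a c d G : ℤ) (hG : 0 ≤ G) (i j : ℕ) (hij : i ≠ j) :
    Disjoint (RCells (a + i * (G + 1)) (a + (i + 1) * (G + 1)) c d)
      (RCells (a + j * (G + 1)) (a + (j + 1) * (G + 1)) c d) := by
  rw [Set.disjoint_left]
  rintro z ⟨z1, z2, -, -⟩ ⟨z3, z4, -, -⟩
  rcases Nat.lt_or_gt_of_ne hij with h | h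
  · have h' : (i : ℤ) + 1 ≤ j := by exact_mod_cast h
    have : ((i : ℤ) + 1) * (G + 1) ≤ j * (G + 1) := mul_le_mul_of_nonneg_right h' (by omega)
    linarith
  · have h' : (j : ℤ) + 1 ≤ i := by exact_mod_cast h
    have : ((j : ℤ) + 1) * (G + 1) ≤ i * (G + 1) := mul_le_mul_of_nonneg_right h' (by omega)
    linarith

theorem lat_right (p : ℝ≥0) (hp : p ≤ 1) (k t H x : ℤ) (hH : 1 ≤ H) (j : ℕ) :
    Pr p hp {ω | ∃ u v : ℤ × ℤ, (Cls k u ∧ u.2 ≤ x ∧ x + j * (H + 1) ≤ v.2) ∧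
      Conn (PS ω) (Strip (t - H) t) u v} ≤ (1 / 2) ^ j := by
  have hsub : {ω | ∃ u v : ℤ × ℤ, (Cls k u ∧ u.2 ≤ x ∧ x + j * (H + 1) ≤ v.2) ∧
      Conn (PS ω) (Strip (t - H) t) u v} ⊆
      {ω | ∀ i < j, ω ∈ {ω | LR (PS ω) k (t - H) t (x + i * (H + 1))
        (x + (i + 1) * (H + 1))}} := by
    rintro ω ⟨u, v, ⟨hu0, hu, hv⟩, n, f, hf, hf0, hfn⟩ i hi
    have hcl : ∀ i ≤ n, Cls k (f i) :=
      cls_walk k (PS ω) (fun u v => diag_of_ps ω u v) _ n f hf (by rw [hf0]; exact hu0)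
    have hi' : (i : ℤ) + 1 ≤ j := by exact_mod_cast hi
    have hi0 : (0 : ℤ) ≤ i := Int.natCast_nonneg i
    have hm1 : ((i : ℤ) + 1) * (H + 1) ≤ j * (H + 1) :=
      mul_le_mul_of_nonneg_right hi' (by omega)
    have hm2 : 0 ≤ (i : ℤ) * (H + 1) := mul_nonneg hi0 (by omega)
    obtain ⟨m1, m2, h12, h2, e1, e2, hb⟩ := exists_between (fun l => (f l).2) n
      (x + i * (H + 1)) (x + (i + 1) * (H + 1)) (by nlinarith)
      (fun l hl => by
        have := (hf.2 l hl).1.2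
        show (f (l + 1)).2 ≤ (f l).2 + 1
        rcases this with h | h <;> omega)
      (by show (f 0).2 ≤ _; rw [hf0]; linarith)
      (by show _ ≤ (f n).2; rw [hfn]; linarith)
    refine ⟨f m1, f m2, hcl m1 (by omega), e1, e2,
      conn_of_walk (PS ω) _ _ n f hf m1 m2 h12 h2 fun l hl1 hl2 => ?_⟩
    have h3 := hf.1 l (by omega)
    have h4 := hb l hl1 hl2
    exact ⟨h3.1, h3.2, h4.1, h4.2⟩
  refine (Pr_mono p hp hsub).trans ?_
  rw [indep_range p hp j _ (fun i => RCells (t - H) t (x + i * (H + 1)) (x + (i + 1) * (H + 1)))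
    (fun i _ => meas_LR _ _ _ _ _) (fun i _ => dep_LR _ _ _ _ _)
    (fun i _ l _ hil => disj_cols _ _ _ _ (by omega) i l hil)]
  refine (Finset.prod_le_prod (fun i _ => Pr_nonneg p hp _) (g := fun _ => (1 / 2 : ℝ))
    fun i _ => ?_).trans ?_
  · have := lr_le_half p hp k (t - H) (x + i * (H + 1)) H hH
    have e1 : t - H + H = t := by ring
    have e2 : x + i * (H + 1) + H + 1 = x + (i + 1) * (H + 1) := by ring
    rw [e1, e2] at this
    exact this
  · simp

theorem lat_left (p : ℝ≥0) (hp : p ≤ 1) (k t H x : ℤ) (hH : 1 ≤ H) (j : ℕ) :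
    Pr p hp {ω | ∃ u v : ℤ × ℤ, (Cls k u ∧ x ≤ u.2 ∧ v.2 ≤ x - j * (H + 1)) ∧
      Conn (PS ω) (Strip (t - H) t) u v} ≤ (1 / 2) ^ j := by
  have hsub : {ω | ∃ u v : ℤ × ℤ, (Cls k u ∧ x ≤ u.2 ∧ v.2 ≤ x - j * (H + 1)) ∧
      Conn (PS ω) (Strip (t - H) t) u v} ⊆
      {ω | ∀ i < j, ω ∈ {ω | RL (PS ω) k (t - H) t (x - j * (H + 1) + i * (H + 1))
        (x - j * (H + 1) + (i + 1) * (H + 1))}} := by
    rintro ω ⟨u, v, ⟨hu0, hu, hv⟩, n, f, hf, hf0, hfn⟩ i hi
    have hcl : ∀ i ≤ n, Cls k (f i) :=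
      cls_walk k (PS ω) (fun u v => diag_of_ps ω u v) _ n f hf (by rw [hf0]; exact hu0)
    have hi' : (i : ℤ) + 1 ≤ j := by exact_mod_cast hi
    have hi0 : (0 : ℤ) ≤ i := Int.natCast_nonneg i
    have hm1 : ((i : ℤ) + 1) * (H + 1) ≤ j * (H + 1) :=
      mul_le_mul_of_nonneg_right hi' (by omega)
    have hm2 : 0 ≤ (i : ℤ) * (H + 1) := mul_nonneg hi0 (by omega)
    obtain ⟨m1, m2, h12, h2, e1, e2, hb⟩ := exists_between (fun l => -(f l).2) n
      (-(x - j * (H + 1) + (i + 1) * (H + 1))) (-(x - j * (H + 1) + i * (H + 1))) (by nlinarith)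
      (fun l hl => by
        have := (hf.2 l hl).1.2
        show -(f (l + 1)).2 ≤ -(f l).2 + 1
        rcases this with h | h <;> omega)
      (by show -(f 0).2 ≤ _; rw [hf0]; linarith)
      (by show _ ≤ -(f n).2; rw [hfn]; linarith)
    refine ⟨f m1, f m2, hcl m1 (by omega), neg_injective e1, neg_injective e2,
      conn_of_walk (PS ω) _ _ n f hf m1 m2 h12 h2 fun l hl1 hl2 => ?_⟩
    have h3 := hf.1 l (by omega)
    have h4 := hb l hl1 hl2
    exact ⟨h3.1, h3.2, neg_le_neg_iff.1 h4.2, neg_le_neg_iff.1 h4.1⟩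
  refine (Pr_mono p hp hsub).trans ?_
  rw [indep_range p hp j _ (fun i => RCells (t - H) t (x - j * (H + 1) + i * (H + 1))
      (x - j * (H + 1) + (i + 1) * (H + 1)))
    (fun i _ => meas_RL _ _ _ _ _) (fun i _ => dep_RL _ _ _ _ _)
    (fun i _ l _ hil => disj_cols _ _ _ _ (by omega) i l hil)]
  refine (Finset.prod_le_prod (fun i _ => Pr_nonneg p hp _) (g := fun _ => (1 / 2 : ℝ))
    fun i _ => ?_).trans ?_
  · have := rl_le_half p hp k (t - H) (x - j * (H + 1) + i * (H + 1)) H hH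
    have e1 : t - H + H = t := by ring
    have e2 : x - j * (H + 1) + i * (H + 1) + H + 1 = x - j * (H + 1) + (i + 1) * (H + 1) := by
      ring
    rw [e1, e2] at this
    exact this
  · simp

theorem row_sub (a c d G : ℤ) (hG : 0 ≤ G) (j i : ℕ) (hi : i < j) :
    Rect (a + i * (G + 1)) (a + (i + 1) * (G + 1)) c d ⊆ Rect a (a + j * (G + 1)) c d := by
  rintro z ⟨z1, z2, z3, z4⟩
  have hi' : (i : ℤ) + 1 ≤ j := by exact_mod_cast hi
  have hi0 : (0 : ℤ) ≤ i := Int.natCast_nonneg i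
  have hm1 : ((i : ℤ) + 1) * (G + 1) ≤ j * (G + 1) :=
    mul_le_mul_of_nonneg_right hi' (by omega)
  have hm2 : 0 ≤ (i : ℤ) * (G + 1) := mul_nonneg hi0 (by omega)
  exact ⟨by linarith, by linarith, z3, z4⟩

theorem no_lr (p : ℝ≥0) (hp : p ≤ 1) (k a c G : ℤ) (hG : 1 ≤ G) (j : ℕ) :
    Pr p hp {ω | ¬ LR (PS ω) k a (a + j * (G + 1)) c (c + G)} ≤ (1 / 2) ^ j := by
  have hsub : {ω | ¬ LR (PS ω) k a (a + j * (G + 1)) c (c + G)} ⊆
      {ω | ∀ i < j, ω ∈ {ω | LR (PS ω) k (a + i * (G + 1)) (a + (i + 1) * (G + 1)) c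
        (c + G)}ᶜ} := by
    intro ω hω i hi hLR
    apply hω
    obtain ⟨u, v, h1, h2, h3, h4⟩ := hLR
    exact ⟨u, v, h1, h2, h3, conn_mono _ _ _ _ u v (fun _ _ _ _ h => h)
      (row_sub a c (c + G) G (by omega) j i hi) h4⟩
  refine (Pr_mono p hp hsub).trans ?_
  rw [indep_range p hp j _ (fun i => RCells (a + i * (G + 1)) (a + (i + 1) * (G + 1)) c (c + G))
    (fun i _ => (meas_LR _ _ _ _ _).compl) (fun i _ => dep_compl (dep_LR _ _ _ _ _))
    (fun i _ l _ hil => disj_rows _ _ _ _ (by omega) i l hil)]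
  refine (Finset.prod_le_prod (fun i _ => Pr_nonneg p hp _) (g := fun _ => (1 / 2 : ℝ))
    fun i _ => ?_).trans ?_
  · rw [Pr_compl p hp (meas_LR _ _ _ _ _)]
    have := half_le_lr p hp k (a + i * (G + 1)) c G hG
    have e2 : a + i * (G + 1) + G + 1 = a + (i + 1) * (G + 1) := by ring
    rw [e2] at this
    linarith
  · simp

theorem no_rl (p : ℝ≥0) (hp : p ≤ 1) (k a c G : ℤ) (hG : 1 ≤ G) (j : ℕ) :
    Pr p hp {ω | ¬ RL (PS ω) k a (a + j * (G + 1)) c (c + G)} ≤ (1 / 2) ^ j := by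
  have hsub : {ω | ¬ RL (PS ω) k a (a + j * (G + 1)) c (c + G)} ⊆
      {ω | ∀ i < j, ω ∈ {ω | RL (PS ω) k (a + i * (G + 1)) (a + (i + 1) * (G + 1)) c
        (c + G)}ᶜ} := by
    intro ω hω i hi hLR
    apply hω
    obtain ⟨u, v, h1, h2, h3, h4⟩ := hLR
    exact ⟨u, v, h1, h2, h3, conn_mono _ _ _ _ u v (fun _ _ _ _ h => h)
      (row_sub a c (c + G) G (by omega) j i hi) h4⟩
  refine (Pr_mono p hp hsub).trans ?_
  rw [indep_range p hp j _ (fun i => RCells (a + i * (G + 1)) (a + (i + 1) * (G + 1)) c (c + G))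
    (fun i _ => (meas_RL _ _ _ _ _).compl) (fun i _ => dep_compl (dep_RL _ _ _ _ _))
    (fun i _ l _ hil => disj_rows _ _ _ _ (by omega) i l hil)]
  refine (Finset.prod_le_prod (fun i _ => Pr_nonneg p hp _) (g := fun _ => (1 / 2 : ℝ))
    fun i _ => ?_).trans ?_
  · rw [Pr_compl p hp (meas_RL _ _ _ _ _)]
    have := half_le_rl p hp k (a + i * (G + 1)) c G hG
    have e2 : a + i * (G + 1) + G + 1 = a + (i + 1) * (G + 1) := by ring
    rw [e2] at this
    linarith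
  · simp

end Pool.Agent.Helper95.DG
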