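import Pool.Agent.Helper95.DG.Enter
import Pool.Agent.Helper95.DG.Lat
import Pool.Agent.Helper95.DG.Fsc

set_option autoImplicit false

/-!
# DG-20: the arm estimate

Assume that the cluster of `(0,0)` is almost surely finite. `arm_even`: `a ≥ 2` even. By `fsc` applied to
`2a`: `(1/2)^9 < bq (2a)`. Let `X = 26a + 12 = 2a + 12 (2a+1)`. In the event of `bq (2a)` either the walk has a
point with `g ≥ X` or `g ≤ -X` (probability at most `2 (1/2)^12 = (1/2)^11`, `lat_right`, `lat_left` with `H = 2a`,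
`x = ± 2a`, `j = 12`) or it lies in `Rect (-2a) 0 (-X) X`. So the event of `enter` has probability at least
`(1/2)^9 - (1/2)^11 = 3/2048`. Take `q = arm a` in `enter`:
`h1`: translate by `w` (`PS_shift`, `conn_map`, `Pr_comp`; `w` has class 0, the walk from `w` to `h = -2a = w.1 - a`).
`h2`: translate by `w`, then `PS_rot` (with `Pr_comp`): a walk from `u` (`u.1 = 0 = w.1 + a`) to `w` becomes a walk from
`0` to `w - u`, with `h`-coordinate `-a`.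
So `3/2048 ≤ (X+1) arm(a)^2 ≤ 39 a arm(a)^2` (`26a + 13 ≤ 39a`; in fact `X + 1 = 26 a + 13 ≤ 39 a` needs `a ≥ 1`).
`arm_ge`: for `n ≥ 1` let `a = n` or `n + 1`, even, `a ≥ 2`; `a ≤ 2n`; `arm` is antitone. So
`arm(n)^2 ≥ 3 / (2048 * 39 * 2n) ≥ 1 / (57600 n)` (`3 * 57600 = 172800 ≥ 159744`), i.e.
`arm n ≥ 1/(240 √n)` (`240^2 = 57600`).
-/

namespace Pool.Agent.Helper95.DG

open MeasureTheory
open scoped ENNReal NNReal

theorem meas_ex_one (R : Set (ℤ × ℤ)) (P : ℤ × ℤ → Prop) (w : ℤ × ℤ) :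
    MeasurableSet {ω : ℤ × ℤ → Bool | ∃ v : ℤ × ℤ, P v ∧ Conn (PS ω) R w v} := by
  have e : {ω : ℤ × ℤ → Bool | ∃ v : ℤ × ℤ, P v ∧ Conn (PS ω) R w v} =
      ⋃ v : ℤ × ℤ, ({_ω | P v} ∩ {ω | Conn (PS ω) R w v}) := by
    ext ω
    simp only [Set.mem_iUnion]
    exact Iff.rfl
  rw [e]
  exact MeasurableSet.iUnion fun v => (MeasurableSet.const _).inter (meas_conn_PS R w v)

/-- The arm event of the point `w`, by translation. -/
theorem arm_from (p : ℝ≥0) (hp : p ≤ 1) (w : ℤ × ℤ) (a : ℤ) (R : Set (ℤ × ℤ)) :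
    Pr p hp {ω | ∃ v : ℤ × ℤ, v.1 = w.1 - a ∧ Conn (PS ω) R w v} ≤ arm p hp a := by
  unfold arm
  rw [← Pr_comp p hp (Equiv.addRight w) (meas_ex_one Set.univ (fun v => v.1 ≤ -a) (0, 0))]
  refine Pr_mono p hp ?_
  rintro ω ⟨v, hv, h⟩
  simp only [Set.mem_ofPred_eq, Equiv.coe_addRight]
  refine ⟨v - w, ?_, ?_⟩
  · show v.1 - w.1 ≤ -a; omega
  · have := conn_map (PS ω) (PS (fun c => ω (c + w))) R Set.univ (fun x => x - w)
      (fun x y hxy => (PS_shift ω w (x - w) (y - w)).2 (by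
        rw [sub_add_cancel, sub_add_cancel]; exact hxy))
      (fun x _ => Set.mem_univ _) w v h
    simp only [sub_self] at this
    exact this

/-- The rotation of the cells. -/
def rotc : (ℤ × ℤ) ≃ (ℤ × ℤ) where
  toFun c := (-c.1 - 1, -c.2 - 1)
  invFun c := (-c.1 - 1, -c.2 - 1)
  left_inv c := by ext <;> simp
  right_inv c := by ext <;> simp

theorem arm_to (p : ℝ≥0) (hp : p ≤ 1) (w : ℤ × ℤ) (a : ℤ) (R : Set (ℤ × ℤ)) :
    Pr p hp {ω | ∃ u : ℤ × ℤ, u.1 = w.1 + a ∧ Conn (PS ω) R u w} ≤ arm p hp a := by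
  have h := arm_from p hp (-w) a Set.univ
  refine le_trans ?_ h
  rw [← Pr_comp p hp rotc (meas_ex_one Set.univ (fun v => v.1 = (-w).1 - a) (-w))]
  refine Pr_mono p hp ?_
  rintro ω ⟨u, hu, h⟩
  simp only [Set.mem_ofPred_eq]
  refine ⟨-u, ?_, ?_⟩
  · show -u.1 = -w.1 - a; omega
  · refine conn_map_rev (PS ω) _ R Set.univ (fun x => -x) (fun x y hxy => ?_)
      (fun x _ => Set.mem_univ _) u w h
    refine (PS_rot ω (-y) (-x)).2 ?_
    rw [neg_neg, neg_neg]; exact hxy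

theorem arm_even (p : ℝ≥0) (hp : p ≤ 1)
    (h0 : Pr p hp {ω | {v : ℤ × ℤ | Conn (PS ω) Set.univ (0, 0) v}.Infinite} = 0)
    (a : ℤ) (ha : 2 ≤ a) (hae : Even a) : 3 / 2048 ≤ 39 * a * arm p hp a ^ 2 := by
  have hb : (1 / 2) ^ 9 < bq p hp (2 * a) := by
    by_contra hcon
    have := fsc p hp (2 * a) (by omega) (hae.mul_left 2) (not_lt.1 hcon)
    rw [h0] at this
    exact lt_irrefl _ this
  set X : ℤ := 26 * a + 12 with hX
  set R1 : Set (ℤ × ℤ → Bool) := {ω | ∃ u v : ℤ × ℤ, (Cls 0 u ∧ u.2 ≤ 2 * a ∧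
    2 * a + (12 : ℕ) * (2 * a + 1) ≤ v.2) ∧ Conn (PS ω) (Strip (0 - 2 * a) 0) u v} with hR1
  set R2 : Set (ℤ × ℤ → Bool) := {ω | ∃ u v : ℤ × ℤ, (Cls 0 u ∧ -(2 * a) ≤ u.2 ∧
    v.2 ≤ -(2 * a) - (12 : ℕ) * (2 * a + 1)) ∧ Conn (PS ω) (Strip (0 - 2 * a) 0) u v} with hR2
  set E : Set (ℤ × ℤ → Bool) := {ω | ∃ u v : ℤ × ℤ, (Cls 0 u ∧ u.1 = 0 ∧ v.1 = -(2 * a)) ∧
      Conn (PS ω) (Rect (-(2 * a)) 0 (-X) X) u v} with hE
  have h1 : Pr p hp R1 ≤ (1 / 2) ^ 12 := lat_right p hp 0 0 (2 * a) (2 * a) (by omega) 12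
  have h2 : Pr p hp R2 ≤ (1 / 2) ^ 12 := lat_left p hp 0 0 (2 * a) (-(2 * a)) (by omega) 12
  have h3 : Pr p hp E ≤ (X + 1) * arm p hp a ^ 2 := by
    refine enter p hp a X (by omega) (by omega) (arm p hp a) (fun w _ hw => ?_) (fun w _ hw => ?_)
    · refine le_trans (Pr_mono p hp ?_) (arm_from p hp w a (Rect (-(2 * a)) (-a) (-X) X))
      rintro ω ⟨v, hv, h⟩
      exact ⟨v, by rw [hv, hw]; ring, h⟩
    · refine le_trans (Pr_mono p hp ?_) (arm_to p hp w a (Rect (-(2 * a)) 0 (-X) X))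
      rintro ω ⟨u, hu, h⟩
      exact ⟨u, by rw [hu, hw]; ring, h⟩
  have hsub : {ω | ∃ u v : ℤ × ℤ, Cls 0 u ∧ u.1 = 0 ∧ |u.2| ≤ 2 * a ∧ v.1 = -(2 * a) ∧
      Conn (PS ω) (Strip (-(2 * a)) 0) u v} ⊆ R1 ∪ (R2 ∪ E) := by
    rintro ω ⟨u, v, hu0, hu1, hu2, hv, n, f, hf, hf0, hfn⟩
    rw [abs_le] at hu2
    have hcl : ∀ i ≤ n, Cls 0 (f i) :=
      cls_walk 0 (PS ω) (fun u v => diag_of_ps ω u v) _ n f hf (by rw [hf0]; exact hu0)
    have hS : ∀ i ≤ n, -(2 * a) ≤ (f i).1 ∧ (f i).1 ≤ 0 := fun i hi => hf.1 i hi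
    by_cases c1 : ∃ i ≤ n, 2 * a + (12 : ℕ) * (2 * a + 1) ≤ (f i).2
    · obtain ⟨i, hi, hi2⟩ := c1
      refine Or.inl ⟨f 0, f i, ⟨hcl 0 (Nat.zero_le n), ?_, hi2⟩, ?_⟩
      · rw [hf0]; exact hu2.2
      · refine conn_of_walk (PS ω) _ _ n f hf 0 i (Nat.zero_le i) hi fun j _ hj => ?_
        have := hS j (by omega)
        exact ⟨by simpa using this.1, this.2⟩
    by_cases c2 : ∃ i ≤ n, (f i).2 ≤ -(2 * a) - (12 : ℕ) * (2 * a + 1)
    · obtain ⟨i, hi, hi2⟩ := c2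
      refine Or.inr (Or.inl ⟨f 0, f i, ⟨hcl 0 (Nat.zero_le n), ?_, hi2⟩, ?_⟩)
      · rw [hf0]; exact hu2.1
      · refine conn_of_walk (PS ω) _ _ n f hf 0 i (Nat.zero_le i) hi fun j _ hj => ?_
        have := hS j (by omega)
        exact ⟨by simpa using this.1, this.2⟩
    right; right
    push Not at c1 c2
    refine ⟨u, v, ⟨hu0, hu1, hv⟩, n, f, ⟨fun i hi => ?_, hf.2⟩, hf0, hfn⟩
    have h5 := hS i hi
    have h6 := c1 i hi
    have h7 := c2 i hi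
    refine ⟨h5.1, h5.2, ?_, ?_⟩
    · rw [hX]; push_cast at h7; omega
    · rw [hX]; push_cast at h6; omega
  have h6 : bq p hp (2 * a) ≤ Pr p hp R1 + (Pr p hp R2 + Pr p hp E) := by
    refine (Pr_mono p hp hsub).trans ((Pr_union_le p hp _ _).trans ?_)
    exact add_le_add le_rfl (Pr_union_le p hp _ _)
  have h7 : ((X : ℝ) + 1) ≤ 39 * a := by
    have : X + 1 ≤ 39 * a := by omega
    exact_mod_cast this
  have h8 : ((X : ℝ) + 1) * arm p hp a ^ 2 ≤ 39 * a * arm p hp a ^ 2 :=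
    mul_le_mul_of_nonneg_right h7 (sq_nonneg _)
  norm_num at hb h1 h2
  linarith

theorem arm_anti (p : ℝ≥0) (hp : p ≤ 1) (a b : ℤ) (h : a ≤ b) : arm p hp b ≤ arm p hp a := by
  refine Pr_mono p hp ?_
  rintro ω ⟨v, hv, h'⟩
  exact ⟨v, by omega, h'⟩

theorem arm_ge (p : ℝ≥0) (hp : p ≤ 1)
    (h0 : Pr p hp {ω | {v : ℤ × ℤ | Conn (PS ω) Set.univ (0, 0) v}.Infinite} = 0)
    (n : ℕ) (hn : 1 ≤ n) : 1 / (240 * Real.sqrt n) ≤ arm p hp n := by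
  obtain ⟨a, hae, h1, h2⟩ : ∃ a : ℤ, Even a ∧ (n : ℤ) ≤ a ∧ a ≤ n + 1 := by
    rcases Nat.even_or_odd n with h | h
    · exact ⟨n, by exact_mod_cast h, le_rfl, by omega⟩
    · exact ⟨n + 1, by exact_mod_cast h.add_one, by omega, le_rfl⟩
  have ha2 : 2 ≤ a := by
    obtain ⟨b, hb⟩ := hae
    omega
  have h3 := arm_even p hp h0 a ha2 hae
  have h4 := arm_anti p hp n a h1
  have h5 : (0 : ℝ) ≤ arm p hp a := Pr_nonneg p hp _
  have h6 : (a : ℝ) ≤ 2 * n := by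
    have : a ≤ 2 * (n : ℤ) := by omega
    exact_mod_cast this
  have hn0 : (0 : ℝ) < n := by exact_mod_cast hn
  have h7 : arm p hp a ^ 2 ≤ arm p hp n ^ 2 := pow_le_pow_left₀ h5 h4 2
  have h8 : 3 / 2048 ≤ 78 * n * arm p hp n ^ 2 := by
    have h9 : 39 * (a : ℝ) * arm p hp a ^ 2 ≤ 39 * (2 * n) * arm p hp n ^ 2 := by
      refine mul_le_mul (by linarith) h7 (sq_nonneg _) (by positivity)
    linarith
  have hs : 0 < Real.sqrt n := Real.sqrt_pos.2 hn0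
  have hn1 : (0 : ℝ) ≤ arm p hp n := Pr_nonneg p hp _
  refine le_of_sq_le_sq ?_ hn1
  rw [div_pow, mul_pow, Real.sq_sqrt hn0.le, one_pow, div_le_iff₀ (by positivity)]
  nlinarith

end Pool.Agent.Helper95.DG
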