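import Mathlib

set_option autoImplicit false

/-!
# Project DG (MP_27014f_pr): definitions

Coordinates `h = x + y`, `g = x - y` of the square lattice: the vertices are the points of `ℤ × ℤ` with
`h + g` even, the faces the points with `h + g` odd. A point is written `(h, g)`. The unit cell with
lower left corner `(i, j)` contains one edge and one dual edge: its two diagonals. A configuration is
`ω : ℤ × ℤ → Bool` (one bit per cell); `PS ω` is the primal rule (a diagonal step is allowed iff: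
`ω cell = true ↔ h` increases), `DS ω` the dual rule (`ω cell = true ↔ g` increases).
Both relations make sense on both classes of points.
-/

namespace Pool.Agent.Helper95.DG

open MeasureTheory
open scoped ENNReal NNReal

/-- The unit cell (its lower left corner) of a diagonal step. -/
def cell (u v : ℤ × ℤ) : ℤ × ℤ := (min u.1 v.1, min u.2 v.2)

/-- A diagonal step. -/
def Diag (u v : ℤ × ℤ) : Prop :=
  (v.1 = u.1 + 1 ∨ v.1 = u.1 - 1) ∧ (v.2 = u.2 + 1 ∨ v.2 = u.2 - 1)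

/-- The primal rule. -/
def PS (ω : ℤ × ℤ → Bool) (u v : ℤ × ℤ) : Prop :=
  Diag u v ∧ (ω (cell u v) = true ↔ v.1 = u.1 + 1)

/-- The dual rule. -/
def DS (ω : ℤ × ℤ → Bool) (u v : ℤ × ℤ) : Prop :=
  Diag u v ∧ (ω (cell u v) = true ↔ v.2 = u.2 + 1)

/-- `f 0, ..., f n` is a walk of `r` in the set `R`. -/
def IsWalk (r : ℤ × ℤ → ℤ × ℤ → Prop) (R : Set (ℤ × ℤ)) (n : ℕ) (f : ℕ → ℤ × ℤ) : Prop :=
  (∀ i ≤ n, f i ∈ R) ∧ ∀ i < n, r (f i) (f (i + 1))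

/-- `u` is joined to `v` by a walk of `r` in `R`. -/
def Conn (r : ℤ × ℤ → ℤ × ℤ → Prop) (R : Set (ℤ × ℤ)) (u v : ℤ × ℤ) : Prop :=
  ∃ (n : ℕ) (f : ℕ → ℤ × ℤ), IsWalk r R n f ∧ f 0 = u ∧ f n = v

/-- The closed rectangle `a ≤ h ≤ b`, `c ≤ g ≤ d`. -/
def Rect (a b c d : ℤ) : Set (ℤ × ℤ) := {z | a ≤ z.1 ∧ z.1 ≤ b ∧ c ≤ z.2 ∧ z.2 ≤ d}

/-- The closed strip `a ≤ h ≤ b`. -/
def Strip (a b : ℤ) : Set (ℤ × ℤ) := {z | a ≤ z.1 ∧ z.1 ≤ b}

/-- The points of class `k`. -/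
def Cls (k : ℤ) (z : ℤ × ℤ) : Prop := Even (z.1 + z.2 + k)

/-- Crossing from left (`g = c`) to right (`g = d`). -/
def LR (r : ℤ × ℤ → ℤ × ℤ → Prop) (k a b c d : ℤ) : Prop :=
  ∃ u v : ℤ × ℤ, Cls k u ∧ u.2 = c ∧ v.2 = d ∧ Conn r (Rect a b c d) u v

/-- Crossing from right to left. -/
def RL (r : ℤ × ℤ → ℤ × ℤ → Prop) (k a b c d : ℤ) : Prop :=
  ∃ u v : ℤ × ℤ, Cls k u ∧ u.2 = d ∧ v.2 = c ∧ Conn r (Rect a b c d) u v

/-- Crossing upwards (from `h = a` to `h = b`). -/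
def UP (r : ℤ × ℤ → ℤ × ℤ → Prop) (k a b c d : ℤ) : Prop :=
  ∃ u v : ℤ × ℤ, Cls k u ∧ u.1 = a ∧ v.1 = b ∧ Conn r (Rect a b c d) u v

/-- Crossing downwards. -/
def DN (r : ℤ × ℤ → ℤ × ℤ → Prop) (k a b c d : ℤ) : Prop :=
  ∃ u v : ℤ × ℤ, Cls k u ∧ u.1 = b ∧ v.1 = a ∧ Conn r (Rect a b c d) u v

/-- The law of the configuration. -/
noncomputable def mu (p : ℝ≥0) (hp : p ≤ 1) : Measure (ℤ × ℤ → Bool) :=
  Measure.infinitePi (fun _ : ℤ × ℤ => (PMF.bernoulli p hp).toMeasure)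

/-- Real valued probabilities. -/
noncomputable def Pr (p : ℝ≥0) (hp : p ≤ 1) (A : Set (ℤ × ℤ → Bool)) : ℝ := (mu p hp).real A

/-- `A` is determined by the cells of `S`. -/
def Dep (A : Set (ℤ × ℤ → Bool)) (S : Set (ℤ × ℤ)) : Prop :=
  ∀ ω ω' : ℤ × ℤ → Bool, (∀ c ∈ S, ω c = ω' c) → (ω ∈ A ↔ ω' ∈ A)

/-- The cells of the rectangle. -/
def RCells (a b c d : ℤ) : Set (ℤ × ℤ) := {z | a ≤ z.1 ∧ z.1 < b ∧ c ≤ z.2 ∧ z.2 < d}

/-- The cells of the strip. -/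
def SCells (a b : ℤ) : Set (ℤ × ℤ) := {z | a ≤ z.1 ∧ z.1 < b}

/-- The strip crossing probability: the window `h = 0`, `|g| ≤ a` is joined to the line `h = -a`
inside the strip. -/
noncomputable def bq (p : ℝ≥0) (hp : p ≤ 1) (a : ℤ) : ℝ :=
  Pr p hp {ω | ∃ u v : ℤ × ℤ, Cls 0 u ∧ u.1 = 0 ∧ |u.2| ≤ a ∧ v.1 = -a ∧
    Conn (PS ω) (Strip (-a) 0) u v}

/-- The arm probability: `0` is joined to the half plane `h ≤ -a`. -/
noncomputable def arm (p : ℝ≥0) (hp : p ≤ 1) (a : ℤ) : ℝ :=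
  Pr p hp {ω | ∃ v : ℤ × ℤ, v.1 ≤ -a ∧ Conn (PS ω) Set.univ (0, 0) v}

end Pool.Agent.Helper95.DG
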