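import Pool.Agent.Helper95.DG.MeasC

set_option autoImplicit false

/-!
# DG-19: entering the cluster of the bottom (Simon-Lieb step)

`a ≥ 1`, `X ≥ 1`. `S = Rect (-2a) 0 (-X) X`, `D = Rect (-2a) (-a) (-X) X` (finite sets). For a configuration let
`I ω` be the set of points `z ∈ D` of class `0` which are joined by `PS ω` inside `D` to a point with `h = -2a`.
(1) If `J` is a finite set, `{ω | I ω = J}` is determined by the set `K J` of cells `cell x y` with `x, y ∈ D`,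
`Diag x y`, `x ∈ J` or `y ∈ J`: assume `ω, ω'` agree on `K J` and `I ω = J`. If `z ∈ J`, a walk of `ω` from `z` to the
bottom inside `D` consists of points of `I ω = J`, so it is a walk of `ω'`: `z ∈ I ω'`. If `z ∈ I ω'`, take the walk
of `ω'` to the bottom; its last point is a point of `D` of class 0 with `h = -2a`, so it is in `J`; going
backwards: if `f (i+1) ∈ J` then the step `f i → f (i+1)` uses a cell of `K J`, so it is a step of `ω`, and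
`f i ∈ I ω = J`. Hence `z ∈ J`.
(2) In the event `E` (a point of class 0, `h = 0`, is joined to `h = -2a` inside `S`) let `f` be the walk and `i` the
first index with `f i ∈ I ω = J` (it exists: the last point). Then `(f i).1 = -a`: `i ≥ 1` because `f 0` has
`h = 0 > -a`; if `(f i).1 < -a` then `f (i-1) ∈ D` and `f (i-1) → f i` shows `f (i-1) ∈ I ω`. For the same reason
`(f (i-1)).1 = -a + 1`. The walk `f 0, ..., f i` has no step with cell in `K J`: for a step of the walk with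
both ends in `D` before `i` both ends are not in `J`, the last step has cell with first coordinate
`-a` (above `D`); but note that a cell of `K J` has first coordinate `< -a`, and a step of the walk whose
cell has first coordinate `< -a` has both ends in `D`, and its cell contains only these two points of class 0.
So `w = f i` satisfies: `w ∈ J`, `w.1 = -a`, and the event `F J w` : (some point with `h = 0` is joined to `w` in `S` by a
walk of `PS ω` none of whose cells is in `K J`). `F J w` is determined by the complement of `K J`, measurable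
(countable unions as in `MeasC`), and contained in `{∃ u, u.1 = 0 ∧ Conn (PS ω) S u w}`.
(3) `Pr E ≤ ∑_J ∑_{w ∈ J, w.1 = -a} Pr {I ω = J} Pr (F J w)`
`≤ ∑_w Pr {w ∈ I ω} * Pr {∃ u, u.1 = 0 ∧ Conn (PS ω) S u w}` (`indep`; sum over the finitely many subsets `J`
of `D`; `∑_{J ∋ w} Pr {I = J} = Pr {w ∈ I}`), where `w` runs through the points `(-a, g)`, `|g| ≤ X`, of class 0.
The statement bounds both factors by `q` and the number of such `w` by `X + 1`.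
-/

namespace Pool.Agent.Helper95.DG

open MeasureTheory
open scoped ENNReal NNReal

/-- the cluster of the bottom -/
private def II (a X : ℤ) (ω : ℤ × ℤ → Bool) : Set (ℤ × ℤ) :=
  {z | Cls 0 z ∧ ∃ v : ℤ × ℤ, v.1 = -(2 * a) ∧ Conn (PS ω) (Rect (-(2 * a)) (-a) (-X) X) z v}

/-- the cells explored by the cluster -/
private def KK (a X : ℤ) (J : Set (ℤ × ℤ)) : Set (ℤ × ℤ) :=
  {c | ∃ x y : ℤ × ℤ, x ∈ Rect (-(2 * a)) (-a) (-X) X ∧ y ∈ Rect (-(2 * a)) (-a) (-X) X ∧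
    Diag x y ∧ (x ∈ J ∨ y ∈ J) ∧ c = cell x y}

/-- steps avoiding the cells in `K` -/
private def rr (K : Set (ℤ × ℤ)) (ω : ℤ × ℤ → Bool) (x y : ℤ × ℤ) : Prop :=
  PS ω x y ∧ cell x y ∉ K

private theorem II_sub {a X : ℤ} {ω : ℤ × ℤ → Bool} {z : ℤ × ℤ} (h : z ∈ II a X ω) :
    z ∈ Rect (-(2 * a)) (-a) (-X) X := by
  obtain ⟨_, v, _, n, f, hf, h0, _⟩ := h
  rw [← h0]
  exact hf.1 0 (Nat.zero_le _)

private theorem II_step {a X : ℤ} {ω : ℤ × ℤ → Bool} {x y : ℤ × ℤ}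
    (hx : x ∈ Rect (-(2 * a)) (-a) (-X) X) (hxy : PS ω x y) (hy : y ∈ II a X ω) :
    x ∈ II a X ω := by
  have hyD := II_sub hy
  obtain ⟨hc, v, hv, hconn⟩ := hy
  exact ⟨(cls_step 0 x y hxy.1).2 hc, v, hv,
    conn_trans _ _ x y v (conn_step _ _ x y hx hyD hxy) hconn⟩

private theorem II_bot {a X : ℤ} {ω : ℤ × ℤ → Bool} {v : ℤ × ℤ}
    (hv : v ∈ Rect (-(2 * a)) (-a) (-X) X) (hc : Cls 0 v) (h1 : v.1 = -(2 * a)) :
    v ∈ II a X ω := ⟨hc, v, h1, conn_refl _ _ v hv⟩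

private theorem II_congr {a X : ℤ} {ω ω' : ℤ × ℤ → Bool}
    (hag : ∀ c ∈ KK a X (II a X ω), ω c = ω' c) : II a X ω' = II a X ω := by
  apply Set.Subset.antisymm
  · rintro z ⟨hc, v, hv, n, f, hf, h0, hn⟩
    have hcl := cls_walk 0 (PS ω') (diag_of_ps ω') _ n f hf (by rw [h0]; exact hc)
    have key : ∀ k ≤ n, f (n - k) ∈ II a X ω := by
      intro k
      induction k with
      | zero =>
        intro _
        rw [Nat.sub_zero]
        exact II_bot (hf.1 n le_rfl) (hcl n le_rfl) (by rw [hn]; exact hv)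
      | succ k ih =>
        intro hk
        have h1 := ih (by omega)
        have e : n - k = (n - (k + 1)) + 1 := by omega
        rw [e] at h1
        have h2 := hf.2 (n - (k + 1)) (by omega)
        refine II_step (hf.1 _ (by omega)) ⟨h2.1, ?_⟩ h1
        rw [hag _ ⟨_, _, hf.1 _ (by omega), hf.1 _ (by omega), h2.1, Or.inr h1, rfl⟩]
        exact h2.2
    have h1 := key n le_rfl
    rwa [Nat.sub_self, h0] at h1
  · rintro z ⟨hc, v, hv, n, f, hf, h0, hn⟩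
    have hcl := cls_walk 0 (PS ω) (diag_of_ps ω) _ n f hf (by rw [h0]; exact hc)
    have hmem : ∀ i ≤ n, f i ∈ II a X ω := by
      intro i hi
      refine ⟨hcl i hi, v, hv, ?_⟩
      rw [← hn]
      exact conn_of_walk _ _ _ n f hf i n hi le_rfl (fun j _ hj => hf.1 j hj)
    refine ⟨hc, v, hv, n, f, ⟨hf.1, fun i hi => ⟨(hf.2 i hi).1, ?_⟩⟩, h0, hn⟩
    rw [← hag _ ⟨_, _, hf.1 i hi.le, hf.1 (i + 1) hi, (hf.2 i hi).1, Or.inl (hmem i hi.le), rfl⟩]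
    exact (hf.2 i hi).2

private theorem dep_A (a X : ℤ) (J : Set (ℤ × ℤ)) :
    Dep {ω : ℤ × ℤ → Bool | II a X ω = J} (KK a X J) := by
  intro ω ω' hag
  constructor
  · intro h
    have h' : II a X ω = J := h
    change II a X ω' = J
    rw [II_congr (ω := ω) (ω' := ω') (by rw [h']; exact hag), h']
  · intro h
    have h' : II a X ω' = J := h
    change II a X ω = J
    rw [II_congr (ω := ω') (ω' := ω) (by rw [h']; exact fun c hc => (hag c hc).symm), h']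

private theorem dep_F (K R : Set (ℤ × ℤ)) (w : ℤ × ℤ) :
    Dep {ω : ℤ × ℤ → Bool | ∃ u v : ℤ × ℤ, (u.1 = 0 ∧ v = w) ∧ Conn (rr K ω) R u v} Kᶜ := by
  have key : ∀ ω ω' : ℤ × ℤ → Bool, (∀ c ∈ Kᶜ, ω c = ω' c) →
      (∃ u v : ℤ × ℤ, (u.1 = 0 ∧ v = w) ∧ Conn (rr K ω) R u v) →
      ∃ u v : ℤ × ℤ, (u.1 = 0 ∧ v = w) ∧ Conn (rr K ω') R u v := by
    rintro ω ω' hag ⟨u, v, h1, h2⟩
    refine ⟨u, v, h1, conn_mono _ _ R R u v (fun x y _ _ hxy => ?_) (fun _ hz => hz) h2⟩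
    refine ⟨⟨hxy.1.1, ?_⟩, hxy.2⟩
    rw [← hag _ hxy.2]
    exact hxy.1.2
  intro ω ω' hag
  exact ⟨key ω ω' hag, key ω' ω fun c hc => (hag c hc).symm⟩

private theorem meas_II (a X : ℤ) (z : ℤ × ℤ) : MeasurableSet {ω : ℤ × ℤ → Bool | z ∈ II a X ω} := by
  have h := meas_exists_PS (Rect (-(2 * a)) (-a) (-X) X)
    (fun u v => u = z ∧ Cls 0 z ∧ v.1 = -(2 * a))
  have e : {ω : ℤ × ℤ → Bool | z ∈ II a X ω} = {ω | ∃ u v : ℤ × ℤ,
      (u = z ∧ Cls 0 z ∧ v.1 = -(2 * a)) ∧ Conn (PS ω) (Rect (-(2 * a)) (-a) (-X) X) u v} := by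
    ext ω
    constructor
    · rintro ⟨h1, v, h2, h3⟩
      exact ⟨z, v, ⟨rfl, h1, h2⟩, h3⟩
    · rintro ⟨u, v, ⟨rfl, h1, h2⟩, h3⟩
      exact ⟨h1, v, h2, h3⟩
  rw [e]
  exact h

private theorem meas_A (a X : ℤ) (J : Set (ℤ × ℤ)) :
    MeasurableSet {ω : ℤ × ℤ → Bool | II a X ω = J} := by
  have e : {ω : ℤ × ℤ → Bool | II a X ω = J} = ⋂ z : ℤ × ℤ, {ω | z ∈ II a X ω ↔ z ∈ J} := by
    ext ω
    simp only [Set.mem_iInter]
    exact Set.ext_iff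
  rw [e]
  refine MeasurableSet.iInter fun z => ?_
  by_cases hz : z ∈ J
  · have e2 : {ω : ℤ × ℤ → Bool | z ∈ II a X ω ↔ z ∈ J} = {ω | z ∈ II a X ω} := by
      ext ω
      exact ⟨fun h => h.2 hz, fun h => ⟨fun _ => hz, fun _ => h⟩⟩
    rw [e2]
    exact meas_II a X z
  · have e2 : {ω : ℤ × ℤ → Bool | z ∈ II a X ω ↔ z ∈ J} = {ω | z ∈ II a X ω}ᶜ := by
      ext ω
      exact ⟨fun h h' => hz (h.1 h'), fun h => ⟨fun h' => absurd h' h, fun h' => absurd h' hz⟩⟩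
    rw [e2]
    exact (meas_II a X z).compl

private theorem meas_F (K R : Set (ℤ × ℤ)) (w : ℤ × ℤ) :
    MeasurableSet {ω : ℤ × ℤ → Bool | ∃ u v : ℤ × ℤ, (u.1 = 0 ∧ v = w) ∧ Conn (rr K ω) R u v} :=
  meas_ex_gen (rr K) (fun x y => (meas_PS x y).inter (MeasurableSet.const _)) R
    (fun u v => u.1 = 0 ∧ v = w)

/-- the two diagonals of a cell have different classes -/
private theorem cell_inj {x y x' y' : ℤ × ℤ} (h1 : Diag x y) (h2 : Diag x' y') (h3 : Cls 0 x)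
    (h4 : Cls 0 x') (h : cell x y = cell x' y') : (x = x' ∧ y = y') ∨ (x = y' ∧ y = x') := by
  obtain ⟨x1, x2⟩ := x
  obtain ⟨y1, y2⟩ := y
  obtain ⟨u1, u2⟩ := x'
  obtain ⟨v1, v2⟩ := y'
  unfold Diag at h1 h2
  unfold Cls at h3 h4
  rw [Int.even_iff] at h3 h4
  unfold cell at h
  simp only [Prod.mk.injEq] at h ⊢
  dsimp only at h1 h2 h3 h4
  omega

/-- the entrance -/
private theorem enter_pt {a X : ℤ} (ha : 1 ≤ a) {ω : ℤ × ℤ → Bool} {u v : ℤ × ℤ} (hu : Cls 0 u)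
    (hu0 : u.1 = 0) (hv : v.1 = -(2 * a))
    (hc : Conn (PS ω) (Rect (-(2 * a)) 0 (-X) X) u v) :
    ∃ w : ℤ × ℤ, w ∈ II a X ω ∧ w.1 = -a ∧ ∃ u' v' : ℤ × ℤ, (u'.1 = 0 ∧ v' = w) ∧
      Conn (rr (KK a X (II a X ω)) ω) (Rect (-(2 * a)) 0 (-X) X) u' v' := by
  classical
  obtain ⟨n, f, hf, h0, hn⟩ := hc
  have hcl := cls_walk 0 (PS ω) (diag_of_ps ω) _ n f hf (by rw [h0]; exact hu)
  have hD : ∀ i ≤ n, (f i).1 ≤ -a → f i ∈ Rect (-(2 * a)) (-a) (-X) X := by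
    intro i hi h1
    obtain ⟨r1, r2, r3, r4⟩ := hf.1 i hi
    exact ⟨r1, h1, r3, r4⟩
  have hex : ∃ i, i ≤ n ∧ f i ∈ II a X ω := by
    refine ⟨n, le_rfl, II_bot (hD n le_rfl ?_) (hcl n le_rfl) ?_⟩
    · rw [hn, hv]; omega
    · rw [hn]; exact hv
  obtain ⟨i, hi⟩ : ∃ i, i = Nat.find hex := ⟨_, rfl⟩
  have hin : i ≤ n ∧ f i ∈ II a X ω := by rw [hi]; exact Nat.find_spec hex
  have hmin : ∀ j, j < i → f j ∉ II a X ω := by
    intro j hj h
    rw [hi] at hj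
    exact Nat.find_min hex hj ⟨by omega, h⟩
  have hi0 : i ≠ 0 := by
    intro h
    have h1 := (II_sub hin.2).2.1
    rw [h, h0, hu0] at h1
    omega
  obtain ⟨j, rfl⟩ : ∃ j, i = j + 1 := ⟨i - 1, by omega⟩
  have hst := hf.2 j (by omega)
  have hj1 : -a < (f j).1 := by
    by_contra hcon
    exact hmin j (by omega) (II_step (hD j (by omega) (not_lt.1 hcon)) hst hin.2)
  have hle := (II_sub hin.2).2.1
  have hwa : (f (j + 1)).1 = -a := by
    rcases hst.1.1 with h1 | h1 <;> omega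
  refine ⟨f (j + 1), hin.2, hwa, f 0, f (j + 1), ⟨by rw [h0]; exact hu0, rfl⟩, j + 1, f,
    ⟨fun k hk => hf.1 k (by omega), fun k hk => ⟨hf.2 k (by omega), ?_⟩⟩, rfl, rfl⟩
  rintro ⟨x, y, hx, hy, hxy, hJ, hcell⟩
  have hkd := (hf.2 k (by omega)).1
  have hxc : Cls 0 x := by
    rcases hJ with h1 | h1
    · exact h1.1
    · exact (cls_step 0 x y hxy).2 h1.1
  have hkk := hmin k (by omega)
  have hlow : (f k).1 ≤ -a ∧ (f (k + 1)).1 ≤ -a := by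
    have h1 := congrArg Prod.fst hcell
    have h2 : min (f k).1 (f (k + 1)).1 = min x.1 y.1 := h1
    have h3 := hx.2.1
    have h4 := hy.2.1
    have h5 := hxy.1
    have h6 := hkd.1
    constructor <;> omega
  have hkj : k ≠ j := by
    rintro rfl
    omega
  have hk1 : f (k + 1) ∉ II a X ω := hmin (k + 1) (by omega)
  rcases cell_inj hkd hxy (hcl k (by omega)) hxc hcell with ⟨e1, e2⟩ | ⟨e1, e2⟩
  · rw [← e1, ← e2] at hJ
    exact hJ.elim hkk hk1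
  · rw [← e1, ← e2] at hJ
    exact hJ.elim hk1 hkk

private theorem card_W (a X : ℤ) (hX : 1 ≤ X) :
    (((Finset.Icc (-X) X).filter (fun g : ℤ => (g - a) % 2 = 0)).card : ℝ) ≤ X + 1 := by
  have h1 : ((Finset.Icc (-X) X).filter (fun g : ℤ => (g - a) % 2 = 0)).card ≤
      (Finset.Icc (0 : ℤ) X).card := by
    refine Finset.card_le_card_of_injOn (fun g => (g + X) / 2) ?_ ?_
    · intro g hg
      rw [Finset.mem_coe, Finset.mem_filter, Finset.mem_Icc] at hg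
      rw [Finset.mem_coe, Finset.mem_Icc]
      change 0 ≤ (g + X) / 2 ∧ (g + X) / 2 ≤ X
      omega
    · intro g hg g' hg' h
      rw [Finset.mem_coe, Finset.mem_filter, Finset.mem_Icc] at hg hg'
      have h' : (g + X) / 2 = (g' + X) / 2 := h
      omega
  rw [Int.card_Icc] at h1
  have h2 : (((X + 1 - 0).toNat : ℕ) : ℝ) = X + 1 := by
    have h3 : (((X + 1 - 0).toNat : ℕ) : ℤ) = X + 1 := by
      rw [Int.toNat_of_nonneg (by omega)]
      ring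
    exact_mod_cast h3
  rw [← h2]
  exact_mod_cast h1

theorem enter (p : ℝ≥0) (hp : p ≤ 1) (a X : ℤ) (ha : 1 ≤ a) (hX : 1 ≤ X) (q : ℝ)
    (h1 : ∀ w : ℤ × ℤ, Cls 0 w → w.1 = -a → Pr p hp {ω | ∃ v : ℤ × ℤ, v.1 = -(2 * a) ∧
      Conn (PS ω) (Rect (-(2 * a)) (-a) (-X) X) w v} ≤ q)
    (h2 : ∀ w : ℤ × ℤ, Cls 0 w → w.1 = -a → Pr p hp {ω | ∃ u : ℤ × ℤ, u.1 = 0 ∧
      Conn (PS ω) (Rect (-(2 * a)) 0 (-X) X) u w} ≤ q) :
    Pr p hp {ω | ∃ u v : ℤ × ℤ, (Cls 0 u ∧ u.1 = 0 ∧ v.1 = -(2 * a)) ∧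
      Conn (PS ω) (Rect (-(2 * a)) 0 (-X) X) u v} ≤ (X + 1) * q ^ 2 := by
  classical
  obtain ⟨Dfin, hDfin⟩ : ∃ Dfin : Finset (ℤ × ℤ),
      Dfin = Finset.Icc (-(2 * a)) (-a) ×ˢ Finset.Icc (-X) X := ⟨_, rfl⟩
  have hDmem : ∀ z : ℤ × ℤ, z ∈ Rect (-(2 * a)) (-a) (-X) X → z ∈ Dfin := by
    rintro z ⟨r1, r2, r3, r4⟩
    rw [hDfin, Finset.mem_product, Finset.mem_Icc, Finset.mem_Icc]
    exact ⟨⟨r1, r2⟩, ⟨r3, r4⟩⟩
  obtain ⟨W, hW⟩ : ∃ W : Finset ℤ,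
      W = (Finset.Icc (-X) X).filter (fun g : ℤ => (g - a) % 2 = 0) := ⟨_, rfl⟩
  have hWc : ∀ g ∈ W, Cls 0 (-a, g) := by
    intro g hg
    rw [hW, Finset.mem_filter] at hg
    unfold Cls
    rw [Int.even_iff]
    dsimp only
    omega
  -- the event of entering at a given point
  have hone : ∀ g ∈ W, Pr p hp {ω | (-a, g) ∈ II a X ω ∧ ∃ u v : ℤ × ℤ,
      (u.1 = 0 ∧ v = (-a, g)) ∧
        Conn (rr (KK a X (II a X ω)) ω) (Rect (-(2 * a)) 0 (-X) X) u v} ≤ q * q := by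
    intro g hg
    have hc := hWc g hg
    have hq0 : 0 ≤ q := (Pr_nonneg p hp _).trans (h1 (-a, g) hc rfl)
    obtain ⟨PJ, hPJ⟩ : ∃ PJ : Finset (Finset (ℤ × ℤ)),
        PJ = Dfin.powerset.filter (fun J => (-a, g) ∈ J) := ⟨_, rfl⟩
    have hsub : {ω | (-a, g) ∈ II a X ω ∧ ∃ u v : ℤ × ℤ, (u.1 = 0 ∧ v = (-a, g)) ∧
        Conn (rr (KK a X (II a X ω)) ω) (Rect (-(2 * a)) 0 (-X) X) u v} ⊆
        ⋃ J ∈ PJ, ({ω | II a X ω = (J : Set (ℤ × ℤ))} ∩ {ω | ∃ u v : ℤ × ℤ,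
          (u.1 = 0 ∧ v = (-a, g)) ∧
          Conn (rr (KK a X (J : Set (ℤ × ℤ))) ω) (Rect (-(2 * a)) 0 (-X) X) u v}) := by
      rintro ω ⟨hmem, hconn⟩
      obtain ⟨J, hJ⟩ : ∃ J : Finset (ℤ × ℤ), J = Dfin.filter (fun z => z ∈ II a X ω) := ⟨_, rfl⟩
      have hJI : II a X ω = (J : Set (ℤ × ℤ)) := by
        ext z
        rw [hJ, Finset.mem_coe, Finset.mem_filter]
        exact ⟨fun h => ⟨hDmem z (II_sub h), h⟩, fun h => h.2⟩
      refine Set.mem_biUnion (x := J) ?_ ⟨hJI, ?_⟩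
      · rw [hPJ]
        refine Finset.mem_coe.2 (Finset.mem_filter.2 ⟨Finset.mem_powerset.2 ?_, ?_⟩)
        · rw [hJ]
          exact Finset.filter_subset _ _
        · rw [← Finset.mem_coe, ← hJI]
          exact hmem
      · change ∃ u v : ℤ × ℤ, (u.1 = 0 ∧ v = (-a, g)) ∧
          Conn (rr (KK a X (J : Set (ℤ × ℤ))) ω) (Rect (-(2 * a)) 0 (-X) X) u v
        rw [← hJI]
        exact hconn
    have hF : ∀ J : Set (ℤ × ℤ), Pr p hp {ω | ∃ u v : ℤ × ℤ, (u.1 = 0 ∧ v = (-a, g)) ∧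
        Conn (rr (KK a X J) ω) (Rect (-(2 * a)) 0 (-X) X) u v} ≤ q := by
      intro J
      refine (Pr_mono p hp ?_).trans (h2 (-a, g) hc rfl)
      rintro ω ⟨u, v, ⟨hu, rfl⟩, hconn⟩
      exact ⟨u, hu, conn_mono _ _ _ _ _ _ (fun x y _ _ hxy => hxy.1) (fun _ hz => hz) hconn⟩
    have hdisj : (PJ : Set (Finset (ℤ × ℤ))).PairwiseDisjoint
        (fun J : Finset (ℤ × ℤ) => {ω : ℤ × ℤ → Bool | II a X ω = (J : Set (ℤ × ℤ))}) := by
      intro J _ J' _ hne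
      refine Set.disjoint_left.2 fun ω h3 h4 => hne ?_
      have h5 : (J : Set (ℤ × ℤ)) = (J' : Set (ℤ × ℤ)) := Eq.trans (Eq.symm h3) h4
      exact Finset.coe_injective h5
    have hsum : ∑ J ∈ PJ, Pr p hp {ω | II a X ω = (J : Set (ℤ × ℤ))} ≤ q := by
      have e : ∑ J ∈ PJ, Pr p hp {ω | II a X ω = (J : Set (ℤ × ℤ))} =
          Pr p hp (⋃ J ∈ PJ, {ω | II a X ω = (J : Set (ℤ × ℤ))}) :=
        (measureReal_biUnion_finset hdisj fun J _ => meas_A a X J).symm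
      rw [e]
      refine (Pr_mono p hp ?_).trans (h1 (-a, g) hc rfl)
      intro ω hω
      obtain ⟨J, hJ, hωJ⟩ := Set.mem_iUnion₂.1 hω
      rw [hPJ, Finset.mem_filter] at hJ
      have h3 : (-a, g) ∈ II a X ω := by
        have h4 : II a X ω = (J : Set (ℤ × ℤ)) := hωJ
        rw [h4]
        exact Finset.mem_coe.2 hJ.2
      exact h3.2
    calc Pr p hp {ω | (-a, g) ∈ II a X ω ∧ ∃ u v : ℤ × ℤ, (u.1 = 0 ∧ v = (-a, g)) ∧
          Conn (rr (KK a X (II a X ω)) ω) (Rect (-(2 * a)) 0 (-X) X) u v}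
        ≤ Pr p hp (⋃ J ∈ PJ, ({ω | II a X ω = (J : Set (ℤ × ℤ))} ∩ {ω | ∃ u v : ℤ × ℤ,
            (u.1 = 0 ∧ v = (-a, g)) ∧
            Conn (rr (KK a X (J : Set (ℤ × ℤ))) ω) (Rect (-(2 * a)) 0 (-X) X) u v})) :=
          Pr_mono p hp hsub
      _ ≤ ∑ J ∈ PJ, Pr p hp ({ω | II a X ω = (J : Set (ℤ × ℤ))} ∩ {ω | ∃ u v : ℤ × ℤ,
            (u.1 = 0 ∧ v = (-a, g)) ∧
            Conn (rr (KK a X (J : Set (ℤ × ℤ))) ω) (Rect (-(2 * a)) 0 (-X) X) u v}) :=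
          Pr_biUnion_le p hp PJ _
      _ ≤ ∑ J ∈ PJ, Pr p hp {ω | II a X ω = (J : Set (ℤ × ℤ))} * q := by
          refine Finset.sum_le_sum fun J _ => ?_
          rw [indep p hp (meas_A a X J) (meas_F _ _ _) (dep_A a X J) (dep_F _ _ _)
            disjoint_compl_right]
          exact mul_le_mul_of_nonneg_left (hF _) (Pr_nonneg p hp _)
      _ = (∑ J ∈ PJ, Pr p hp {ω | II a X ω = (J : Set (ℤ × ℤ))}) * q := by
          rw [Finset.sum_mul]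
      _ ≤ q * q := mul_le_mul_of_nonneg_right hsum hq0
  have hcov : {ω | ∃ u v : ℤ × ℤ, (Cls 0 u ∧ u.1 = 0 ∧ v.1 = -(2 * a)) ∧
      Conn (PS ω) (Rect (-(2 * a)) 0 (-X) X) u v} ⊆
      ⋃ g ∈ W, {ω | (-a, g) ∈ II a X ω ∧ ∃ u v : ℤ × ℤ, (u.1 = 0 ∧ v = (-a, g)) ∧
        Conn (rr (KK a X (II a X ω)) ω) (Rect (-(2 * a)) 0 (-X) X) u v} := by
    rintro ω ⟨u, v, ⟨hu, hu0, hv⟩, hconn⟩
    obtain ⟨w, hw1, hw2, hw3⟩ := enter_pt ha hu hu0 hv hconn
    have hwe : w = (-a, w.2) := Prod.ext hw2 rfl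
    rw [hwe] at hw1 hw3
    refine Set.mem_biUnion (x := w.2) ?_ ⟨hw1, hw3⟩
    have h3 := II_sub hw1
    have h4 := hw1.1
    unfold Cls at h4
    rw [Int.even_iff] at h4
    dsimp only at h4
    rw [hW]
    refine Finset.mem_coe.2 (Finset.mem_filter.2 ⟨Finset.mem_Icc.2 ⟨h3.2.2.1, h3.2.2.2⟩, ?_⟩)
    omega
  calc Pr p hp {ω | ∃ u v : ℤ × ℤ, (Cls 0 u ∧ u.1 = 0 ∧ v.1 = -(2 * a)) ∧
        Conn (PS ω) (Rect (-(2 * a)) 0 (-X) X) u v}
      ≤ Pr p hp (⋃ g ∈ W, {ω | (-a, g) ∈ II a X ω ∧ ∃ u v : ℤ × ℤ, (u.1 = 0 ∧ v = (-a, g)) ∧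
          Conn (rr (KK a X (II a X ω)) ω) (Rect (-(2 * a)) 0 (-X) X) u v}) :=
        Pr_mono p hp hcov
    _ ≤ ∑ g ∈ W, Pr p hp {ω | (-a, g) ∈ II a X ω ∧ ∃ u v : ℤ × ℤ, (u.1 = 0 ∧ v = (-a, g)) ∧
          Conn (rr (KK a X (II a X ω)) ω) (Rect (-(2 * a)) 0 (-X) X) u v} :=
        Pr_biUnion_le p hp W _
    _ ≤ ∑ _g ∈ W, q * q := Finset.sum_le_sum hone
    _ = (W.card : ℝ) * (q * q) := by rw [Finset.sum_const, nsmul_eq_mul]
    _ ≤ (X + 1) * q ^ 2 := by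
        rw [sq, hW]
        exact mul_le_mul_of_nonneg_right (card_W a X hX) (mul_self_nonneg q)

end Pool.Agent.Helper95.DG
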