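import Pool.Agent.Helper95.DG.Rec

set_option autoImplicit false

/-!
# DG-15: geometric decay of the strip crossing probabilities

Induction on `m`: `bq (2^(m+1) a) ≤ 2 (1/2)^(m+12) + 2 (3 (m+12) + 3) (1/2)^(2(m+9))` by `bq_rec` with
`k = m + 12`. The first term is `(1/2)^(m+11)`. The second is at most `(1/2)^(m+11)`: this is
`2 (3m + 39) ≤ 2^(m+7)`, true for `m = 0` (`78 ≤ 128`), and by induction.
Sum: `(1/2)^(m+10)`.
-/

namespace Pool.Agent.Helper95.DG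

open MeasureTheory
open scoped ENNReal NNReal

theorem geo_num (m : ℕ) : 2 * (3 * (m : ℝ) + 39) ≤ 2 ^ (m + 7) := by
  induction m with
  | zero => norm_num
  | succ m ih =>
    have hm : (0 : ℝ) ≤ m := Nat.cast_nonneg m
    rw [show m + 1 + 7 = (m + 7) + 1 by omega, pow_succ]
    push_cast
    linarith

theorem bq_geo (p : ℝ≥0) (hp : p ≤ 1) (a : ℤ) (ha : 2 ≤ a) (hae : Even a)
    (h : bq p hp a ≤ (1 / 2) ^ 9) (m : ℕ) : bq p hp (2 ^ m * a) ≤ (1 / 2) ^ (m + 9) := by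
  induction m with
  | zero => simpa using h
  | succ m ih =>
    have h1 : (1 : ℤ) ≤ 2 ^ m := one_le_pow₀ (by norm_num)
    have h2 : 2 ≤ 2 ^ m * a := by nlinarith
    have h3 := bq_rec p hp (2 ^ m * a) h2 (hae.mul_left _) (m + 12)
    have h0 : 0 ≤ bq p hp (2 ^ m * a) := Pr_nonneg p hp _
    have h4 : bq p hp (2 ^ m * a) ^ 2 ≤ ((1 / 2) ^ (m + 9)) ^ 2 := pow_le_pow_left₀ h0 ih 2
    have e : (2 : ℤ) ^ (m + 1) * a = 2 * (2 ^ m * a) := by ring
    rw [e]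
    refine h3.trans ?_
    have h5 := geo_num m
    have h6 : (0 : ℝ) < (1 / 2) ^ (m + 7) := by positivity
    have h7 : (2 : ℝ) ^ (m + 7) * (1 / 2) ^ (m + 7) = 1 := by
      rw [← mul_pow]; norm_num
    have hc : (0 : ℝ) ≤ 2 * (3 * ((m + 12 : ℕ) : ℝ) + 3) := by positivity
    have h8 : 2 * (3 * ((m + 12 : ℕ) : ℝ) + 3) * bq p hp (2 ^ m * a) ^ 2 ≤
        2 * (3 * ((m + 12 : ℕ) : ℝ) + 3) * ((1 / 2) ^ (m + 9)) ^ 2 :=
      mul_le_mul_of_nonneg_left h4 hc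
    refine (add_le_add_right h8 _).trans ?_
    have e1 : ((1 : ℝ) / 2) ^ (m + 9) = (1 / 2) ^ (m + 7) * (1 / 4) := by
      rw [show m + 9 = (m + 7) + 2 by omega, pow_add]; norm_num
    have e2 : ((1 : ℝ) / 2) ^ (m + 12) = (1 / 2) ^ (m + 7) * (1 / 32) := by
      rw [show m + 12 = (m + 7) + 5 by omega, pow_add]; norm_num
    have e3 : ((1 : ℝ) / 2) ^ (m + 1 + 9) = (1 / 2) ^ (m + 7) * (1 / 8) := by
      rw [show m + 1 + 9 = (m + 7) + 3 by omega, pow_add]; norm_num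
    rw [e1, e2, e3]
    have e4 : 2 * (3 * ((m + 12 : ℕ) : ℝ) + 3) = 2 * (3 * (m : ℝ) + 39) := by
      push_cast; ring
    rw [e4]
    set y : ℝ := (1 / 2) ^ (m + 7) with hy
    have h9 : 2 * (3 * (m : ℝ) + 39) * y ≤ 1 := by
      rw [← h7]; exact mul_le_mul_of_nonneg_right h5 h6.le
    nlinarith

end Pool.Agent.Helper95.DG
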