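import Pool.Agent.Helper95.DG.Walk

set_option autoImplicit false

/-!
# DG-09: symmetries

`Pr_comp`: the law is invariant under permutations `σ` of the cells: `ω ↦ ω ∘ σ` is measurable and the image
measure is again the product measure (`Measure.eq_infinitePi` or
`MeasureTheory.Measure.infinitePi_map_...`: check boxes `Set.pi s t` for finite `s`, using
`Measure.infinitePi_pi`; `{ω | ω ∘ σ ∈ s.pi t} = (σ '' s).pi (t ∘ σ.symm)`).
The rules: elementary, unfold `PS`, `DS`, `Diag`, `cell`, `min` and use `omega` / `simp`; for the mirror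
`min (-x) (-y) = - max x y` and `max x y = min x y + 1` for neighbours.
* shift: `cell (u + v) (w + v) = cell u w + v`.
* mirror `(h, g) ↦ (h, -g)`: the cell `(i, j)` goes to `(i, -j-1)`.
* rot `(h, g) ↦ (-h, -g)` with reversal of the step: the cell `(i, j)` goes to `(-i-1, -j-1)`.
* transposition `(h, g) ↦ (g, h)` exchanges the primal and the dual rule.
* flip (all bits negated): the step is reversed.
`conn_map`: transport of `Conn` by a map of points.
-/

namespace Pool.Agent.Helper95.DG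

open MeasureTheory
open scoped ENNReal NNReal

theorem Pr_comp (p : ℝ≥0) (hp : p ≤ 1) (σ : (ℤ × ℤ) ≃ (ℤ × ℤ)) {A : Set (ℤ × ℤ → Bool)}
    (hA : MeasurableSet A) : Pr p hp {ω | (fun c => ω (σ c)) ∈ A} = Pr p hp A := by
  have hm : Measurable (fun (ω : ℤ × ℤ → Bool) (c : ℤ × ℤ) => ω (σ c)) :=
    measurable_pi_lambda _ fun c => measurable_pi_apply (σ c)
  have hmap : (mu p hp).map (fun (ω : ℤ × ℤ → Bool) (c : ℤ × ℤ) => ω (σ c)) = mu p hp := by
    unfold mu
    refine Measure.eq_infinitePi _ fun s t ht => ?_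
    rw [Measure.map_apply hm (MeasurableSet.pi s.countable_toSet fun c _ => ht c)]
    have e : (fun (ω : ℤ × ℤ → Bool) (c : ℤ × ℤ) => ω (σ c)) ⁻¹' (Set.pi s t) =
        Set.pi (s.map σ.toEmbedding) (fun c => t (σ.symm c)) := by
      ext ω
      simp only [Set.mem_preimage, Set.mem_pi, Finset.coe_map, Set.mem_image, Finset.mem_coe,
        Equiv.coe_toEmbedding, forall_exists_index, and_imp, forall_apply_eq_imp_iff₂,
        Equiv.symm_apply_apply]
    rw [e, Measure.infinitePi_pi _ (fun c _ => ht _)]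
    rw [Finset.prod_map]
    simp
  unfold Pr
  conv_rhs => rw [← hmap]
  rw [measureReal_def, measureReal_def, Measure.map_apply hm hA]
  rfl

theorem PS_shift (ω : ℤ × ℤ → Bool) (v u w : ℤ × ℤ) :
    PS (fun c => ω (c + v)) u w ↔ PS ω (u + v) (w + v) := by
  have e : cell (u + v) (w + v) = cell u w + v := by
    unfold cell
    ext
    · show min (u.1 + v.1) (w.1 + v.1) = min u.1 w.1 + v.1; omega
    · show min (u.2 + v.2) (w.2 + v.2) = min u.2 w.2 + v.2; omega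
  unfold PS Diag
  rw [e]
  simp only [Prod.fst_add, Prod.snd_add]
  constructor
  · rintro ⟨⟨h1, h2⟩, h3⟩
    exact ⟨⟨by omega, by omega⟩, h3.trans (by omega)⟩
  · rintro ⟨⟨h1, h2⟩, h3⟩
    exact ⟨⟨by omega, by omega⟩, h3.trans (by omega)⟩

theorem DS_shift (ω : ℤ × ℤ → Bool) (v u w : ℤ × ℤ) :
    DS (fun c => ω (c + v)) u w ↔ DS ω (u + v) (w + v) := by
  have e : cell (u + v) (w + v) = cell u w + v := by
    unfold cell
    ext
    · show min (u.1 + v.1) (w.1 + v.1) = min u.1 w.1 + v.1; omega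
    · show min (u.2 + v.2) (w.2 + v.2) = min u.2 w.2 + v.2; omega
  unfold DS Diag
  rw [e]
  simp only [Prod.fst_add, Prod.snd_add]
  constructor
  · rintro ⟨⟨h1, h2⟩, h3⟩
    exact ⟨⟨by omega, by omega⟩, h3.trans (by omega)⟩
  · rintro ⟨⟨h1, h2⟩, h3⟩
    exact ⟨⟨by omega, by omega⟩, h3.trans (by omega)⟩

theorem PS_mirror (ω : ℤ × ℤ → Bool) (u w : ℤ × ℤ) :
    PS (fun c => ω (c.1, -c.2 - 1)) u w ↔ PS ω (u.1, -u.2) (w.1, -w.2) := by
  unfold PS Diag cell
  constructor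
  · rintro ⟨⟨h1, h2⟩, h3⟩
    have e : min (-u.2) (-w.2) = -min u.2 w.2 - 1 := by omega
    refine ⟨⟨h1, ?_⟩, ?_⟩
    · show -w.2 = -u.2 + 1 ∨ -w.2 = -u.2 - 1
      omega
    · show ω (min u.1 w.1, min (-u.2) (-w.2)) = true ↔ _
      rw [e]; exact h3
  · rintro ⟨⟨h1, h2⟩, h3⟩
    have h2' : -w.2 = -u.2 + 1 ∨ -w.2 = -u.2 - 1 := h2
    have e : min (-u.2) (-w.2) = -min u.2 w.2 - 1 := by omega
    refine ⟨⟨h1, by omega⟩, ?_⟩
    have h3' : ω (min u.1 w.1, min (-u.2) (-w.2)) = true ↔ w.1 = u.1 + 1 := h3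
    rw [e] at h3'; exact h3'

theorem PS_rot (ω : ℤ × ℤ → Bool) (u w : ℤ × ℤ) :
    PS (fun c => ω (-c.1 - 1, -c.2 - 1)) u w ↔ PS ω (-w) (-u) := by
  unfold PS Diag cell
  simp only [Prod.fst_neg, Prod.snd_neg]
  constructor
  · rintro ⟨⟨h1, h2⟩, h3⟩
    have e1 : min (-w.1) (-u.1) = -min u.1 w.1 - 1 := by omega
    have e2 : min (-w.2) (-u.2) = -min u.2 w.2 - 1 := by omega
    refine ⟨⟨by omega, by omega⟩, ?_⟩
    rw [e1, e2]; exact h3.trans (by omega)
  · rintro ⟨⟨h1, h2⟩, h3⟩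
    have e1 : min (-w.1) (-u.1) = -min u.1 w.1 - 1 := by omega
    have e2 : min (-w.2) (-u.2) = -min u.2 w.2 - 1 := by omega
    refine ⟨⟨by omega, by omega⟩, ?_⟩
    rw [e1, e2] at h3; exact h3.trans (by omega)

theorem PS_transp (ω : ℤ × ℤ → Bool) (u w : ℤ × ℤ) :
    PS (fun c => ω (c.2, c.1)) u w ↔ DS ω (u.2, u.1) (w.2, w.1) := by
  unfold PS DS Diag cell
  exact ⟨fun h => ⟨⟨h.1.2, h.1.1⟩, h.2⟩, fun h => ⟨⟨h.1.2, h.1.1⟩, h.2⟩⟩

theorem PS_not (ω : ℤ × ℤ → Bool) (u w : ℤ × ℤ) : PS (fun c => !(ω c)) u w ↔ PS ω w u := by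
  have e : cell w u = cell u w := by
    unfold cell; rw [min_comm w.1, min_comm w.2]
  unfold PS Diag
  rw [e]
  constructor
  · rintro ⟨⟨h1, h2⟩, h3⟩
    refine ⟨⟨by omega, by omega⟩, ?_⟩
    cases hb : ω (cell u w) with
    | false =>
      have h4 : w.1 = u.1 + 1 := h3.1 (by simp [hb])
      exact ⟨fun h => by simp at h, fun h => by omega⟩
    | true =>
      have h4 : ¬ w.1 = u.1 + 1 := fun h => by have := h3.2 h; simp [hb] at this
      exact ⟨fun _ => by omega, fun _ => rfl⟩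
  · rintro ⟨⟨h1, h2⟩, h3⟩
    refine ⟨⟨by omega, by omega⟩, ?_⟩
    cases hb : ω (cell u w) with
    | false =>
      have h4 : ¬ u.1 = w.1 + 1 := fun h => by have := h3.2 h; simp [hb] at this
      exact ⟨fun _ => by omega, fun _ => by simp [hb]⟩
    | true =>
      have h4 : u.1 = w.1 + 1 := h3.1 hb
      exact ⟨fun h => by simp [hb] at h, fun h => by omega⟩

theorem DS_not (ω : ℤ × ℤ → Bool) (u w : ℤ × ℤ) : DS (fun c => !(ω c)) u w ↔ DS ω w u := by
  have e : cell w u = cell u w := by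
    unfold cell; rw [min_comm w.1, min_comm w.2]
  unfold DS Diag
  rw [e]
  constructor
  · rintro ⟨⟨h1, h2⟩, h3⟩
    refine ⟨⟨by omega, by omega⟩, ?_⟩
    cases hb : ω (cell u w) with
    | false =>
      have h4 : w.2 = u.2 + 1 := h3.1 (by simp [hb])
      exact ⟨fun h => by simp at h, fun h => by omega⟩
    | true =>
      have h4 : ¬ w.2 = u.2 + 1 := fun h => by have := h3.2 h; simp [hb] at this
      exact ⟨fun _ => by omega, fun _ => rfl⟩
  · rintro ⟨⟨h1, h2⟩, h3⟩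
    refine ⟨⟨by omega, by omega⟩, ?_⟩
    cases hb : ω (cell u w) with
    | false =>
      have h4 : ¬ u.2 = w.2 + 1 := fun h => by have := h3.2 h; simp [hb] at this
      exact ⟨fun _ => by omega, fun _ => by simp [hb]⟩
    | true =>
      have h4 : u.2 = w.2 + 1 := h3.1 hb
      exact ⟨fun h => by simp [hb] at h, fun h => by omega⟩

/-- Transport of connections by a map `T` of points. -/
theorem conn_map (r r' : ℤ × ℤ → ℤ × ℤ → Prop) (R R' : Set (ℤ × ℤ)) (T : ℤ × ℤ → ℤ × ℤ)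
    (hr : ∀ x y, r x y → r' (T x) (T y)) (hR : ∀ x ∈ R, T x ∈ R') (u v : ℤ × ℤ)
    (h : Conn r R u v) : Conn r' R' (T u) (T v) := by
  obtain ⟨n, f, hf, h0, hn⟩ := h
  exact ⟨n, fun i => T (f i), ⟨fun i hi => hR _ (hf.1 i hi), fun i hi => hr _ _ (hf.2 i hi)⟩,
    by rw [← h0], by rw [← hn]⟩

/-- Transport with reversal. -/
theorem conn_map_rev (r r' : ℤ × ℤ → ℤ × ℤ → Prop) (R R' : Set (ℤ × ℤ)) (T : ℤ × ℤ → ℤ × ℤ)
    (hr : ∀ x y, r x y → r' (T y) (T x)) (hR : ∀ x ∈ R, T x ∈ R') (u v : ℤ × ℤ)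
    (h : Conn r R u v) : Conn r' R' (T v) (T u) :=
  conn_map (fun x y => r y x) r' R R' T (fun x y hxy => hr y x hxy) hR v u
    (conn_reverse r R u v h)

end Pool.Agent.Helper95.DG
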