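import Pool.Agent.Helper95.DG.Dual
import Pool.Agent.Helper95.DG.MeasC
import Pool.Agent.Helper95.DG.Inv

set_option autoImplicit false

/-!
# DG-11: lateral crossings of squares have probability about one half

Write `V k H G` for `Pr {LR (PS ω) k a (a+H) c (c+G)}`.
(1) `V` depends on `a, c` only through the parity of `a + c + k`: `shift`: with `v = (a, c)`,
`LR (PS ω) k a (a+H) c (c+G) ↔ LR (PS (fun c => ω (c + v))) (k + a + c) 0 H 0 G` (`PS_shift`, `conn_map`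
in both directions), then `Pr_comp` with the translation `Equiv.addRight`. And `LR` depends on `k` only
through its parity.
(2) Duality: `lr_iff` and `PS_transp`: `UP (DS ω) (k+1) 0 H 0 G ↔ LR (PS (ω ∘ swap)) (k+1) 0 G 0 H`
(a dual walk from `h = 0` to `h = H` transposed is a primal walk from `g = 0` to `g = H`), so
`V k H G + V (k+1) G H = 1` for `H, G ≥ 1` (base point `(0,0)`), with `Pr_compl`.
(3) `V k H (H+1) ≤ V (k+1) (H+1) H`: a crossing of class `k` of `[0,H] × [0,H+1]`; translated by `(1, 0)` it has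
class `k+1` and lies in `[1,H+1] × [0,H+1]`; cut it at the first hit of `g = H` (`exists_first` for
`φ i = (f i).2`): a crossing of `[0,H+1] × [0,H]`. Hence `V k H (H+1) ≤ 1/2` for every `k`, and by (2)
`V k (G+1) G = 1 - V (k+1) G (G+1) ≥ 1/2`.
(4) Right-left: the mirror (`PS_mirror`, `Pr_comp`) turns `RL (PS ω) k a b c d` into
`LR (PS ω') k a b (-d) (-c)` (`Cls k` is invariant because `h + g` and `h - g` have the same parity).
-/

namespace Pool.Agent.Helper95.DG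

open MeasureTheory
open scoped ENNReal NNReal

private theorem hf_congr {r : ℤ × ℤ → ℤ × ℤ → Prop} {k k' a b c d : ℤ} (h : Even (k - k')) :
    LR r k a b c d ↔ LR r k' a b c d := by
  have h1 : ∀ z, Cls k z ↔ Cls k' z := by
    intro z
    unfold Cls
    rw [Int.even_iff] at h ⊢
    rw [Int.even_iff]
    omega
  unfold LR
  simp only [h1]

private theorem hf_shift_iff (ω : ℤ × ℤ → Bool) (k a c H G : ℤ) :
    LR (PS (fun z => ω (z + (a, c)))) (k + a + c) 0 H 0 G ↔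
      LR (PS ω) k a (a + H) c (c + G) := by
  constructor
  · rintro ⟨u, v, h1, h2, h3, h4⟩
    refine ⟨u + (a, c), v + (a, c), ?_, ?_, ?_, conn_map _ _ _ _ (fun z => z + (a, c)) ?_ ?_ u v h4⟩
    · unfold Cls at h1 ⊢
      rw [Int.even_iff] at h1 ⊢
      show (u.1 + a + (u.2 + c) + k) % 2 = 0
      omega
    · show u.2 + c = c
      omega
    · show v.2 + c = c + G
      omega
    · intro x y hxy
      exact (PS_shift ω (a, c) x y).1 hxy
    · rintro x ⟨x1, x2, x3, x4⟩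
      refine ⟨?_, ?_, ?_, ?_⟩
      · show a ≤ x.1 + a
        omega
      · show x.1 + a ≤ a + H
        omega
      · show c ≤ x.2 + c
        omega
      · show x.2 + c ≤ c + G
        omega
  · rintro ⟨u, v, h1, h2, h3, h4⟩
    refine ⟨u - (a, c), v - (a, c), ?_, ?_, ?_, conn_map _ _ _ _ (fun z => z - (a, c)) ?_ ?_ u v h4⟩
    · unfold Cls at h1 ⊢
      rw [Int.even_iff] at h1 ⊢
      show (u.1 - a + (u.2 - c) + (k + a + c)) % 2 = 0
      omega
    · show u.2 - c = 0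
      omega
    · show v.2 - c = G
      omega
    · intro x y hxy
      refine (PS_shift ω (a, c) _ _).2 ?_
      rw [sub_add_cancel, sub_add_cancel]
      exact hxy
    · rintro x ⟨x1, x2, x3, x4⟩
      refine ⟨?_, ?_, ?_, ?_⟩
      · show 0 ≤ x.1 - a
        omega
      · show x.1 - a ≤ H
        omega
      · show 0 ≤ x.2 - c
        omega
      · show x.2 - c ≤ G
        omega

private theorem hf_shift (p : ℝ≥0) (hp : p ≤ 1) (k a c H G : ℤ) :
    Pr p hp {ω | LR (PS ω) k a (a + H) c (c + G)} =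
      Pr p hp {ω | LR (PS ω) (k + a + c) 0 H 0 G} := by
  rw [← Pr_comp p hp (Equiv.addRight ((a, c) : ℤ × ℤ)) (meas_LR (k + a + c) 0 H 0 G)]
  congr 1
  ext ω
  exact (hf_shift_iff ω k a c H G).symm

private theorem hf_transp_iff (ω : ℤ × ℤ → Bool) (k H G : ℤ) :
    LR (PS (fun z => ω (z.2, z.1))) k 0 G 0 H ↔ UP (DS ω) k 0 H 0 G := by
  constructor
  · rintro ⟨u, v, h1, h2, h3, h4⟩
    refine ⟨(u.2, u.1), (v.2, v.1), ?_, h2, h3,
      conn_map _ _ _ _ (fun z => (z.2, z.1)) ?_ ?_ u v h4⟩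
    · unfold Cls at h1 ⊢
      show Even (u.2 + u.1 + k)
      rw [add_comm u.2]
      exact h1
    · intro x y hxy
      exact (PS_transp ω x y).1 hxy
    · rintro x ⟨x1, x2, x3, x4⟩
      exact ⟨x3, x4, x1, x2⟩
  · rintro ⟨u, v, h1, h2, h3, h4⟩
    refine ⟨(u.2, u.1), (v.2, v.1), ?_, h2, h3,
      conn_map _ _ _ _ (fun z => (z.2, z.1)) ?_ ?_ u v h4⟩
    · unfold Cls at h1 ⊢
      show Even (u.2 + u.1 + k)
      rw [add_comm u.2]
      exact h1
    · intro x y hxy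
      exact (PS_transp ω (x.2, x.1) (y.2, y.1)).2 hxy
    · rintro x ⟨x1, x2, x3, x4⟩
      exact ⟨x3, x4, x1, x2⟩

private theorem hf_dual (p : ℝ≥0) (hp : p ≤ 1) (k H G : ℤ) (hH : 0 < H) (hG : 0 < G) :
    Pr p hp {ω | LR (PS ω) k 0 H 0 G} = 1 - Pr p hp {ω | LR (PS ω) (k + 1) 0 G 0 H} := by
  have h1 : {ω : ℤ × ℤ → Bool | LR (PS ω) k 0 H 0 G} =
      {ω | UP (DS ω) (k + 1) 0 H 0 G}ᶜ := by
    ext ω
    exact lr_iff ω k 0 H 0 G hH hG
  rw [h1, Pr_compl p hp (meas_UPD (k + 1) 0 H 0 G),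
    ← Pr_comp p hp (Equiv.prodComm ℤ ℤ) (meas_LR (k + 1) 0 G 0 H)]
  congr 2
  ext ω
  exact (hf_transp_iff ω (k + 1) H G).symm

private theorem hf_cut (ω : ℤ × ℤ → Bool) (k H : ℤ) (hH : 1 ≤ H)
    (h : LR (PS ω) k 1 (1 + H) 0 (0 + (H + 1))) : LR (PS ω) k 0 (H + 1) 0 H := by
  obtain ⟨u, v, h1, h2, h3, n, f, hf, h0, hn⟩ := h
  obtain ⟨m, hm, e1, e2⟩ := exists_first (fun i => (f i).2) n H (fun i hi => by
      have h5 := (hf.2 i hi).1.2
      show (f (i + 1)).2 ≤ (f i).2 + 1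
      rcases h5 with h5 | h5 <;> omega)
    (by show (f 0).2 ≤ H; rw [h0, h2]; omega) (by show H ≤ (f n).2; rw [hn, h3]; omega)
  have e1' : (f m).2 = H := e1
  refine ⟨f 0, f m, by rw [h0]; exact h1, by rw [h0]; exact h2, e1', ?_⟩
  refine conn_of_walk (PS ω) _ _ n f hf 0 m (Nat.zero_le m) hm fun i _ hi => ?_
  obtain ⟨x1, x2, x3, x4⟩ := hf.1 i (hi.trans hm)
  have h5 : (f i).2 ≤ H := by
    rcases Nat.lt_or_ge i m with h6 | h6
    · exact (e2 i h6).le
    · have : i = m := by omega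
      rw [this, e1']
  refine ⟨by omega, by omega, x3, h5⟩

private theorem hf_base (p : ℝ≥0) (hp : p ≤ 1) (k H : ℤ) (hH : 1 ≤ H) :
    Pr p hp {ω | LR (PS ω) k 0 H 0 (H + 1)} ≤ 1 / 2 := by
  have h1 := hf_dual p hp k H (H + 1) (by omega) (by omega)
  have h2 := hf_shift p hp (k + 1) 1 0 H (H + 1)
  have h3 : {ω : ℤ × ℤ → Bool | LR (PS ω) (k + 1 + 1 + 0) 0 H 0 (H + 1)} =
      {ω | LR (PS ω) k 0 H 0 (H + 1)} := by
    ext ω
    exact hf_congr (by rw [Int.even_iff]; omega)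
  rw [h3] at h2
  have h4 : Pr p hp {ω | LR (PS ω) (k + 1) 1 (1 + H) 0 (0 + (H + 1))} ≤
      Pr p hp {ω | LR (PS ω) (k + 1) 0 (H + 1) 0 H} :=
    Pr_mono p hp fun ω hω => hf_cut ω (k + 1) H hH hω
  linarith

/-- the mirror image of a cell -/
private def hf_mir : (ℤ × ℤ) ≃ (ℤ × ℤ) where
  toFun z := (z.1, -z.2 - 1)
  invFun z := (z.1, -z.2 - 1)
  left_inv z := by
    ext
    · rfl
    · show -(-z.2 - 1) - 1 = z.2
      omega
  right_inv z := by
    ext
    · rfl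
    · show -(-z.2 - 1) - 1 = z.2
      omega

private theorem hf_mir_cls {k : ℤ} {u : ℤ × ℤ} (h : Cls k u) : Cls k (u.1, -u.2) := by
  unfold Cls at h ⊢
  rw [Int.even_iff] at h ⊢
  show (u.1 + -u.2 + k) % 2 = 0
  omega

private theorem hf_mir_iff (ω : ℤ × ℤ → Bool) (k a b c d : ℤ) :
    LR (PS (fun z => ω (z.1, -z.2 - 1))) k a b (-d) (-c) ↔ RL (PS ω) k a b c d := by
  constructor
  · rintro ⟨u, v, h1, h2, h3, h4⟩
    refine ⟨(u.1, -u.2), (v.1, -v.2), hf_mir_cls h1, ?_, ?_,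
      conn_map _ _ _ _ (fun z => (z.1, -z.2)) ?_ ?_ u v h4⟩
    · show -u.2 = d
      omega
    · show -v.2 = c
      omega
    · intro x y hxy
      exact (PS_mirror ω x y).1 hxy
    · rintro x ⟨x1, x2, x3, x4⟩
      refine ⟨x1, x2, ?_, ?_⟩
      · show c ≤ -x.2
        omega
      · show -x.2 ≤ d
        omega
  · rintro ⟨u, v, h1, h2, h3, h4⟩
    refine ⟨(u.1, -u.2), (v.1, -v.2), hf_mir_cls h1, ?_, ?_,
      conn_map _ _ _ _ (fun z => (z.1, -z.2)) ?_ ?_ u v h4⟩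
    · show -u.2 = -d
      omega
    · show -v.2 = -c
      omega
    · intro x y hxy
      refine (PS_mirror ω (x.1, -x.2) (y.1, -y.2)).2 ?_
      show PS ω (x.1, - -x.2) (y.1, - -y.2)
      rw [neg_neg, neg_neg]
      exact hxy
    · rintro x ⟨x1, x2, x3, x4⟩
      refine ⟨x1, x2, ?_, ?_⟩
      · show -d ≤ -x.2
        omega
      · show -x.2 ≤ -c
        omega

private theorem hf_mirror (p : ℝ≥0) (hp : p ≤ 1) (k a b c d : ℤ) :
    Pr p hp {ω | RL (PS ω) k a b c d} = Pr p hp {ω | LR (PS ω) k a b (-d) (-c)} := by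
  rw [← Pr_comp p hp hf_mir (meas_LR k a b (-d) (-c))]
  congr 1
  ext ω
  exact (hf_mir_iff ω k a b c d).symm

theorem lr_le_half (p : ℝ≥0) (hp : p ≤ 1) (k a c H : ℤ) (hH : 1 ≤ H) :
    Pr p hp {ω | LR (PS ω) k a (a + H) c (c + H + 1)} ≤ 1 / 2 := by
  have h1 := hf_shift p hp k a c H (H + 1)
  rw [← add_assoc] at h1
  rw [h1]
  exact hf_base p hp (k + a + c) H hH


theorem rl_le_half (p : ℝ≥0) (hp : p ≤ 1) (k a c H : ℤ) (hH : 1 ≤ H) :
    Pr p hp {ω | RL (PS ω) k a (a + H) c (c + H + 1)} ≤ 1 / 2 := by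
  rw [hf_mirror]
  have h1 := lr_le_half p hp k a (-(c + H + 1)) H hH
  have e : -(c + H + 1) + H + 1 = -c := by ring
  rw [e] at h1
  exact h1


theorem half_le_lr (p : ℝ≥0) (hp : p ≤ 1) (k a c G : ℤ) (hG : 1 ≤ G) :
    1 / 2 ≤ Pr p hp {ω | LR (PS ω) k a (a + G + 1) c (c + G)} := by
  have h1 := hf_shift p hp k a c (G + 1) G
  rw [← add_assoc] at h1
  rw [h1, hf_dual p hp (k + a + c) (G + 1) G (by omega) (by omega)]
  have h2 := hf_base p hp (k + a + c + 1) G hG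
  linarith


theorem half_le_rl (p : ℝ≥0) (hp : p ≤ 1) (k a c G : ℤ) (hG : 1 ≤ G) :
    1 / 2 ≤ Pr p hp {ω | RL (PS ω) k a (a + G + 1) c (c + G)} := by
  rw [hf_mirror]
  have h1 := half_le_lr p hp k a (-(c + G)) G hG
  have e : -(c + G) + G = -c := by ring
  rw [e] at h1
  exact h1


end Pool.Agent.Helper95.DG
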