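import Pool.Agent.Helper95.DG.Defs

set_option autoImplicit false

/-!
# DG-08: independence of events determined by disjoint sets of cells

`indep`: let `X S ω = fun c : S => ω c` (restriction). Under `mu` the coordinates are independent
(`ProbabilityTheory.iIndepFun_infinitePi`), so `X S` and `X T` are independent for disjoint `S`, `T`
(for arbitrary sets: independence of the σ-algebras `⨆ c ∈ S, comap (eval c)` and
`⨆ c ∈ T, comap (eval c)` is `ProbabilityTheory.indep_iSup_of_disjoint`; the σ-algebra generated by `X S` is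
this supremum). A measurable set `A` with `Dep A S` is `X S ⁻¹' A'`, where `A' = {x | ext x ∈ A}` and `ext x` extends
`x` by `false` outside `S` (a measurable map).
`indep_range`: induction on `n`: the intersection of the first `n` events is measurable and determined by
the union of their supports.
`dep_*`: trivial.
-/

namespace Pool.Agent.Helper95.DG

open MeasureTheory ProbabilityTheory
open scoped ENNReal NNReal

instance isProb_mu (p : ℝ≥0) (hp : p ≤ 1) : IsProbabilityMeasure (mu p hp) := by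
  unfold mu; infer_instance

theorem Pr_nonneg (p : ℝ≥0) (hp : p ≤ 1) (A : Set (ℤ × ℤ → Bool)) : 0 ≤ Pr p hp A :=
  measureReal_nonneg

theorem Pr_le_one (p : ℝ≥0) (hp : p ≤ 1) (A : Set (ℤ × ℤ → Bool)) : Pr p hp A ≤ 1 :=
  measureReal_le_one

theorem Pr_mono (p : ℝ≥0) (hp : p ≤ 1) {A B : Set (ℤ × ℤ → Bool)} (h : A ⊆ B) :
    Pr p hp A ≤ Pr p hp B :=
  measureReal_mono h

theorem Pr_union_le (p : ℝ≥0) (hp : p ≤ 1) (A B : Set (ℤ × ℤ → Bool)) :
    Pr p hp (A ∪ B) ≤ Pr p hp A + Pr p hp B :=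
  measureReal_union_le A B

theorem Pr_compl (p : ℝ≥0) (hp : p ≤ 1) {A : Set (ℤ × ℤ → Bool)} (hA : MeasurableSet A) :
    Pr p hp Aᶜ = 1 - Pr p hp A :=
  probReal_compl_eq_one_sub hA

/-- Finite union bound. -/
theorem Pr_biUnion_le {ι : Type*} (p : ℝ≥0) (hp : p ≤ 1) (s : Finset ι)
    (A : ι → Set (ℤ × ℤ → Bool)) :
    Pr p hp (⋃ i ∈ s, A i) ≤ ∑ i ∈ s, Pr p hp (A i) :=
  measureReal_biUnion_finset_le s A

theorem dep_mono {A : Set (ℤ × ℤ → Bool)} {S T : Set (ℤ × ℤ)} (h : Dep A S) (hST : S ⊆ T) :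
    Dep A T :=
  fun ω ω' hω => h ω ω' fun c hc => hω c (hST hc)

theorem dep_inter {A B : Set (ℤ × ℤ → Bool)} {S T : Set (ℤ × ℤ)} (hA : Dep A S) (hB : Dep B T) :
    Dep (A ∩ B) (S ∪ T) := by
  intro ω ω' hω
  have h1 := hA ω ω' fun c hc => hω c (Or.inl hc)
  have h2 := hB ω ω' fun c hc => hω c (Or.inr hc)
  simp only [Set.mem_inter_iff, h1, h2]

theorem dep_compl {A : Set (ℤ × ℤ → Bool)} {S : Set (ℤ × ℤ)} (hA : Dep A S) : Dep Aᶜ S := by
  intro ω ω' hω
  simp only [Set.mem_compl_iff, hA ω ω' hω]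

/-- The σ-algebra of the coordinates in `S`. -/
def sig (S : Set (ℤ × ℤ)) : MeasurableSpace (ℤ × ℤ → Bool) :=
  ⨆ c ∈ S, MeasurableSpace.comap (fun ω : ℤ × ℤ → Bool => ω c) ⊤

open Classical in
/-- Extension by `false`. -/
noncomputable def ext (S : Set (ℤ × ℤ)) (ω : ℤ × ℤ → Bool) : ℤ × ℤ → Bool :=
  fun c => if c ∈ S then ω c else false

theorem meas_sig {A : Set (ℤ × ℤ → Bool)} (hA : MeasurableSet A) {S : Set (ℤ × ℤ)}
    (hAS : Dep A S) : MeasurableSet[sig S] A := by
  classical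
  have h1 : @Measurable _ _ (sig S) _ (ext S) := by
    refine @measurable_pi_lambda _ _ _ (sig S) _ _ fun c => ?_
    unfold ext
    by_cases hc : c ∈ S
    · simp only [hc, if_true]
      intro t _
      have : MeasurableSpace.comap (fun ω : ℤ × ℤ → Bool => ω c) ⊤ ≤ sig S :=
        le_iSup₂_of_le c hc le_rfl
      exact this _ ⟨t, trivial, rfl⟩
    · simp only [hc, if_false]
      exact @measurable_const _ _ _ (sig S) _
  have h2 : ext S ⁻¹' A = A := by
    ext ω
    refine hAS _ _ fun c hc => ?_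
    simp [ext, hc]
  rw [← h2]
  exact h1 hA

theorem indep (p : ℝ≥0) (hp : p ≤ 1) {A B : Set (ℤ × ℤ → Bool)} (hA : MeasurableSet A)
    (hB : MeasurableSet B) {S T : Set (ℤ × ℤ)} (hAS : Dep A S) (hBT : Dep B T)
    (hST : Disjoint S T) : Pr p hp (A ∩ B) = Pr p hp A * Pr p hp B := by
  have h1 : iIndepFun (fun (c : ℤ × ℤ) (ω : ℤ × ℤ → Bool) => ω c) (mu p hp) := by
    unfold mu
    exact iIndepFun_infinitePi (fun _ => measurable_id)
  have h2 : Indep (sig S) (sig T) (mu p hp) := by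
    refine indep_iSup_of_disjoint (m := fun c : ℤ × ℤ =>
      MeasurableSpace.comap (fun ω : ℤ × ℤ → Bool => ω c) ⊤) (fun c => ?_) h1 hST
    exact (measurable_pi_apply c).comap_le
  have h3 := (Indep_iff _ _ _).1 h2 A B (meas_sig hA hAS) (meas_sig hB hBT)
  unfold Pr
  rw [measureReal_def, measureReal_def, measureReal_def, h3, ENNReal.toReal_mul]

theorem indep_range (p : ℝ≥0) (hp : p ≤ 1) (n : ℕ) (A : ℕ → Set (ℤ × ℤ → Bool))
    (S : ℕ → Set (ℤ × ℤ)) (hA : ∀ i < n, MeasurableSet (A i)) (hS : ∀ i < n, Dep (A i) (S i))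
    (hd : ∀ i < n, ∀ j < n, i ≠ j → Disjoint (S i) (S j)) :
    Pr p hp {ω | ∀ i < n, ω ∈ A i} = ∏ i ∈ Finset.range n, Pr p hp (A i) := by
  have key : ∀ m ≤ n, MeasurableSet {ω | ∀ i < m, ω ∈ A i} ∧
      Dep {ω | ∀ i < m, ω ∈ A i} (⋃ i ∈ Finset.range m, S i) ∧
      Pr p hp {ω | ∀ i < m, ω ∈ A i} = ∏ i ∈ Finset.range m, Pr p hp (A i) := by
    intro m
    induction m with
    | zero =>
      intro _
      have e : {ω : ℤ × ℤ → Bool | ∀ i < 0, ω ∈ A i} = Set.univ := by
        ext ω; simp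
      rw [e]
      refine ⟨MeasurableSet.univ, fun _ _ _ => by simp, ?_⟩
      simp [Pr]
    | succ m ih =>
      intro hm
      obtain ⟨h1, h2, h3⟩ := ih (by omega)
      have e : {ω : ℤ × ℤ → Bool | ∀ i < m + 1, ω ∈ A i} =
          {ω | ∀ i < m, ω ∈ A i} ∩ A m := by
        ext ω
        constructor
        · intro h
          exact ⟨fun i hi => h i (by omega), h m (by omega)⟩
        · rintro ⟨h, h'⟩ i hi
          rcases Nat.lt_succ_iff_lt_or_eq.1 hi with hi | hi
          · exact h i hi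
          · rw [hi]; exact h'
      have e2 : (⋃ i ∈ Finset.range (m + 1), S i) = (⋃ i ∈ Finset.range m, S i) ∪ S m := by
        rw [Finset.range_add_one, Finset.set_biUnion_insert, Set.union_comm]
      rw [e, e2]
      refine ⟨h1.inter (hA m (by omega)), dep_inter h2 (hS m (by omega)), ?_⟩
      rw [indep p hp h1 (hA m (by omega)) h2 (hS m (by omega)), h3, Finset.prod_range_succ]
      rw [Set.disjoint_iUnion₂_left]
      intro i hi
      have := Finset.mem_range.1 hi
      exact hd i (by omega) m (by omega) (by omega)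
  exact (key n le_rfl).2.2

end Pool.Agent.Helper95.DG
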