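import Pool.Agent.Helper95.DG.Meet

set_option autoImplicit false

/-!
# DG-07: linking two upward crossings

`f`, `g` are two upward crossings, `l` a left-right crossing, `q` a right-left crossing (all of class `k`, in
the rectangle, directed by `r`). Then some point of `f` is joined to some point of `g`.

Proof. Suppose not. Then `f` and `g` have no common point (`conn_refl`). By `meet` the walk `l` meets `f`;
let `i0 ≤ m'` be the first index with `l i0` on `f`. For `i ≥ i0` the point `l i` is not on `g` (else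
`l i0 → l i` joins a point of `f` to a point of `g`, `conn_of_walk`). Let `j0` be the first index with `q j0`
on `f` (`q` reversed is an undirected left-right walk, so `meet` applies to `i ↦ q (m'' - i)`); for `i ≥ j0`
the point `q i` is not on `g`. Say `l i0 = f s`, `q j0 = f t`. The undirected walk: `q` from the end (left
side, `g`-coordinate `c`) back to `q j0`, then along `f` from `f t` to `f s` (forwards or backwards), then `l`
from `l i0` to its end (right side): it is a walk of diagonal steps in the rectangle from `g = c` to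
`g = d` all of whose points avoid `g`. This contradicts `meet` (for `g` and this walk).
(`Diag` is symmetric. It may be convenient to write undirected walks as lists or via
`Relation.ReflTransGen` and to prove first: if `u.2 = c`, `v.2 = d`, and `u, v` are joined by `Diag` steps in
`Rect ∩ {points not on g}` then contradiction; concatenation is then `conn_trans` for `Conn Diag S`.)
-/

namespace Pool.Agent.Helper95.DG

private theorem link_symm (u v : ℤ × ℤ) (h : Diag u v) : Diag v u := by
  unfold Diag at *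
  omega

/-- a lateral undirected walk avoiding an upward crossing does not exist -/
private theorem link_none (k a b c d : ℤ) (hab : a < b) (hcd : c < d) (m : ℕ) (g : ℕ → ℤ × ℤ)
    (hg : ∀ j < m, Diag (g j) (g (j + 1))) (hgR : ∀ j ≤ m, g j ∈ Rect a b c d)
    (hg0 : (g 0).1 = a) (hgm : (g m).1 = b) (hgk : Cls k (g 0)) (u v : ℤ × ℤ)
    (hu : u.2 = c) (hv : v.2 = d) (huk : Cls k u)
    (h : Conn Diag {x | x ∈ Rect a b c d ∧ ∀ j ≤ m, x ≠ g j} u v) : False := by
  obtain ⟨N, w, hw, hw0, hwN⟩ := h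
  obtain ⟨i, hi, j, hj, hij⟩ := meet k a b c d hab hcd m N g w hg hgR hg0 hgm hgk hw.2
    (fun i hi => (hw.1 i hi).1) (by rw [hw0, hu]) (by rw [hwN, hv]) (by rw [hw0]; exact huk)
  exact (hw.1 i hi).2 j hj hij

theorem link (r : ℤ × ℤ → ℤ × ℤ → Prop) (hr : ∀ u v, r u v → Diag u v) (k a b c d : ℤ)
    (hab : a < b) (hcd : c < d) (n m : ℕ) (f g : ℕ → ℤ × ℤ)
    (hf : IsWalk r (Rect a b c d) n f) (hf0 : (f 0).1 = a) (hfn : (f n).1 = b) (hfk : Cls k (f 0))
    (hg : IsWalk r (Rect a b c d) m g) (hg0 : (g 0).1 = a) (hgm : (g m).1 = b) (hgk : Cls k (g 0))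
    (hl : LR r k a b c d) (hq : RL r k a b c d) :
    ∃ i ≤ n, ∃ j ≤ m, Conn r (Rect a b c d) (f i) (g j) := by
  by_contra hcon
  push Not at hcon
  obtain ⟨S, hS⟩ : ∃ S : Set (ℤ × ℤ), S = {x | x ∈ Rect a b c d ∧ ∀ j ≤ m, x ≠ g j} := ⟨_, rfl⟩
  have hmem : ∀ x, x ∈ S ↔ (x ∈ Rect a b c d ∧ ∀ j ≤ m, x ≠ g j) := by
    intro x
    rw [hS]
    rfl
  have hfS : ∀ i ≤ n, f i ∈ S := by
    intro i hi
    rw [hmem]
    refine ⟨hf.1 i hi, fun j hj h => hcon i hi j hj ?_⟩
    rw [h]
    exact conn_refl r _ _ (hg.1 j hj)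
  have hfD : ∀ j < n, Diag (f j) (f (j + 1)) := fun j hj => hr _ _ (hf.2 j hj)
  -- after the common point with `f` a walk avoids `g`
  have htail : ∀ (N : ℕ) (w : ℕ → ℤ × ℤ), IsWalk r (Rect a b c d) N w → ∀ i ≤ N, ∀ j ≤ n,
      w i = f j → Conn Diag S (f j) (w N) := by
    intro N w hw i hi j hj hij
    have h1 : IsWalk Diag (Rect a b c d) N w := ⟨hw.1, fun i hi => hr _ _ (hw.2 i hi)⟩
    have h2 := conn_of_walk Diag (Rect a b c d) S N w h1 i N hi le_rfl (by
      intro i' hi1 hi2
      rw [hmem]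
      refine ⟨hw.1 i' hi2, fun j' hj' h => hcon j hj j' hj' ?_⟩
      rw [← hij, ← h]
      exact conn_of_walk r _ _ N w hw i i' hi1 hi2 (fun t _ ht => hw.1 t (by omega)))
    rwa [hij] at h2
  have hsymm : ∀ u v, Conn Diag S u v → Conn Diag S v u := by
    intro u v h
    exact conn_mono _ _ _ _ _ _ (fun x y _ _ hxy => link_symm _ _ hxy) (le_refl S)
      (conn_reverse Diag S u v h)
  -- the left-right crossing
  obtain ⟨u, v, huk, huc, hvd, N, w, hw, hw0, hwN⟩ := hl
  obtain ⟨i, hi, j, hj, hij⟩ := meet k a b c d hab hcd n N f w hfD hf.1 hf0 hfn hfk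
    (fun i hi => hr _ _ (hw.2 i hi)) hw.1 (by rw [hw0, huc]) (by rw [hwN, hvd])
    (by rw [hw0]; exact huk)
  have h1 := htail N w hw i hi j hj hij
  -- the right-left crossing
  obtain ⟨u', v', huk', hud', hvc', N', w', hw', hw0', hwN'⟩ := hq
  obtain ⟨i', hi', j', hj', hij'⟩ := meet k a b c d hab hcd n N' f (fun t => w' (N' - t)) hfD hf.1
    hf0 hfn hfk
    (fun t ht => by
      have e : N' - t = (N' - (t + 1)) + 1 := by omega
      show Diag (w' (N' - t)) (w' (N' - (t + 1)))
      rw [e]
      exact link_symm _ _ (hr _ _ (hw'.2 _ (by omega))))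
    (fun t ht => hw'.1 _ (Nat.sub_le N' t)) (by rw [Nat.sub_zero, hwN', hvc'])
    (by rw [Nat.sub_self, hw0', hud'])
    (by
      rw [Nat.sub_zero]
      exact cls_walk k r hr _ N' w' hw' (by rw [hw0']; exact huk') N' le_rfl)
  have h2 := htail N' w' hw' (N' - i') (Nat.sub_le _ _) j' hj' hij'
  -- along `f`
  have h3 : Conn Diag S (f j') (f j) := by
    have hfw : IsWalk Diag (Rect a b c d) n f := ⟨hf.1, hfD⟩
    rcases le_total j' j with h | h
    · exact conn_of_walk Diag _ S n f hfw j' j h hj (fun t _ ht => hfS t (by omega))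
    · exact hsymm _ _ (conn_of_walk Diag _ S n f hfw j j' h hj' (fun t _ ht => hfS t (by omega)))
  have h4 : Conn Diag S (w' N') (w N) :=
    conn_trans _ _ _ _ _ (hsymm _ _ h2) (conn_trans _ _ _ _ _ h3 h1)
  rw [hS] at h4
  refine link_none k a b c d hab hcd m g (fun j hj => hr _ _ (hg.2 j hj)) hg.1 hg0 hgm hgk
    (w' N') (w N) (by rw [hwN', hvc']) (by rw [hwN, hvd]) ?_ h4
  exact cls_walk k r hr _ N' w' hw' (by rw [hw0']; exact huk') N' le_rfl

end Pool.Agent.Helper95.DG
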