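import Pool.Agent.Helper95.DG.Arm
import Pool.Agent.Helper95.DG.Coord

set_option autoImplicit false

/-!
# DG-22: assembly
-/

namespace Pool.Agent.Helper95.DG

open MeasureTheory
open scoped ENNReal NNReal

theorem main (p : ℝ≥0) (hp : p ≤ 1)
    (h : nu p hp {η | ∃ f : ℕ → ℤ × ℤ, f 0 = (0, 0) ∧ Function.Injective f ∧
      ∀ n : ℕ, Arrow η (f n) (f (n + 1))} = 0) (n : ℕ) (hn : 1 ≤ n) :
    1 / (240 * Real.sqrt n) ≤ (nu p hp).real {η | ∃ (m : ℕ) (f : ℕ → ℤ × ℤ), f 0 = (0, 0) ∧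
      (f m).1 + (f m).2 ≤ -(n : ℤ) ∧ ∀ k < m, Arrow η (f k) (f (k + 1))} ∧
    1 / (240 * Real.sqrt n) ≤ (nu p hp).real {η | ∃ (m : ℕ) (f : ℕ → ℤ × ℤ), f 0 = (0, 0) ∧
      (n : ℤ) ≤ (f m).1 + (f m).2 ∧ ∀ k < m, Arrow η (f k) (f (k + 1))} := by
  obtain ⟨h1, h2⟩ := transfer_inf p hp h
  obtain ⟨h3, h4⟩ := transfer_arm p hp n
  rw [← h3, ← h4]
  exact ⟨arm_ge p hp h1 n hn, arm_ge (1 - p) tsub_le_self h2 n hn⟩

end Pool.Agent.Helper95.DG
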