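import Pool.Agent.Helper95.DG.Cross

set_option autoImplicit false

/-!
# DG-06: two crossings of the same class meet

`f` goes from `h = a` to `h = b`, `l` from `g = c` to `g = d`, both of class `k` in the rectangle.
Let `δ` be the walk `f` shifted by `(0, 1)` (class `k + 1`, `g`-coordinates in `[c, d + 1]`), extended by
one step at both ends to the levels `a - 1` and `b + 1` (with `g`-coordinate in `[c, d+1]`; choose
`(a - 1, g0)` resp. `(b + 1, g1)` where `(a, g0) = f 0`, `(b, g1) = f n`: the shifted points are `(a, g0 + 1)`,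
`(b, g1 + 1)`). Let `γ` be `l` extended by a last step to `(h ± 1, d + 1)` with `h`-coordinate in `[a, b]`
(possible because `a < b`). `cross` for `[a, b]`, `[c, d + 1]` gives a common cell of a step of `γ` and a step
of `δ`. The new steps of `δ` have cells with first coordinate `a - 1` or `b`, those of `γ` are in
`[a, b-1]`; so the step of `δ` is a shifted step `f j → f (j+1)`. The two steps use different diagonals of the
cell `(i, j')` because their classes differ.
If `γ` uses `(i, j')`, `(i+1, j'+1)`, the step of `δ` uses `(i+1, j')`, `(i, j'+1)`, so `f` uses `(i+1, j'-1)` and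
`(i, j')`: common point `(i, j')`. If `γ` uses `(i+1, j')`, `(i, j'+1)`, then `δ` uses `(i, j')`, `(i+1, j'+1)`
and `f` uses `(i, j'-1)`, `(i+1, j')`: common point `(i+1, j')`. The common point is the end of smaller
`g`-coordinate of the step of `γ`, so it is a point of `l` also when the step is the last, new one.
-/

namespace Pool.Agent.Helper95.DG

theorem meet (k a b c d : ℤ) (hab : a < b) (hcd : c < d) (n m : ℕ) (f l : ℕ → ℤ × ℤ)
    (hf : ∀ j < n, Diag (f j) (f (j + 1))) (hfR : ∀ j ≤ n, f j ∈ Rect a b c d)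
    (hf0 : (f 0).1 = a) (hfn : (f n).1 = b) (hfk : Cls k (f 0))
    (hl : ∀ i < m, Diag (l i) (l (i + 1))) (hlR : ∀ i ≤ m, l i ∈ Rect a b c d)
    (hl0 : (l 0).2 = c) (hlm : (l m).2 = d) (hlk : Cls k (l 0)) :
    ∃ i ≤ m, ∃ j ≤ n, l i = f j := by
  -- the extended shifted walk `δ`
  obtain ⟨δ, hd0, hds, hde⟩ : ∃ δ : ℕ → ℤ × ℤ, δ 0 = (a - 1, (f 0).2) ∧
      (∀ j ≤ n, δ (j + 1) = ((f j).1, (f j).2 + 1)) ∧ δ (n + 2) = (b + 1, (f n).2) := by
    refine ⟨fun t => if t = 0 then (a - 1, (f 0).2) else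
      if t ≤ n + 1 then ((f (t - 1)).1, (f (t - 1)).2 + 1) else (b + 1, (f n).2), ?_, ?_, ?_⟩
    · simp
    · intro j hj
      simp [hj]
    · simp
  obtain ⟨e, he, hea, heb⟩ : ∃ e : ℤ, (e = (l m).1 + 1 ∨ e = (l m).1 - 1) ∧ a ≤ e ∧ e ≤ b := by
    obtain ⟨h1, h2, -, -⟩ := hlR m le_rfl
    by_cases h : (l m).1 < b
    · exact ⟨(l m).1 + 1, Or.inl rfl, by omega, by omega⟩
    · exact ⟨(l m).1 - 1, Or.inr rfl, by omega, by omega⟩
  obtain ⟨γ, hgl, hge⟩ : ∃ γ : ℕ → ℤ × ℤ, (∀ i ≤ m, γ i = l i) ∧ γ (m + 1) = (e, d + 1) := by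
    refine ⟨fun t => if t ≤ m then l t else (e, d + 1), ?_, ?_⟩
    · intro i hi
      simp [hi]
    · simp
  -- the steps of `δ`
  have hδ : ∀ j < n + 2, Diag (δ j) (δ (j + 1)) := by
    intro j hj
    rcases Nat.eq_zero_or_pos j with rfl | hj0
    · rw [hd0, hds 0 (Nat.zero_le n)]
      exact ⟨Or.inl (by show (f 0).1 = a - 1 + 1; omega), Or.inl rfl⟩
    · obtain ⟨j', rfl⟩ : ∃ j', j = j' + 1 := ⟨j - 1, by omega⟩
      rcases Nat.lt_or_ge j' n with h | h
      · rw [hds j' h.le, hds (j' + 1) h]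
        obtain ⟨h1, h2⟩ := hf j' h
        refine ⟨h1, ?_⟩
        show (f (j' + 1)).2 + 1 = (f j').2 + 1 + 1 ∨ (f (j' + 1)).2 + 1 = (f j').2 + 1 - 1
        omega
      · have hj' : j' = n := by omega
        subst hj'
        rw [hds j' le_rfl, hde]
        refine ⟨Or.inl ?_, Or.inr ?_⟩
        · show b + 1 = (f j').1 + 1
          omega
        · show (f j').2 = (f j').2 + 1 - 1
          omega
  have hδc : ∀ j ≤ n + 2, c ≤ (δ j).2 ∧ (δ j).2 ≤ d + 1 := by
    intro j hj
    rcases Nat.eq_zero_or_pos j with rfl | hj0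
    · rw [hd0]
      obtain ⟨-, -, h3, h4⟩ := hfR 0 (Nat.zero_le n)
      exact ⟨h3, by show (f 0).2 ≤ d + 1; omega⟩
    · obtain ⟨j', rfl⟩ : ∃ j', j = j' + 1 := ⟨j - 1, by omega⟩
      rcases Nat.lt_or_ge n j' with h | h
      · have hj' : j' = n + 1 := by omega
        subst hj'
        rw [hde]
        obtain ⟨-, -, h3, h4⟩ := hfR n le_rfl
        exact ⟨h3, by show (f n).2 ≤ d + 1; omega⟩
      · rw [hds j' h]
        obtain ⟨-, -, h3, h4⟩ := hfR j' h
        exact ⟨by show c ≤ (f j').2 + 1; omega, by show (f j').2 + 1 ≤ d + 1; omega⟩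
  have hδ0 : (δ 0).1 = a - 1 := by rw [hd0]
  have hδn : (δ (n + 2)).1 = b + 1 := by rw [hde]
  have hδk : Cls (k + 1) (δ 0) := by
    rw [hd0]
    unfold Cls at hfk ⊢
    rw [Int.even_iff] at hfk ⊢
    show (a - 1 + (f 0).2 + (k + 1)) % 2 = 0
    omega
  -- the steps of `γ`
  have hγ : ∀ i < m + 1, Diag (γ i) (γ (i + 1)) := by
    intro i hi
    rcases Nat.lt_or_ge i m with h | h
    · rw [hgl i h.le, hgl (i + 1) h]
      exact hl i h
    · have hi' : i = m := by omega
      subst hi'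
      rw [hgl i le_rfl, hge]
      exact ⟨he, Or.inl (by show d + 1 = (l i).2 + 1; omega)⟩
  have hγr : ∀ i ≤ m + 1, a ≤ (γ i).1 ∧ (γ i).1 ≤ b := by
    intro i hi
    rcases Nat.lt_or_ge m i with h | h
    · have hi' : i = m + 1 := by omega
      subst hi'
      rw [hge]
      exact ⟨hea, heb⟩
    · rw [hgl i h]
      obtain ⟨h1, h2, -, -⟩ := hlR i h
      exact ⟨h1, h2⟩
  have hγ0 : (γ 0).2 ≤ c := by rw [hgl 0 (Nat.zero_le m), hl0]
  have hγm : d + 1 ≤ (γ (m + 1)).2 := by rw [hge]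
  have hγk : Cls k (γ 0) := by rw [hgl 0 (Nat.zero_le m)]; exact hlk
  obtain ⟨i, hi, j, hj, hc, h1, h2⟩ := cross k a b c (d + 1) hab.le (n + 2) (m + 1) δ γ hδ hδc
    hδ0 hδn hδk hγ hγr hγ0 hγm hγk
  have hD := hγ i hi
  have hr1 := hγr i hi.le
  have hr2 := hγr (i + 1) hi
  unfold cell at hc
  rw [Prod.mk.injEq] at hc
  obtain ⟨hc1, hc2⟩ := hc
  obtain ⟨hD1, hD2⟩ := hD
  -- `j` is not one of the new steps
  have hj0 : j ≠ 0 := by
    rintro rfl
    rw [hds 0 (Nat.zero_le n), hd0] at hc1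
    dsimp only at hc1
    omega
  obtain ⟨j', rfl⟩ : ∃ j', j = j' + 1 := ⟨j - 1, by omega⟩
  have hj' : j' < n := by
    by_contra hcon
    have e1 : j' = n := by omega
    subst e1
    rw [hds j' le_rfl, hde] at hc1
    dsimp only at hc1
    omega
  rw [hds j' hj'.le, hds (j' + 1) hj'] at hc1 hc2 h1 h2
  dsimp only at hc1 hc2 h1 h2
  rcases hD2 with hD2 | hD2
  · have hli : γ i = l i := hgl i (by omega)
    rcases hD1 with hD1 | hD1
    · refine ⟨i, by omega, j', hj'.le, ?_⟩
      rw [← hli]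
      exact Prod.ext (by omega) (by omega)
    · refine ⟨i, by omega, j' + 1, hj', ?_⟩
      rw [← hli]
      exact Prod.ext (by omega) (by omega)
  · have him : i < m := by
      by_contra hcon
      have e1 : i = m := by omega
      subst e1
      rw [hge, hgl i le_rfl] at hD2
      dsimp only at hD2
      omega
    have hli : γ (i + 1) = l (i + 1) := hgl (i + 1) him
    rcases hD1 with hD1 | hD1
    · refine ⟨i + 1, him, j', hj'.le, ?_⟩
      rw [← hli]
      exact Prod.ext (by omega) (by omega)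
    · refine ⟨i + 1, him, j' + 1, hj', ?_⟩
      rw [← hli]
      exact Prod.ext (by omega) (by omega)

end Pool.Agent.Helper95.DG
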