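import Pool.Agent.Helper95.DG.Cross

set_option autoImplicit false

/-!
# DG-03: a primal left-right crossing and a dual upward crossing exclude each other

Let `γ` be the primal walk (class `k`) from `g = c` to `g = d` and `δ` the dual walk (class `k + 1`) from
`h = a` to `h = b`, both in the rectangle. Extend `δ` by one diagonal step at both ends: a point
`(a - 1, g0 ± 1)` before the first point `(a, g0)` and `(b + 1, g1 ± 1)` after the last point `(b, g1)`, the
sign chosen such that the `g`-coordinate stays in `[c, d]` (possible because `c < d`). `cross` gives a step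
of `γ` and a step of the extended `δ` in the same cell; the cells of the two new steps have first
coordinate `a - 1` or `b`, those of the steps of `γ` have first coordinate in `[a, b - 1]`, so the step of `δ`
is one of the old ones. In the common cell `PS`: `o cell = true ↔ h` increases along `γ`; `DS`:
`o cell = true ↔ g` increases along `δ`; and `(δ (j+1)).2 - (δ j).2 = -((γ (i+1)).1 - (γ i).1)`:
contradiction.
-/

namespace Pool.Agent.Helper95.DG

theorem not_both (o : ℤ × ℤ → Bool) (k a b c d : ℤ) (hab : a < b) (hcd : c < d) :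
    ¬ (LR (PS o) k a b c d ∧ UP (DS o) (k + 1) a b c d) := by
  rintro ⟨⟨u, v, hu, huc, hvd, m, γ, hγ, hγ0, hγm⟩, ⟨u', v', hu', hua, hvb, n, δ', hδ, hδ0, hδn⟩⟩
  subst hγ0 hγm hδ0 hδn
  obtain ⟨e0, he0, he0c, he0d⟩ : ∃ e : ℤ, (e = (δ' 0).2 + 1 ∨ e = (δ' 0).2 - 1) ∧ c ≤ e ∧
      e ≤ d := by
    have h := hδ.1 0 (Nat.zero_le _)
    have h1 := h.2.2.1
    have h2 := h.2.2.2
    by_cases h3 : (δ' 0).2 = d
    · exact ⟨(δ' 0).2 - 1, Or.inr rfl, by omega, by omega⟩
    · exact ⟨(δ' 0).2 + 1, Or.inl rfl, by omega, by omega⟩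
  obtain ⟨e1, he1, he1c, he1d⟩ : ∃ e : ℤ, (e = (δ' n).2 + 1 ∨ e = (δ' n).2 - 1) ∧ c ≤ e ∧
      e ≤ d := by
    have h := hδ.1 n le_rfl
    have h1 := h.2.2.1
    have h2 := h.2.2.2
    by_cases h3 : (δ' n).2 = d
    · exact ⟨(δ' n).2 - 1, Or.inr rfl, by omega, by omega⟩
    · exact ⟨(δ' n).2 + 1, Or.inl rfl, by omega, by omega⟩
  obtain ⟨δ, hd0, hd1, hd2⟩ : ∃ δ : ℕ → ℤ × ℤ, δ 0 = (a - 1, e0) ∧ (∀ j ≤ n, δ (j + 1) = δ' j) ∧
      δ (n + 2) = (b + 1, e1) := by
    refine ⟨fun j => if j = 0 then (a - 1, e0) else if j ≤ n + 1 then δ' (j - 1) else (b + 1, e1),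
      ?_, ?_, ?_⟩
    · simp
    · intro j hj
      simp only
      rw [if_neg (by omega), if_pos (by omega), Nat.add_sub_cancel]
    · simp only
      rw [if_neg (by omega), if_neg (by omega)]
  have hstep : ∀ j < n + 2, Diag (δ j) (δ (j + 1)) := by
    intro j hj
    rcases Nat.eq_zero_or_pos j with rfl | hj0
    · rw [hd0, hd1 0 (Nat.zero_le _)]
      refine ⟨?_, ?_⟩
      · simp only
        omega
      · simp only
        omega
    · obtain ⟨j, rfl⟩ : ∃ i, j = i + 1 := ⟨j - 1, by omega⟩
      by_cases hjn : j = n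
      · subst hjn
        rw [hd1 j le_rfl, show j + 1 + 1 = j + 2 from rfl, hd2]
        refine ⟨?_, ?_⟩
        · simp only
          omega
        · simp only
          omega
      · rw [hd1 j (by omega), hd1 (j + 1) (by omega)]
        exact (hδ.2 j (by omega)).1
  obtain ⟨i, him, j, hjn, hcell, hD1, hD2⟩ := cross k a b c d hab.le (n + 2) m δ γ hstep
    (by
      intro j hj
      rcases Nat.eq_zero_or_pos j with rfl | hj0
      · rw [hd0]
        exact ⟨he0c, he0d⟩
      · obtain ⟨j, rfl⟩ : ∃ i, j = i + 1 := ⟨j - 1, by omega⟩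
        by_cases hjn : j = n + 1
        · subst hjn
          rw [show n + 1 + 1 = n + 2 from rfl, hd2]
          exact ⟨he1c, he1d⟩
        · rw [hd1 j (by omega)]
          exact (hδ.1 j (by omega)).2.2)
    (by rw [hd0]) (by rw [hd2])
    (by
      rw [hd0]
      unfold Cls at hu' ⊢
      rw [Int.even_iff] at hu' ⊢
      simp only
      omega)
    (fun i hi => (hγ.2 i hi).1) (fun i hi => ⟨(hγ.1 i hi).1, (hγ.1 i hi).2.1⟩) huc.le hvd.ge hu
  have hP := hγ.2 i him
  have hr1 := hγ.1 i him.le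
  have hr2 := hγ.1 (i + 1) him
  have hc1 : min (γ i).1 (γ (i + 1)).1 = min (δ j).1 (δ (j + 1)).1 := congrArg Prod.fst hcell
  have hPd := hP.1.1
  rcases Nat.eq_zero_or_pos j with rfl | hj0
  · rw [hd0] at hc1
    have h1 := hr1.1
    have h2 := hr2.1
    simp only at hc1
    omega
  · obtain ⟨j, rfl⟩ : ∃ i, j = i + 1 := ⟨j - 1, by omega⟩
    by_cases hjn' : j = n
    · subst hjn'
      rw [hd1 j le_rfl, show j + 1 + 1 = j + 2 from rfl, hd2] at hc1
      have h1 := hr1.2.1
      have h2 := hr2.2.1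
      simp only at hc1
      omega
    · rw [hd1 j (by omega), hd1 (j + 1) (by omega)] at hcell hD2
      have hDS := hδ.2 j (by omega)
      have e1 := hP.2
      have e2 := hDS.2
      rw [hcell] at e1
      rw [e1] at e2
      omega

end Pool.Agent.Helper95.DG
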