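import Pool.Agent.Helper95.DG.Win
import Pool.Agent.Helper95.DG.Lat

set_option autoImplicit false

/-!
# DG-14: the recursion

`a ≥ 2` even, `k ≥ 0`. Let `X = 2a + k (2a+1)`. In the event of `bq (2a)` take the walk `f` from `u = f 0`
(`h = 0`, `|g| ≤ 2a`) to `h = -2a` in the strip. Either some point of the walk has `g ≥ X` (event of
`lat_right` with `t = 0`, `H = 2a`, `x = 2a`, `j = k`), or some point has `g ≤ -X` (`lat_left` with `x = -2a`), or all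
points have `|g| < X`. In the last case let `m1` be the first index with `(f m1).1 = -a` (`exists_first` for
`φ i = -(f i).1`) and `m2` the last index with `(f m2).1 = -a` (`exists_last`): `f 0, ..., f m1` is a walk in
`Strip (-a) 0` from the window, `f m2, ...` a walk in `Strip (-2a) (-a)` from a point with `|g| < X` (class `0`) to
`h = -2a`. So
`bq (2a) ≤ 2 (1/2)^k + Pr (E1 ∩ E2)`, `E1` = (some point `h = 0`, `-2a ≤ g < -2a + 2 (2a+1)` of class 0 is joined to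
`h = -a` in the strip `[-a, 0]`), `E2` = (some point `h = -a`, `-X ≤ g < -X + (3k+3)(2a+1)` of class 0 is joined to
`h = -2a` in the strip `[-2a, -a]`); indeed `2X + 1 ≤ (3k+3)(2a+1)`:
`2X + 1 = 4a + 1 + k (4a+2) ≤ 2 (2a+1) + 2k (2a+1)`. `E1`, `E2` are independent (`indep`,
`dep_exists` with `SCells`), `Pr E1 ≤ 2 bq a`, `Pr E2 ≤ (3k+3) bq a` (`interval_le`).
-/

namespace Pool.Agent.Helper95.DG

open MeasureTheory
open scoped ENNReal NNReal

theorem bq_rec (p : ℝ≥0) (hp : p ≤ 1) (a : ℤ) (ha : 2 ≤ a) (hae : Even a) (k : ℕ) :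
    bq p hp (2 * a) ≤ 2 * (1 / 2) ^ k + 2 * (3 * k + 3) * bq p hp a ^ 2 := by
  set X : ℤ := 2 * a + k * (2 * a + 1) with hX
  set R1 : Set (ℤ × ℤ → Bool) := {ω | ∃ u v : ℤ × ℤ, (Cls 0 u ∧ u.2 ≤ 2 * a ∧
    2 * a + k * (2 * a + 1) ≤ v.2) ∧ Conn (PS ω) (Strip (0 - 2 * a) 0) u v} with hR1
  set R2 : Set (ℤ × ℤ → Bool) := {ω | ∃ u v : ℤ × ℤ, (Cls 0 u ∧ -(2 * a) ≤ u.2 ∧
    v.2 ≤ -(2 * a) - k * (2 * a + 1)) ∧ Conn (PS ω) (Strip (0 - 2 * a) 0) u v} with hR2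
  set E1 : Set (ℤ × ℤ → Bool) := {ω | ∃ u v : ℤ × ℤ, (Cls 0 u ∧ u.1 = 0 ∧ -(2 * a) ≤ u.2 ∧
    u.2 < -(2 * a) + (2 : ℕ) * (2 * a + 1) ∧ v.1 = 0 - a) ∧
    Conn (PS ω) (Strip (0 - a) 0) u v} with hE1
  set E2 : Set (ℤ × ℤ → Bool) := {ω | ∃ u v : ℤ × ℤ, (Cls 0 u ∧ u.1 = -a ∧ -X ≤ u.2 ∧
    u.2 < -X + (3 * k + 3 : ℕ) * (2 * a + 1) ∧ v.1 = -a - a) ∧
    Conn (PS ω) (Strip (-a - a) (-a)) u v} with hE2
  have h1 : Pr p hp R1 ≤ (1 / 2) ^ k := lat_right p hp 0 0 (2 * a) (2 * a) (by omega) k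
  have h2 : Pr p hp R2 ≤ (1 / 2) ^ k := lat_left p hp 0 0 (2 * a) (-(2 * a)) (by omega) k
  have h3 : Pr p hp E1 ≤ (2 : ℕ) * bq p hp a :=
    interval_le p hp a (by omega) hae 0 0 (-(2 * a)) 2
  have h4 : Pr p hp E2 ≤ (3 * k + 3 : ℕ) * bq p hp a :=
    interval_le p hp a (by omega) hae 0 (-a) (-X) (3 * k + 3)
  have h5 : Pr p hp (E1 ∩ E2) = Pr p hp E1 * Pr p hp E2 := by
    refine indep p hp (meas_exists_PS _ _) (meas_exists_PS _ _)
      (S := SCells (0 - a) 0) (T := SCells (-a - a) (-a)) ?_ ?_ ?_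
    · exact dep_exists _ _ (fun x hx y hy h => cell_mem_SCells _ _ x y hx hy h) _
    · exact dep_exists _ _ (fun x hx y hy h => cell_mem_SCells _ _ x y hx hy h) _
    · rw [Set.disjoint_left]
      intro z hz hz'
      have e1 : 0 - a ≤ z.1 := hz.1
      have e2 : z.1 < -a := hz'.2
      omega
  have hsub : {ω | ∃ u v : ℤ × ℤ, Cls 0 u ∧ u.1 = 0 ∧ |u.2| ≤ 2 * a ∧ v.1 = -(2 * a) ∧
      Conn (PS ω) (Strip (-(2 * a)) 0) u v} ⊆ R1 ∪ (R2 ∪ (E1 ∩ E2)) := by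
    rintro ω ⟨u, v, hu0, hu1, hu2, hv, n, f, hf, hf0, hfn⟩
    rw [abs_le] at hu2
    have hcl : ∀ i ≤ n, Cls 0 (f i) :=
      cls_walk 0 (PS ω) (fun u v => diag_of_ps ω u v) _ n f hf (by rw [hf0]; exact hu0)
    have hS : ∀ i ≤ n, -(2 * a) ≤ (f i).1 ∧ (f i).1 ≤ 0 := fun i hi => hf.1 i hi
    by_cases c1 : ∃ i ≤ n, 2 * a + k * (2 * a + 1) ≤ (f i).2
    · obtain ⟨i, hi, hi2⟩ := c1
      refine Or.inl ⟨f 0, f i, ⟨hcl 0 (Nat.zero_le n), ?_, hi2⟩, ?_⟩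
      · rw [hf0]; exact hu2.2
      · refine conn_of_walk (PS ω) _ _ n f hf 0 i (Nat.zero_le i) hi fun j _ hj => ?_
        have := hS j (by omega)
        exact ⟨by simpa using this.1, this.2⟩
    by_cases c2 : ∃ i ≤ n, (f i).2 ≤ -(2 * a) - k * (2 * a + 1)
    · obtain ⟨i, hi, hi2⟩ := c2
      refine Or.inr (Or.inl ⟨f 0, f i, ⟨hcl 0 (Nat.zero_le n), ?_, hi2⟩, ?_⟩)
      · rw [hf0]; exact hu2.1
      · refine conn_of_walk (PS ω) _ _ n f hf 0 i (Nat.zero_le i) hi fun j _ hj => ?_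
        have := hS j (by omega)
        exact ⟨by simpa using this.1, this.2⟩
    right; right
    push Not at c1 c2
    have hstep : ∀ i < n, -(f (i + 1)).1 ≤ -(f i).1 + 1 := by
      intro i hi
      have := (hf.2 i hi).1.1
      rcases this with h | h <;> omega
    have hf01 : (f 0).1 = 0 := by rw [hf0]; exact hu1
    have hfn1 : (f n).1 = -(2 * a) := by rw [hfn]; exact hv
    obtain ⟨m1, hm1, e1, l1⟩ := exists_first (fun i => -(f i).1) n a hstep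
      (by show -(f 0).1 ≤ a; omega) (by show a ≤ -(f n).1; omega)
    obtain ⟨m2, hm2, e2, l2⟩ := exists_last (fun i => -(f i).1) n a hstep
      (by show -(f 0).1 ≤ a; omega) (by show a ≤ -(f n).1; omega)
    have e1' : (f m1).1 = -a := by have : -(f m1).1 = a := e1; omega
    have e2' : (f m2).1 = -a := by have : -(f m2).1 = a := e2; omega
    refine ⟨⟨f 0, f m1, ⟨hcl 0 (Nat.zero_le n), hf01, ?_, ?_, ?_⟩, ?_⟩,
      ⟨f m2, f n, ⟨hcl m2 hm2, e2', ?_, ?_, ?_⟩, ?_⟩⟩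
    · rw [hf0]; exact hu2.1
    · rw [hf0]; have := hu2.2; push_cast; omega
    · rw [e1']; ring
    · refine conn_of_walk (PS ω) _ _ n f hf 0 m1 (Nat.zero_le _) hm1 fun j _ hj => ?_
      have h6 := hS j (by omega)
      refine ⟨?_, h6.2⟩
      show 0 - a ≤ (f j).1
      rcases Nat.eq_or_lt_of_le hj with h | h
      · rw [h, e1']; omega
      · have : -(f j).1 < a := l1 j h
        omega
    · have := c2 m2 hm2
      rw [hX]; linarith
    · have h7 := c1 m2 hm2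
      have hk : (0 : ℤ) ≤ k := Int.natCast_nonneg k
      have hX2 : (f m2).2 < X := by rw [hX]; exact h7
      have h8 : 2 * X + 1 ≤ (3 * k + 3 : ℕ) * (2 * a + 1) := by
        rw [hX]; push_cast; nlinarith
      linarith
    · rw [hfn1]; ring
    · refine conn_of_walk (PS ω) _ _ n f hf m2 n hm2 le_rfl fun j hj hjn => ?_
      have h6 := hS j hjn
      refine ⟨?_, ?_⟩
      · show -a - a ≤ (f j).1
        have := h6.1
        omega
      · show (f j).1 ≤ -a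
        rcases Nat.eq_or_lt_of_le hj with h | h
        · rw [← h, e2']
        · have : a < -(f j).1 := l2 j h hjn
          omega
  have h6 : bq p hp (2 * a) ≤ Pr p hp R1 + (Pr p hp R2 + Pr p hp (E1 ∩ E2)) := by
    refine (Pr_mono p hp hsub).trans ((Pr_union_le p hp _ _).trans ?_)
    exact add_le_add le_rfl (Pr_union_le p hp _ _)
  have hb : 0 ≤ bq p hp a := Pr_nonneg p hp _
  have h7 : Pr p hp E1 * Pr p hp E2 ≤ ((2 : ℕ) * bq p hp a) * ((3 * k + 3 : ℕ) * bq p hp a) :=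
    mul_le_mul h3 h4 (Pr_nonneg p hp _) (by positivity)
  rw [h5] at h6
  have e : ((2 : ℕ) * bq p hp a) * ((3 * k + 3 : ℕ) * bq p hp a) =
      2 * (3 * k + 3) * bq p hp a ^ 2 := by push_cast; ring
  rw [e] at h7
  linarith

end Pool.Agent.Helper95.DG
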