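import Pool.Agent.Helper95.DG.MeasC
import Pool.Agent.Helper95.DG.Inv

set_option autoImplicit false

/-!
# DG-13: windows

`win_le`: `a` even. If `t + c + k` is even, translate by `(t, c)` (`PS_shift`, `conn_map`, `Pr_comp`): the
event becomes the event of `bq` (class `k + t + c`, even). If `t + c + k` is odd, the points `u` of class `k` with
`u.1 = t` have `u.2 - c` odd, so `|u.2 - c| ≤ a` (`a` even) gives `|u.2 - c| ≤ a - 1` and `|u.2 - (c+1)| ≤ a`: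
the window is contained in the window with centre `c + 1`.
`interval_le`: the integers of `[x, x + j (2a+1) - 1]` are covered by the `j` windows with centres
`x + a + i (2a+1)`, `i < j`; union bound (`Pr_biUnion_le` over `Finset.range j`).
-/

namespace Pool.Agent.Helper95.DG

open MeasureTheory
open scoped ENNReal NNReal

theorem meas_bq_win (a : ℤ) : MeasurableSet {ω : ℤ × ℤ → Bool | ∃ u v : ℤ × ℤ, Cls 0 u ∧
    u.1 = 0 ∧ |u.2| ≤ a ∧ v.1 = -a ∧ Conn (PS ω) (Strip (-a) 0) u v} := by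
  have h := meas_exists_PS (Strip (-a) 0)
    (fun u v => Cls 0 u ∧ u.1 = 0 ∧ |u.2| ≤ a ∧ v.1 = -a)
  convert h using 1
  ext ω
  constructor
  · rintro ⟨u, v, h1, h2, h3, h4, h5⟩
    exact ⟨u, v, ⟨h1, h2, h3, h4⟩, h5⟩
  · rintro ⟨u, v, ⟨h1, h2, h3, h4⟩, h5⟩
    exact ⟨u, v, h1, h2, h3, h4, h5⟩

theorem win_even (p : ℝ≥0) (hp : p ≤ 1) (a : ℤ) (k t c : ℤ) (hev : Even (t + c + k)) :
    Pr p hp {ω | ∃ u v : ℤ × ℤ, (Cls k u ∧ u.1 = t ∧ |u.2 - c| ≤ a ∧ v.1 = t - a) ∧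
      Conn (PS ω) (Strip (t - a) t) u v} ≤ bq p hp a := by
  have h1 := Pr_comp p hp (Equiv.addRight ((t, c) : ℤ × ℤ)) (meas_bq_win a)
  unfold bq
  rw [← h1]
  apply Pr_mono
  rintro ω ⟨u, v, ⟨hk, hu, huc, hv⟩, hconn⟩
  have h2 := conn_map (PS ω) (PS (fun z => ω (z + (t, c)))) (Strip (t - a) t) (Strip (-a) 0)
    (fun z => z - (t, c)) (fun x y hxy => by
      rw [PS_shift, sub_add_cancel, sub_add_cancel]
      exact hxy) (fun x hx => by
      obtain ⟨h3, h4⟩ := hx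
      constructor
      · change -a ≤ x.1 - t
        linarith
      · change x.1 - t ≤ 0
        linarith) u v hconn
  refine ⟨u - (t, c), v - (t, c), ?_, ?_, ?_, ?_, h2⟩
  · unfold Cls at hk ⊢
    change Even (u.1 - t + (u.2 - c) + 0)
    have h3 : u.1 - t + (u.2 - c) + 0 = (u.1 + u.2 + k) - (t + c + k) := by ring
    rw [h3]
    exact hk.sub hev
  · change u.1 - t = 0
    linarith
  · exact huc
  · change v.1 - t = -a
    linarith

theorem win_le (p : ℝ≥0) (hp : p ≤ 1) (a : ℤ) (ha : 0 ≤ a) (hae : Even a) (k t c : ℤ) :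
    Pr p hp {ω | ∃ u v : ℤ × ℤ, (Cls k u ∧ u.1 = t ∧ |u.2 - c| ≤ a ∧ v.1 = t - a) ∧
      Conn (PS ω) (Strip (t - a) t) u v} ≤ bq p hp a := by
  rcases Int.even_or_odd (t + c + k) with hev | hodd
  · exact win_even p hp a k t c hev
  · have h1 : Even (t + (c + 1) + k) := by
      have h2 : t + (c + 1) + k = (t + c + k) + 1 := by ring
      rw [h2]
      exact hodd.add_one
    refine le_trans (Pr_mono p hp ?_) (win_even p hp a k t (c + 1) h1)
    rintro ω ⟨u, v, ⟨hk, hu, huc, hv⟩, hconn⟩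
    refine ⟨u, v, ⟨hk, hu, ?_, hv⟩, hconn⟩
    unfold Cls at hk
    rw [hu] at hk
    obtain ⟨q1, hq1⟩ := hk
    obtain ⟨q2, hq2⟩ := hodd
    obtain ⟨q3, hq3⟩ := hae
    rw [abs_le] at huc ⊢
    omega

theorem interval_le (p : ℝ≥0) (hp : p ≤ 1) (a : ℤ) (ha : 0 ≤ a) (hae : Even a) (k t x : ℤ)
    (j : ℕ) :
    Pr p hp {ω | ∃ u v : ℤ × ℤ, (Cls k u ∧ u.1 = t ∧ x ≤ u.2 ∧ u.2 < x + j * (2 * a + 1) ∧
      v.1 = t - a) ∧ Conn (PS ω) (Strip (t - a) t) u v} ≤ j * bq p hp a := by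
  have hsub : {ω : ℤ × ℤ → Bool | ∃ u v : ℤ × ℤ, (Cls k u ∧ u.1 = t ∧ x ≤ u.2 ∧
      u.2 < x + j * (2 * a + 1) ∧ v.1 = t - a) ∧ Conn (PS ω) (Strip (t - a) t) u v} ⊆
      ⋃ i ∈ Finset.range j, {ω | ∃ u v : ℤ × ℤ, (Cls k u ∧ u.1 = t ∧
        |u.2 - (x + a + i * (2 * a + 1))| ≤ a ∧ v.1 = t - a) ∧
      Conn (PS ω) (Strip (t - a) t) u v} := by
    rintro ω ⟨u, v, ⟨hk, hu, hx1, hx2, hv⟩, hconn⟩
    have hpos : 0 < 2 * a + 1 := by omega
    have h0 : 0 ≤ (u.2 - x) / (2 * a + 1) := Int.ediv_nonneg (by omega) hpos.le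
    have h1 : (u.2 - x) / (2 * a + 1) < j := by
      rw [Int.ediv_lt_iff_lt_mul hpos]
      linarith
    obtain ⟨i, hi⟩ := Int.eq_ofNat_of_zero_le h0
    have h2 := Int.emod_add_mul_ediv (u.2 - x) (2 * a + 1)
    have h3 := Int.emod_nonneg (u.2 - x) hpos.ne'
    have h4 := Int.emod_lt_of_pos (u.2 - x) hpos
    rw [hi] at h1 h2
    simp only [Set.mem_iUnion]
    refine ⟨i, Finset.mem_range.2 (by exact_mod_cast h1), u, v, ⟨hk, hu, ?_, hv⟩, hconn⟩
    have h5 : (2 * a + 1) * (i : ℤ) = i * (2 * a + 1) := mul_comm _ _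
    rw [h5] at h2
    rw [abs_le]
    constructor <;> linarith
  refine le_trans (Pr_mono p hp hsub) (le_trans (Pr_biUnion_le p hp _ _) ?_)
  refine le_trans (Finset.sum_le_sum fun i _ => win_le p hp a ha hae k t _) ?_
  rw [Finset.sum_const, Finset.card_range, nsmul_eq_mul]

end Pool.Agent.Helper95.DG
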